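import Pool.Agent.Lib.MP_1e3e9c_agS.DimA
import Pool.Agent.Lib.MP_463376_co.C3_Gen

/-!
# The calculus of transcendence degrees, II
-/

set_option autoImplicit false

namespace Pool.Agent.Lib.MP_1e3e9c_agS

open MvPolynomial

noncomputable section

variable {k : Type} [Field k] {Ω : Type} [Field Ω] [Algebra k Ω]

theorem DimB_cast {σ : Type} [Finite σ] (p : Ideal (MvPolynomial σ k)) :
    ((td p : ℕ) : Cardinal) = Algebra.trdeg k (MvPolynomial σ k ⧸ p) := by
  refine Cardinal.cast_toNat_of_lt_aleph0 ?_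
  have h1 : Algebra.trdeg k (MvPolynomial σ k ⧸ p) ≤ Algebra.trdeg k (MvPolynomial σ k) :=
    _root_.trdeg_le_of_surjective (Ideal.Quotient.mkₐ k p) (Ideal.Quotient.mkₐ_surjective k p)
  refine h1.trans_lt ?_
  rw [MvPolynomial.trdeg_of_isDomain, Cardinal.lift_lt_aleph0]
  exact Cardinal.mk_lt_aleph0

theorem td_mono {σ : Type} [Finite σ] {p q : Ideal (MvPolynomial σ k)} [q.IsPrime] (h : p ≤ q) :
    td q ≤ td p := by
  have h1 : Algebra.trdeg k (MvPolynomial σ k ⧸ q) ≤ Algebra.trdeg k (MvPolynomial σ k ⧸ p) :=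
    _root_.trdeg_le_of_surjective (Ideal.Quotient.factorₐ k h) (Ideal.Quotient.factor_surjective h)
  rw [← DimB_cast, ← DimB_cast] at h1
  exact_mod_cast h1

theorem td_lt {σ : Type} [Finite σ] {p q : Ideal (MvPolynomial σ k)} [p.IsPrime] [q.IsPrime]
    (h : p < q) : td q < td p := by
  have h1 := MP_463376_co.C3_lt (k := k) h
  rw [← DimB_cast, ← DimB_cast] at h1
  have h2 : td q + 1 ≤ td p := by exact_mod_cast h1
  omega

/-- A prime ideal contained in another one of the same transcendence degree is equal to it. -/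
theorem eq_of_td_le {σ : Type} [Finite σ] {p q : Ideal (MvPolynomial σ k)} [p.IsPrime] [q.IsPrime]
    (h : p ≤ q) (h' : td p ≤ td q) : p = q := by
  by_contra hne
  exact absurd (td_lt (lt_of_le_of_ne h hne)) (not_lt.2 h')

/-- Specialisation does not increase the rank. -/
theorem T_specialize {Ω' : Type} [Field Ω'] [Algebra k Ω'] {σ : Type} [Finite σ] (x : σ → Ω)
    (y : σ → Ω') (h : kr k x ≤ kr k y) : T k (Set.range y) ≤ T k (Set.range x) := by
  have hy : (kr k y).IsPrime := kr_prime y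
  rw [T_range, T_range]
  exact_mod_cast td_mono h

/-- Krull's principal ideal theorem, inside a prime ideal. -/
theorem krull {σ : Type} [Finite σ] (p q : Ideal (MvPolynomial σ k)) [p.IsPrime] [q.IsPrime]
    (hpq : p ≤ q) (g : MvPolynomial σ k) (hg : g ∈ q) :
    ∃ r : Ideal (MvPolynomial σ k), r.IsPrime ∧ p ≤ r ∧ r ≤ q ∧ g ∈ r ∧ td p ≤ td r + 1 := by
  by_cases hgp : g ∈ p
  · exact ⟨p, inferInstance, le_rfl, hpq, hgp, Nat.le_succ _⟩
  have hq' : (q.map (Ideal.Quotient.mk p)).IsPrime :=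
    Ideal.map_isPrime_of_surjective Ideal.Quotient.mk_surjective (by rwa [Ideal.mk_ker])
  have hg' : Ideal.span {Ideal.Quotient.mk p g} ≤ q.map (Ideal.Quotient.mk p) := by
    rw [Ideal.span_singleton_le_iff_mem]
    exact Ideal.mem_map_of_mem _ hg
  obtain ⟨r', hr', hle⟩ := Ideal.exists_minimalPrimes_le hg'
  have hpr : r'.IsPrime := hr'.1.1
  have hgr : Ideal.Quotient.mk p g ∈ r' := hr'.1.2 (Ideal.mem_span_singleton_self _)
  have hft : Algebra.FiniteType k (MvPolynomial σ k ⧸ p) :=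
    Algebra.FiniteType.of_surjective (Ideal.Quotient.mkₐ k p) (Ideal.Quotient.mkₐ_surjective k p)
  have noeth : IsNoetherianRing (MvPolynomial σ k ⧸ p) := Algebra.FiniteType.isNoetherianRing k _
  have h1 : r'.height ≤ 1 := Ideal.height_le_one_of_isPrincipal_of_mem_minimalPrimes _ _ hr'
  have h2 : r' ≠ ⊥ := by
    rintro rfl
    exact hgp (Ideal.Quotient.eq_zero_iff_mem.1 ((Submodule.mem_bot _).1 hgr))
  have h3 : r'.height ≠ 0 := fun h => h2 (Ideal.height_eq_zero_iff_eq_bot.1 h)
  have h4 : r'.height = 1 := le_antisymm h1 (Order.one_le_iff_ne_zero.2 h3)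
  have h5 := MP_463376_co.C3_ht1 (k := k) r' h4
  refine ⟨r'.comap (Ideal.Quotient.mk p), inferInstance, ?_, ?_, hgr, ?_⟩
  · intro x hx
    rw [Ideal.mem_comap, Ideal.Quotient.eq_zero_iff_mem.2 hx]
    exact zero_mem _
  · refine (Ideal.comap_mono hle).trans ?_
    rw [Ideal.comap_map_of_surjective _ Ideal.Quotient.mk_surjective]
    refine sup_le le_rfl ?_
    refine le_trans ?_ hpq
    intro x hx
    exact Ideal.Quotient.eq_zero_iff_mem.1 ((Submodule.mem_bot _).1 (Ideal.mem_comap.1 hx))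
  · have h6 : Algebra.trdeg k ((MvPolynomial σ k ⧸ p) ⧸ r') ≤
        Algebra.trdeg k (MvPolynomial σ k ⧸ r'.comap (Ideal.Quotient.mk p)) := by
      refine _root_.trdeg_le_of_surjective (Ideal.Quotient.liftₐ (r'.comap (Ideal.Quotient.mk p))
        ((Ideal.Quotient.mkₐ k r').comp (Ideal.Quotient.mkₐ k p)) ?_) ?_
      · intro a ha
        exact Ideal.Quotient.eq_zero_iff_mem.2 ha
      · refine Ideal.Quotient.lift_surjective_of_surjective _ _ ?_
        exact (Ideal.Quotient.mkₐ_surjective k r').comp (Ideal.Quotient.mkₐ_surjective k p)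
    have h7 : Algebra.trdeg k (MvPolynomial σ k ⧸ p) ≤
        Algebra.trdeg k (MvPolynomial σ k ⧸ r'.comap (Ideal.Quotient.mk p)) + 1 := by
      rw [← h5]
      gcongr
    rw [← DimB_cast, ← DimB_cast] at h7
    exact_mod_cast h7

/-- The same for several polynomials. -/
theorem krull_finset {σ : Type} [Finite σ] {α : Type} (s : Finset α)
    (g : α → MvPolynomial σ k) (p q : Ideal (MvPolynomial σ k)) [p.IsPrime] [q.IsPrime]
    (hpq : p ≤ q) (hg : ∀ a ∈ s, g a ∈ q) :
    ∃ r : Ideal (MvPolynomial σ k), r.IsPrime ∧ p ≤ r ∧ r ≤ q ∧ (∀ a ∈ s, g a ∈ r) ∧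
      td p ≤ td r + s.card := by
  classical
  induction s using Finset.induction_on with
  | empty => exact ⟨p, inferInstance, le_rfl, hpq, fun a ha => absurd ha (Finset.notMem_empty a), le_rfl⟩
  | insert a s ha ih =>
    obtain ⟨r, h1, h2, h3, h4, h5⟩ := ih fun b hb => hg b (Finset.mem_insert_of_mem hb)
    obtain ⟨r', g1, g2, g3, g4, g5⟩ := krull r q h3 (g a) (hg a (Finset.mem_insert_self a s))
    refine ⟨r', g1, h2.trans g2, g3, ?_, ?_⟩
    · intro b hb
      rcases Finset.mem_insert.1 hb with rfl | hb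
      · exact g4
      · exact g2 (h4 b hb)
    · rw [Finset.card_insert_of_notMem ha]
      omega

end

end Pool.Agent.Lib.MP_1e3e9c_agS
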