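import Pool.Agent.Lib.MP_1e3e9c_agS.Prod

/-!
# Families of lines over extension fields
-/

set_option autoImplicit false

namespace Pool.Agent.Lib.MP_1e3e9c_agS

open MvPolynomial

noncomputable section

/-- Independence of two vectors in terms of minors. -/
theorem indep_iff {ι K : Type} [Finite ι] [Field K] (u w : ι → K) :
    LinearIndependent K ![u, w] ↔ ∃ i j, u i * w j - u j * w i ≠ 0 := by
  rw [LinearIndependent.pair_iff]
  constructor
  · intro h
    by_contra hno
    have hno' : ∀ i j, u i * w j - u j * w i = 0 := by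
      intro i j
      by_contra hij
      exact hno ⟨i, j, hij⟩
    by_cases hu : u = 0
    · have h1 := h 1 0 (by rw [hu, smul_zero, zero_smul, add_zero])
      exact one_ne_zero h1.1
    · obtain ⟨i, hi⟩ := Function.ne_iff.1 hu
      have h1 := h (w i) (-(u i)) (by
        funext j
        simp only [Pi.add_apply, Pi.smul_apply, smul_eq_mul, Pi.zero_apply]
        have h2 := hno' i j
        linear_combination -h2)
      exact hi (neg_eq_zero.1 h1.2)
  · rintro ⟨i, j, hij⟩ s t hst
    have h1 : s * u i + t * w i = 0 := by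
      have := congrFun hst i
      simpa only [Pi.add_apply, Pi.smul_apply, smul_eq_mul, Pi.zero_apply] using this
    have h2 : s * u j + t * w j = 0 := by
      have := congrFun hst j
      simpa only [Pi.add_apply, Pi.smul_apply, smul_eq_mul, Pi.zero_apply] using this
    have hs : s * (u i * w j - u j * w i) = 0 := by linear_combination w j * h1 - w i * h2
    have ht : t * (u i * w j - u j * w i) = 0 := by linear_combination u i * h2 - u j * h1
    exact ⟨(mul_eq_zero.1 hs).resolve_right hij, (mul_eq_zero.1 ht).resolve_right hij⟩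

variable {k : Type} [Field k] [IsAlgClosed k] {ι : Type} [Fintype ι]
  {f : Ideal (MvPolynomial (ι ⊕ ι) k)}

/-- The polynomial `g (A U + B W, C U + D W)` in `A, B, C, D` with coefficients polynomials in `U, W`. -/
def comb (g : MvPolynomial (ι ⊕ ι) k) : MvPolynomial (Fin 4) (MvPolynomial (ι ⊕ ι) k) :=
  aeval (Sum.elim (fun i => X 0 * C (X (Sum.inl i)) + X 1 * C (X (Sum.inr i)))
    (fun i => X 2 * C (X (Sum.inl i)) + X 3 * C (X (Sum.inr i)))) g

omit [IsAlgClosed k] [Fintype ι] in
theorem eval_comb (g : MvPolynomial (ι ⊕ ι) k) {S : Type} [CommRing S] [Algebra k S] (u w : ι → S)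
    (A : Fin 4 → S) :
    eval₂ (aeval (Sum.elim u w) : MvPolynomial (ι ⊕ ι) k →ₐ[k] S).toRingHom A (comb g) =
      aeval (Sum.elim (A 0 • u + A 1 • w) (A 2 • u + A 3 • w)) g := by
  unfold comb
  induction g using MvPolynomial.induction_on with
  | C a =>
    rw [algHom_C, algHom_C]
    show eval₂ _ A (C (C a)) = _
    rw [eval₂_C]
    show aeval (Sum.elim u w) (C a) = _
    rw [algHom_C]
  | add p q hp hq => rw [map_add, map_add, eval₂_add, hp, hq]
  | mul_X p n hp =>
    rw [map_mul, map_mul, eval₂_mul, hp, aeval_X, aeval_X]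
    have h1 : ∀ m : ι ⊕ ι, (aeval (Sum.elim u w) : MvPolynomial (ι ⊕ ι) k →ₐ[k] S).toRingHom (X m) =
        Sum.elim u w m := fun m => aeval_X _ m
    rcases n with i | i
    · simp only [Sum.elim_inl, eval₂_add, eval₂_mul, eval₂_X, eval₂_C, h1, Sum.elim_inr,
        Pi.add_apply, Pi.smul_apply, smul_eq_mul]
    · simp only [Sum.elim_inl, eval₂_add, eval₂_mul, eval₂_X, eval₂_C, h1, Sum.elim_inr,
        Pi.add_apply, Pi.smul_apply, smul_eq_mul]

/-- The stability of the cone holds over extension fields.

Proof. For `g ∈ f` the polynomial `g (A U + B W, C U + D W)` in `A, B, C, D` has coefficients (polynomials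
in `U, W`) which vanish on the zero set of `f` over `k` (`k` is infinite), so they are in `f`. -/
theorem IsFam.stable_ext (hf : IsFam f) {L : Type} [Field L] [Algebra k L] (a b c d : L)
    (u w : ι → L) (h : Sum.elim u w ∈ zeroLocus L f) :
    Sum.elim (a • u + b • w) (c • u + d • w) ∈ zeroLocus L f := by
  intro g hg
  have := hf.prime
  have hcoef : ∀ m, coeff m (comb g) ∈ f := by
    intro m
    refine mem_of_zeroLocus f _ fun y hy => ?_
    have hy0 : Sum.elim (fun i => y (Sum.inl i)) (fun i => y (Sum.inr i)) = y := Sum.elim_comp_inl_inr y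
    have h0 : map (aeval y : MvPolynomial (ι ⊕ ι) k →ₐ[k] k).toRingHom (comb g) = 0 := by
      refine MvPolynomial.funext fun A => ?_
      rw [eval_map, map_zero]
      have h1 := eval_comb g (fun i => y (Sum.inl i)) (fun i => y (Sum.inr i)) A
      rw [hy0] at h1
      rw [h1]
      refine hf.stable _ _ _ _ _ _ ?_ g hg
      rw [hy0]
      exact hy
    have h2 := congrArg (coeff m) h0
    rw [coeff_map, coeff_zero] at h2
    exact h2
  have h3 : map (aeval (Sum.elim u w) : MvPolynomial (ι ⊕ ι) k →ₐ[k] L).toRingHom (comb g) = 0 := by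
    ext m
    rw [coeff_map, coeff_zero]
    exact h _ (hcoef m)
  have h4 := eval_comb g u w ![a, b, c, d]
  rw [← eval_map, h3, map_zero] at h4
  exact h4.symm

/-- If a linear space contains no line of the family over `k`, it contains none over an extension.

Proof. Nullstellensatz: `U i * W j - U j * W i` vanishes on the zero set over `k` of the ideal generated by
`f` and the forms `g s` in `U` and in `W`, so a power of it is in this ideal. -/
theorem noLine_ext {c : ℕ} (g : Fin c → ι → k)
    (hL : ∀ u w : ι → k, Sum.elim u w ∈ zeroLocus k f → LinearIndependent k ![u, w] →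
      ∃ s, dot (g s) u ≠ 0 ∨ dot (g s) w ≠ 0)
    {L : Type} [Field L] [Algebra k L] (u w : ι → L) (h : Sum.elim u w ∈ zeroLocus L f)
    (hi : LinearIndependent L ![u, w]) :
    ∃ s, dot (fun j => algebraMap k L (g s j)) u ≠ 0 ∨
      dot (fun j => algebraMap k L (g s j)) w ≠ 0 := by
  classical
  by_contra hno
  have hno' : ∀ s, dot (fun j => algebraMap k L (g s j)) u = 0 ∧
      dot (fun j => algebraMap k L (g s j)) w = 0 := by
    intro s
    constructor
    · by_contra h1
      exact hno ⟨s, Or.inl h1⟩
    · by_contra h1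
      exact hno ⟨s, Or.inr h1⟩
  set G : Set (MvPolynomial (ι ⊕ ι) k) :=
    Set.range (fun s => ∑ j, C (g s j) * X (Sum.inl j)) ∪ Set.range (fun s => ∑ j, C (g s j) * X (Sum.inr j))
    with hG
  have hev : ∀ {K : Type} [Field K] [Algebra k K] (x y : ι → K) (h : ι → k),
      aeval (Sum.elim x y) (∑ j, C (h j) * X (Sum.inl j) : MvPolynomial (ι ⊕ ι) k) =
        dot (fun j => algebraMap k K (h j)) x ∧
      aeval (Sum.elim x y) (∑ j, C (h j) * X (Sum.inr j) : MvPolynomial (ι ⊕ ι) k) =
        dot (fun j => algebraMap k K (h j)) y := by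
    intro K _ _ x y h
    constructor
    · rw [map_sum]
      refine Finset.sum_congr rfl fun j _ => ?_
      rw [map_mul, algHom_C, aeval_X]
      rfl
    · rw [map_sum]
      refine Finset.sum_congr rfl fun j _ => ?_
      rw [map_mul, algHom_C, aeval_X]
      rfl
  obtain ⟨i, j, hij⟩ := (indep_iff u w).1 hi
  set m : MvPolynomial (ι ⊕ ι) k := X (Sum.inl i) * X (Sum.inr j) - X (Sum.inl j) * X (Sum.inr i) with hm
  have hmem : m ∈ (f ⊔ Ideal.span G).radical := by
    rw [← vanishingIdeal_zeroLocus_eq_radical (K := k)]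
    intro y hy
    have hy0 : Sum.elim (fun i => y (Sum.inl i)) (fun i => y (Sum.inr i)) = y := Sum.elim_comp_inl_inr y
    by_contra hne
    have hin : LinearIndependent k ![(fun i => y (Sum.inl i)), (fun i => y (Sum.inr i))] := by
      rw [indep_iff]
      refine ⟨i, j, ?_⟩
      rw [hm, map_sub, map_mul, map_mul, aeval_X, aeval_X, aeval_X, aeval_X] at hne
      exact hne
    obtain ⟨s, hs⟩ := hL (fun i => y (Sum.inl i)) (fun i => y (Sum.inr i)) (by
      rw [hy0]
      exact fun p hp => hy p (Ideal.mem_sup_left hp)) hin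
    have hev' := hev (K := k) (fun i => y (Sum.inl i)) (fun i => y (Sum.inr i)) (g s)
    rw [hy0] at hev'
    rcases hs with hs | hs
    · refine hs ?_
      have h1 := hy (∑ j, C (g s j) * X (Sum.inl j)) (Ideal.mem_sup_right (Ideal.subset_span (Or.inl ⟨s, rfl⟩)))
      rw [hev'.1] at h1
      exact h1
    · refine hs ?_
      have h1 := hy (∑ j, C (g s j) * X (Sum.inr j)) (Ideal.mem_sup_right (Ideal.subset_span (Or.inr ⟨s, rfl⟩)))
      rw [hev'.2] at h1
      exact h1
  obtain ⟨N, hN⟩ := hmem
  have hker : f ⊔ Ideal.span G ≤ RingHom.ker (aeval (Sum.elim u w) : MvPolynomial (ι ⊕ ι) k →ₐ[k] L) := by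
    refine sup_le (fun p hp => h p hp) (Ideal.span_le.2 ?_)
    rintro p (⟨s, rfl⟩ | ⟨s, rfl⟩)
    · show aeval (Sum.elim u w) _ = 0
      rw [(hev u w (g s)).1]
      exact (hno' s).1
    · show aeval (Sum.elim u w) _ = 0
      rw [(hev u w (g s)).2]
      exact (hno' s).2
  have h5 : aeval (Sum.elim u w) (m ^ N) = 0 := hker hN
  rw [map_pow] at h5
  have h7 : aeval (Sum.elim u w) m = 0 := eq_zero_of_pow_eq_zero h5
  rw [hm, map_sub, map_mul, map_mul, aeval_X, aeval_X, aeval_X, aeval_X] at h7
  exact hij h7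

end

end Pool.Agent.Lib.MP_1e3e9c_agS
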