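import Pool.Agent.Lib.MP_1e3e9c_agS.Prod

/-!
# Linear sections of closed cones
-/

set_option autoImplicit false

namespace Pool.Agent.Lib.MP_1e3e9c_agS

open MvPolynomial

noncomputable section

variable {k : Type} [Field k] [IsAlgClosed k] {ι : Type} [Fintype ι]

/-- The linear polynomial with coefficients `h`. -/
def convL (h : ι → k) : MvPolynomial ι k := ∑ j, C (h j) * X j

omit [IsAlgClosed k] in
theorem aeval_convL (h x : ι → k) : aeval x (convL h) = dot h x := by
  simp [convL, dot, map_sum]

omit [IsAlgClosed k] in
theorem convL_hom (h : ι → k) : (convL h).IsHomogeneous 1 := by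
  unfold convL
  apply IsHomogeneous.sum
  intro j _
  exact isHomogeneous_C_mul_X _ _

omit [IsAlgClosed k] in
/-- The ideal `I + (L)` is homogeneous. -/
theorem conv_sup (I : Ideal (MvPolynomial ι k))
    (hI : ∀ G ∈ I, ∀ n, homogeneousComponent n G ∈ I) (L : MvPolynomial ι k)
    (hL : L.IsHomogeneous 1) :
    ∀ G ∈ I ⊔ Ideal.span {L}, ∀ n, homogeneousComponent n G ∈ I ⊔ Ideal.span {L} := by
  intro G hG n
  obtain ⟨a, ha, b, hb, rfl⟩ := Submodule.mem_sup.1 hG
  rw [map_add]
  refine Ideal.add_mem _ (Ideal.mem_sup_left (hI a ha n)) (Ideal.mem_sup_right ?_)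
  obtain ⟨c, rfl⟩ := Ideal.mem_span_singleton'.1 hb
  have h1 : c * L = ∑ i ∈ Finset.range (c.totalDegree + 1), homogeneousComponent i c * L := by
    rw [← Finset.sum_mul, sum_homogeneousComponent]
  rw [h1, map_sum]
  refine Ideal.sum_mem _ fun i _ => ?_
  have h2 : homogeneousComponent i c * L ∈ homogeneousSubmodule ι k (i + 1) := by
    rw [mem_homogeneousSubmodule]
    exact (homogeneousComponent_isHomogeneous i c).mul hL
  rw [homogeneousComponent_of_mem h2]
  split_ifs
  · exact Ideal.mul_mem_left _ _ (Ideal.mem_span_singleton_self L)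
  · exact Ideal.zero_mem _

omit [IsAlgClosed k] in
theorem conv_ne {x : ι → k} (hx : x ≠ 0) : convL x ≠ 0 := by
  classical
  intro h
  apply hx
  funext i
  have h1 := congrArg (aeval (Pi.single i (1 : k))) h
  rw [aeval_convL, map_zero] at h1
  simpa [dot, Pi.single_apply] using h1

/-- A linear form which vanishes at none of finitely many nonzero vectors. -/
theorem exists_dot_ne (S : Finset (ι → k)) (hS : ∀ x ∈ S, x ≠ 0) :
    ∃ h : ι → k, ∀ x ∈ S, dot h x ≠ 0 := by
  classical
  have : Infinite k := IsAlgClosed.instInfinite
  have h1 : (∏ x ∈ S, convL x) ≠ 0 := Finset.prod_ne_zero_iff.2 fun x hx => conv_ne (hS x hx)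
  by_contra hcon
  push Not at hcon
  apply h1
  apply MvPolynomial.funext
  intro h
  obtain ⟨x, hx, hx0⟩ := hcon h
  rw [map_prod, map_zero]
  refine Finset.prod_eq_zero hx ?_
  have h2 := aeval_convL x h
  rw [MvPolynomial.aeval_eq_eval] at h2
  rw [h2]
  simpa [dot, mul_comm] using hx0

omit [IsAlgClosed k] in
/-- The case of dimension zero. -/
theorem conv_zero (I : Ideal (MvPolynomial ι k))
    (hI : ∀ G ∈ I, ∀ n, homogeneousComponent n G ∈ I)
    (hd : ringKrullDim (MvPolynomial ι k ⧸ I) ≤ 0) (x : ι → k) (hx : x ∈ zeroLocus k I) :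
    x = 0 := by
  by_contra hx0
  obtain ⟨i, hi⟩ : ∃ i, x i ≠ 0 := by
    by_contra h
    push Not at h
    exact hx0 (funext h)
  set φ : MvPolynomial ι k →ₐ[k] Polynomial k :=
    aeval (fun j => Polynomial.C (x j) * Polynomial.X) with hφ
  have hφh : ∀ (n : ℕ) (G : MvPolynomial ι k), G.IsHomogeneous n →
      φ G = Polynomial.C (aeval x G) * Polynomial.X ^ n := by
    intro n G hG
    rw [hφ]
    rw [show (fun j => Polynomial.C (x j) * Polynomial.X : ι → Polynomial k)
      = fun j => Polynomial.X * (fun l => Polynomial.C (x l)) j from by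
        funext j; ring]
    rw [MvPolynomial.aeval_def, MvPolynomial.eval₂_eq']
    rw [MvPolynomial.aeval_def, MvPolynomial.eval₂_eq', map_sum, Finset.sum_mul]
    refine Finset.sum_congr rfl fun d hd => ?_
    have hdeg : ∑ j, d j = n := by
      have := hG (MvPolynomial.mem_support_iff.1 hd)
      rw [← this, Finsupp.weight_apply, Finsupp.sum_fintype]
      · simp
      · simp
    simp only [mul_pow, Finset.prod_mul_distrib, Finset.prod_pow_eq_pow_sum, hdeg, map_mul,
      map_prod, map_pow]
    rw [Polynomial.algebraMap_eq, Algebra.algebraMap_self_apply]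
    ring
  have hφI : ∀ G ∈ I, φ G = 0 := by
    intro G hG
    rw [← sum_homogeneousComponent G, map_sum]
    refine Finset.sum_eq_zero fun n _ => ?_
    rw [hφh n _ (homogeneousComponent_isHomogeneous n G)]
    rw [(mem_zeroLocus_iff.1 hx) _ (hI G hG n)]
    simp
  have hP : (RingHom.ker φ).IsPrime := RingHom.ker_isPrime _
  have hQ : (RingHom.ker (aeval x : MvPolynomial ι k →ₐ[k] k)).IsPrime := RingHom.ker_isPrime _
  let P : PrimeSpectrum.zeroLocus (R := MvPolynomial ι k) (I : Set (MvPolynomial ι k)) :=
    ⟨⟨RingHom.ker φ, hP⟩, fun G hG => hφI G hG⟩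
  let Q : PrimeSpectrum.zeroLocus (R := MvPolynomial ι k) (I : Set (MvPolynomial ι k)) :=
    ⟨⟨RingHom.ker (aeval x : MvPolynomial ι k →ₐ[k] k), hQ⟩,
      fun G hG => (mem_zeroLocus_iff.1 hx) G hG⟩
  have hev : ∀ G, (Polynomial.aeval (1 : k)) (φ G) = aeval x G := by
    intro G
    rw [hφ, ← AlgHom.comp_apply, MvPolynomial.comp_aeval]
    simp
  have hPQ : P < Q := by
    refine lt_of_le_of_ne ?_ ?_
    · intro G hG
      have h1 : φ G = 0 := hG
      change aeval x G = 0
      rw [← hev, h1, map_zero]
    · intro h
      have h1 : (X i - C (x i) : MvPolynomial ι k) ∈ Q.1.asIdeal := by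
        change aeval x (X i - C (x i)) = 0
        simp
      rw [← h] at h1
      have h2 : φ (X i - C (x i)) = 0 := h1
      have h3 := congrArg (Polynomial.aeval (0 : k)) h2
      simp [hφ] at h3
      exact hi h3
  rw [ringKrullDim_quotient] at hd
  have h1 := (Order.LTSeries.length_le_krullDim ((RelSeries.singleton _ Q).cons P hPQ)).trans hd
  rw [RelSeries.cons_length, RelSeries.singleton_length] at h1
  have h2 : (0 + 1 : ℕ) ≤ 0 := by exact_mod_cast h1
  omega

/-- F1. A closed subset of the projective space of dimension less than `c` is disjoint from a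
linear space of codimension `c`.

Proof. Induction on `c`. `c = 0`: the quotient is the zero ring or has dimension `≤ 0`; `I` is homogeneous, so if `x` is a zero, all `t x` are
zeroes, and `x ≠ 0` would give a prime ideal (of the line through `x`) of transcendence degree one, so a chain of length one. Step: choose a linear
form `g` which does not vanish identically on the zero set of any minimal prime `P` of `I` with a zero different from `0` (they are finitely many, `k` is
infinite; the forms which vanish at a fixed nonzero vector are a proper subspace). `I' = I + (g)`: every prime over `I'` strictly contains a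
minimal prime of `I` (or is the ideal of the origin), so the dimension drops. One may also use `krull` and `td`. -/
theorem exists_forms (c : ℕ) (I : Ideal (MvPolynomial ι k))
    (hI : ∀ G ∈ I, ∀ n, homogeneousComponent n G ∈ I)
    (hd : ringKrullDim (MvPolynomial ι k ⧸ I) ≤ c) :
    ∃ g : Fin c → ι → k, ∀ x ∈ zeroLocus k I, (∀ s, dot (g s) x = 0) → x = 0 := by
  classical
  induction c generalizing I with
  | zero =>
    refine ⟨fun _ => 0, fun x hx _ => conv_zero I hI (by simpa using hd) x hx⟩
  | succ c ih =>
    have hfin : I.minimalPrimes.Finite := Ideal.finite_minimalPrimes_of_isNoetherianRing _ I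
    have hch : ∀ P : Ideal (MvPolynomial ι k), ∃ x : ι → k,
        (∃ y ∈ zeroLocus k P, y ≠ 0) → x ∈ zeroLocus k P ∧ x ≠ 0 := by
      intro P
      by_cases h : ∃ y ∈ zeroLocus k P, y ≠ 0
      · obtain ⟨y, hy, hy0⟩ := h
        exact ⟨y, fun _ => ⟨hy, hy0⟩⟩
      · exact ⟨0, fun h' => absurd h' h⟩
    choose f hf using hch
    obtain ⟨h, hh⟩ := exists_dot_ne ((hfin.toFinset.image f).filter (fun x => x ≠ 0))
      (fun x hx => (Finset.mem_filter.1 hx).2)
    have hd' : ringKrullDim (MvPolynomial ι k ⧸ (I ⊔ Ideal.span {convL h})) ≤ c := by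
      rw [ringKrullDim_quotient] at hd ⊢
      refine iSup_le fun l => ?_
      obtain ⟨P, hPm, hPl⟩ := Ideal.exists_minimalPrimes_le (I := I) (J := l.head.1.asIdeal)
        (le_trans le_sup_left l.head.2)
      have : P.IsPrime := hPm.1.1
      by_cases hz : ∃ y ∈ zeroLocus k P, y ≠ 0
      · obtain ⟨hfz, hf0⟩ := hf P hz
        have hne : dot h (f P) ≠ 0 := hh (f P) (Finset.mem_filter.2
          ⟨Finset.mem_image_of_mem _ (hfin.mem_toFinset.2 hPm), hf0⟩)
        have hLP : convL h ∉ P := by
          intro hc
          apply hne
          rw [← aeval_convL]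
          exact (mem_zeroLocus_iff.1 hfz) _ hc
        let emb : PrimeSpectrum.zeroLocus (R := MvPolynomial ι k)
            ((I ⊔ Ideal.span {convL h} : Ideal (MvPolynomial ι k)) : Set (MvPolynomial ι k)) →
            PrimeSpectrum.zeroLocus (R := MvPolynomial ι k) (I : Set (MvPolynomial ι k)) :=
          fun q => ⟨q.1, fun G hG => q.2 (Ideal.mem_sup_left hG)⟩
        let P' : PrimeSpectrum.zeroLocus (R := MvPolynomial ι k) (I : Set (MvPolynomial ι k)) :=
          ⟨⟨P, hPm.1.1⟩, hPm.1.2⟩
        have hlt : P' < (l.map emb (fun _ _ hab => hab)).head := by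
          refine lt_of_le_of_ne hPl ?_
          intro he
          apply hLP
          have h1 : convL h ∈ l.head.1.asIdeal :=
            l.head.2 (Ideal.mem_sup_right (Ideal.mem_span_singleton_self _))
          have h2 : P = l.head.1.asIdeal := congrArg (fun q => q.1.asIdeal) he
          rw [h2]
          exact h1
        have h3 := (Order.LTSeries.length_le_krullDim ((l.map emb (fun _ _ hab => hab)).cons P' hlt)).trans
          hd
        simp only [RelSeries.cons_length, LTSeries.map_length] at h3
        have h4 : l.length + 1 ≤ c + 1 := by exact_mod_cast h3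
        have h5 : l.length ≤ c := by omega
        exact_mod_cast h5
      · push Not at hz
        have hX : ∀ i, (X i : MvPolynomial ι k) ∈ P := by
          intro i
          refine mem_of_zeroLocus P _ fun x hx => ?_
          rw [hz x hx]
          simp
        have hmax : ∀ Q : Ideal (MvPolynomial ι k), Q.IsPrime → P ≤ Q → Q ≤ P := by
          intro Q hQ hPQ G hG
          have h1 : ∀ G : MvPolynomial ι k, G - C (constantCoeff G) ∈ P := by
            intro G
            induction G using MvPolynomial.induction_on with
            | C a => simp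
            | add p q hp hq =>
              have : p + q - C (constantCoeff (p + q)) = (p - C (constantCoeff p)) +
                (q - C (constantCoeff q)) := by
                rw [map_add, map_add]; ring
              rw [this]
              exact P.add_mem hp hq
            | mul_X p i _ =>
              simp only [map_mul, constantCoeff_X, mul_zero, map_zero, sub_zero]
              exact P.mul_mem_left _ (hX i)
          have h2 : C (constantCoeff G) ∈ Q := by
            have := Q.sub_mem hG (hPQ (h1 G))
            simpa using this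
          have h3 : constantCoeff G = 0 := by
            by_contra h0
            apply hQ.ne_top
            rw [Ideal.eq_top_iff_one]
            have := Q.mul_mem_left (C (constantCoeff G)⁻¹) h2
            rwa [← C_mul, inv_mul_cancel₀ h0, C_1] at this
          have h4 := h1 G
          rw [h3, C_0, sub_zero] at h4
          exact h4
        have hlen : l.length = 0 := by
          by_contra hl
          have hl' : 0 < l.length := Nat.pos_of_ne_zero hl
          have h1 : l.head < l.last := by
            refine l.strictMono ?_
            rw [Fin.lt_def]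
            exact hl'
          have h2 : l.last.1.asIdeal ≤ l.head.1.asIdeal :=
            (hmax _ l.last.1.isPrime (hPl.trans h1.le)).trans hPl
          exact absurd h1 (not_lt_of_ge h2)
        rw [hlen]
        exact_mod_cast Nat.zero_le c
    obtain ⟨g, hg⟩ := ih (I ⊔ Ideal.span {convL h}) (conv_sup I hI _ (convL_hom h)) hd'
    refine ⟨Fin.cons h g, fun x hx hs => hg x ?_ fun s => ?_⟩
    · rw [mem_zeroLocus_iff] at hx ⊢
      intro G hG
      obtain ⟨a, ha, b, hb, rfl⟩ := Submodule.mem_sup.1 hG
      obtain ⟨d, rfl⟩ := Ideal.mem_span_singleton'.1 hb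
      rw [map_add, map_mul, hx a ha, aeval_convL]
      have := hs 0
      rw [Fin.cons_zero] at this
      rw [this]
      simp
    · have := hs s.succ
      rwa [Fin.cons_succ] at this

end

end Pool.Agent.Lib.MP_1e3e9c_agS
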