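import Pool.Agent.Lib.MP_1e3e9c_agS.Prod

/-!
# The ideal of a closed cone
-/

set_option autoImplicit false
set_option linter.unusedSectionVars false

namespace Pool.Agent.Lib.MP_1e3e9c_agS

open MvPolynomial

noncomputable section

variable {k : Type} [Field k] [IsAlgClosed k] {ι : Type} [Fintype ι]

omit [IsAlgClosed k] in
theorem aeval_smul_of_isHomogeneous (G : MvPolynomial ι k) (n : ℕ) (hG : G.IsHomogeneous n)
    (s : k) (x : ι → k) : aeval (s • x) G = s ^ n * aeval x G := by
  rw [aeval_def, aeval_def, eval₂_eq', eval₂_eq', Finset.mul_sum]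
  refine Finset.sum_congr rfl fun d hd => ?_
  have hdeg : ∑ i, d i = n := by
    have h1 := hG (mem_support_iff.1 hd)
    rw [← h1, Finsupp.weight_apply, Finsupp.sum_fintype]
    · simp
    · simp
  have h2 : ∏ i, (s • x) i ^ d i = s ^ n * ∏ i, x i ^ d i := by
    rw [← hdeg, ← Finset.prod_pow_eq_pow_sum, ← Finset.prod_mul_distrib]
    refine Finset.prod_congr rfl fun i _ => ?_
    rw [Pi.smul_apply, smul_eq_mul, mul_pow]
  rw [h2]
  ring

/-- F2. The ideal of a closed cone is homogeneous, and its Krull dimension is at most the
transcendence degree.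

Proof. `G (t x) = ∑ t ^ n G_n (x)` for all `t`, and `mem_of_zeroLocus`. A chain of primes has a decreasing chain of transcendence degrees
(`td_lt`). -/
theorem cone_ideal (q : Ideal (MvPolynomial ι k)) [q.IsPrime]
    (hq : ∀ (s : k) (x : ι → k), x ∈ zeroLocus k q → s • x ∈ zeroLocus k q) :
    (∀ G ∈ q, ∀ n, homogeneousComponent n G ∈ q) ∧
      ringKrullDim (MvPolynomial ι k ⧸ q) ≤ (td q : ℕ) := by
  have hinf : Infinite k := inferInstance
  refine ⟨fun G hG n => ?_, ?_⟩
  · by_cases hn : G.totalDegree < n
    · rw [homogeneousComponent_eq_zero _ _ hn]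
      exact q.zero_mem
    · apply mem_of_zeroLocus
      intro x hx
      set P : Polynomial k := ∑ m ∈ Finset.range (G.totalDegree + 1),
        Polynomial.C (aeval x (homogeneousComponent m G)) * Polynomial.X ^ m with hP
      have hP0 : P = 0 := by
        apply Polynomial.funext
        intro s
        rw [Polynomial.eval_zero, hP, Polynomial.eval_finsetSum]
        have h1 : aeval (s • x) G = 0 := hq s x hx G hG
        rw [← sum_homogeneousComponent G, map_sum] at h1
        rw [← h1]
        refine Finset.sum_congr rfl fun m _ => ?_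
        rw [aeval_smul_of_isHomogeneous _ m (homogeneousComponent_isHomogeneous m G)]
        rw [Polynomial.eval_mul, Polynomial.eval_C, Polynomial.eval_pow, Polynomial.eval_X, mul_comm]
      have h2 : P.coeff n = aeval x (homogeneousComponent n G) := by
        rw [hP, Polynomial.finsetSum_coeff]
        rw [Finset.sum_eq_single n]
        · simp
        · intro m _ hm
          rw [Polynomial.coeff_C_mul, Polynomial.coeff_X_pow, if_neg (Ne.symm hm), mul_zero]
        · intro h
          exact absurd (Finset.mem_range.2 (by omega)) h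
      rw [← h2, hP0, Polynomial.coeff_zero]
  · rw [ringKrullDim, Order.krullDim]
    refine iSup_le fun c => ?_
    -- the primes above `q`
    let Q : Fin (c.length + 1) → Ideal (MvPolynomial ι k) := fun i =>
      ((c i).asIdeal).comap (Ideal.Quotient.mk q)
    have hQp : ∀ i, (Q i).IsPrime := fun i => Ideal.IsPrime.comap _
    have hQq : ∀ i, q ≤ Q i := by
      intro i g hg
      change Ideal.Quotient.mk q g ∈ (c i).asIdeal
      rw [Ideal.Quotient.eq_zero_iff_mem.2 hg]
      exact (c i).asIdeal.zero_mem
    have hlt : ∀ i j, i < j → Q i < Q j := by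
      intro i j hij
      have h1 : (c i).asIdeal < (c j).asIdeal := c.strictMono hij
      refine lt_of_le_of_ne (Ideal.comap_mono h1.le) fun h => h1.ne ?_
      exact Ideal.comap_injective_of_surjective _ Ideal.Quotient.mk_surjective h
    have htd : ∀ i : ℕ, ∀ hi : i < c.length + 1, td (Q ⟨i, hi⟩) + i ≤ td q := by
      intro i
      induction i with
      | zero =>
        intro hi
        have h0 := hQp ⟨0, hi⟩
        simpa using td_mono (hQq ⟨0, hi⟩)
      | succ i ih =>
        intro hi
        have h1 := ih (by omega)
        have hi' : i < c.length + 1 := by omega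
        have h5 := hQp ⟨i, hi'⟩
        have h6 := hQp ⟨i + 1, hi⟩
        have h7 : Q ⟨i, hi'⟩ < Q ⟨i + 1, hi⟩ := hlt _ _ (Fin.mk_lt_mk.2 (Nat.lt_succ_self i))
        have h2 := td_lt h7
        omega
    have h3 := htd c.length (by omega)
    have h4 : c.length ≤ td q := by omega
    exact_mod_cast h4

end

end Pool.Agent.Lib.MP_1e3e9c_agS
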