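import Pool.Agent.Lib.MP_1e3e9c_agS.ExtA

/-!
# Normalised bases of two lines which meet
-/

set_option autoImplicit false

namespace Pool.Agent.Lib.MP_1e3e9c_agS

open MvPolynomial

noncomputable section

variable {k : Type} [Field k] [IsAlgClosed k] {ι : Type} [Fintype ι]
  {f : Ideal (MvPolynomial (ι ⊕ ι) k)}

theorem SigA_one {K : Type} [Field K] (u w p : ι → K) (h : LinearIndependent K ![u, w])
    (x y : K) (hp : p = x • u + y • w) (a : ι) (ha : p a = 1) :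
    ∃ (v : ι → K) (b : ι), v a = 0 ∧ v b = 1 ∧ (∃ x y : K, v = x • u + y • w) ∧
      ∃ c d e g : K, u = c • p + d • v ∧ w = e • p + g • v := by
  have hpa : x * u a + y * w a = 1 := by
    rw [← ha, hp]
    rfl
  have hne : w a • u - u a • w ≠ 0 := by
    intro h0
    have h1 := LinearIndependent.pair_iff.1 h (w a) (- u a) (by
      rw [neg_smul, ← sub_eq_add_neg]
      exact h0)
    rw [h1.1, neg_eq_zero.1 h1.2, mul_zero, mul_zero, add_zero] at hpa
    exact one_ne_zero hpa.symm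
  obtain ⟨b, hb⟩ := Function.ne_iff.1 hne
  have hb' : w a * u b - u a * w b ≠ 0 := hb
  refine ⟨(w a * u b - u a * w b)⁻¹ • (w a • u - u a • w), b, ?_, ?_,
    ⟨(w a * u b - u a * w b)⁻¹ * w a, - ((w a * u b - u a * w b)⁻¹ * u a), ?_⟩,
    u a, (w a * u b - u a * w b) * y, w a, - ((w a * u b - u a * w b) * x), ?_, ?_⟩
  · show (w a * u b - u a * w b)⁻¹ * (w a * u a - u a * w a) = 0
    rw [mul_comm (w a) (u a), sub_self, mul_zero]
  · exact inv_mul_cancel₀ hb'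
  · module
  · rw [smul_smul, mul_right_comm, mul_inv_cancel₀ hb', one_mul, hp]
    have e : u a • (x • u + y • w) + y • (w a • u - u a • w) = (x * u a + y * w a) • u := by
      module
    rw [e, hpa, one_smul]
  · rw [smul_smul, neg_mul, mul_right_comm, mul_inv_cancel₀ hb', one_mul, hp]
    have e : w a • (x • u + y • w) + (-x) • (w a • u - u a • w) = (x * u a + y * w a) • w := by
      module
    rw [e, hpa, one_smul]

theorem SigA_mem {K : Type} [Field K] [Algebra k K] {s : Set K} {u p v : ι → K} {c d : K}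
    (hu : u = c • p + d • v) (hp : Set.range p ⊆ IntermediateField.adjoin k s)
    (hv : Set.range v ⊆ IntermediateField.adjoin k s)
    (hc : c ∈ IntermediateField.adjoin k s) (hd : d ∈ IntermediateField.adjoin k s) :
    Set.range u ⊆ IntermediateField.adjoin k s := by
  rintro _ ⟨i, rfl⟩
  rw [hu]
  exact add_mem (mul_mem hc (hp ⟨i, rfl⟩)) (mul_mem hd (hv ⟨i, rfl⟩))

/-- E1. Normalised bases of two lines which meet.

Proof. Scale `p` such that `p a = 1`; `w₁` is an element of the first line with `w₁ a = 0`, `w₁ ≠ 0`, scaled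
such that `w₁ b₁ = 1`, the same for `w₂`. The vectors `u₁', w₁', u₂', w₂'` are combinations of `p, w₁` and of `p, w₂` with
eight coefficients (`T_union_le`, `T_le_encard`, `T_le_of_mem`). -/
theorem normal_pair {K : Type} [Field K] [Algebra k K] (u₁ w₁ u₂ w₂ : ι → K)
    (h₁ : LinearIndependent K ![u₁, w₁]) (h₂ : LinearIndependent K ![u₂, w₂])
    (hp : ∃ α β γ δ : K, α • u₁ + β • w₁ = γ • u₂ + δ • w₂ ∧ α • u₁ + β • w₁ ≠ 0) :
    ∃ (p v₁ v₂ : ι → K) (a b₁ b₂ : ι), p a = 1 ∧ v₁ a = 0 ∧ v₂ a = 0 ∧ v₁ b₁ = 1 ∧ v₂ b₂ = 1 ∧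
      (∃ x y : K, p = x • u₁ + y • w₁) ∧ (∃ x y : K, p = x • u₂ + y • w₂) ∧
      (∃ x y : K, v₁ = x • u₁ + y • w₁) ∧ (∃ x y : K, v₂ = x • u₂ + y • w₂) ∧
      T k (Set.range u₁ ∪ Set.range w₁ ∪ Set.range u₂ ∪ Set.range w₂) ≤
        T k (Set.range p ∪ Set.range v₁ ∪ Set.range v₂) + 8 := by
  obtain ⟨α, β, γ, δ, hq, hq0⟩ := hp
  obtain ⟨a, ha⟩ := Function.ne_iff.1 hq0
  have ha' : (α • u₁ + β • w₁) a ≠ 0 := ha
  have hpa : (((α • u₁ + β • w₁) a)⁻¹ • (α • u₁ + β • w₁)) a = 1 := inv_mul_cancel₀ ha'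
  have hp1 : ((α • u₁ + β • w₁) a)⁻¹ • (α • u₁ + β • w₁) =
      (((α • u₁ + β • w₁) a)⁻¹ * α) • u₁ + (((α • u₁ + β • w₁) a)⁻¹ * β) • w₁ := by
    rw [smul_add, smul_smul, smul_smul]
  have hp2 : ((α • u₁ + β • w₁) a)⁻¹ • (α • u₁ + β • w₁) =
      (((α • u₁ + β • w₁) a)⁻¹ * γ) • u₂ + (((α • u₁ + β • w₁) a)⁻¹ * δ) • w₂ := by
    conv_lhs => rw [hq]
    rw [smul_add, smul_smul, smul_smul, hq]
  generalize ((α • u₁ + β • w₁) a)⁻¹ • (α • u₁ + β • w₁) = p at hpa hp1 hp2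
  obtain ⟨v₁, b₁, h1, h2, h3, c1, c2, c3, c4, h4, h5⟩ := SigA_one u₁ w₁ p h₁ _ _ hp1 a hpa
  obtain ⟨v₂, b₂, h6, h7, h8, c5, c6, c7, c8, h9, h10⟩ := SigA_one u₂ w₂ p h₂ _ _ hp2 a hpa
  refine ⟨p, v₁, v₂, a, b₁, b₂, hpa, h1, h6, h2, h7, ⟨_, _, hp1⟩, ⟨_, _, hp2⟩, h3, h8, ?_⟩
  let c : Fin 8 → K := ![c1, c2, c3, c4, c5, c6, c7, c8]
  have hc8 : (Set.range c).encard ≤ 8 := by
    rw [← Set.image_univ]
    refine (Set.encard_image_le _ _).trans ?_
    rw [Set.encard_univ, ENat.card_eq_coe_fintype_card, Fintype.card_fin]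
    rfl
  have hsub : ∀ x ∈ Set.range p ∪ Set.range v₁ ∪ Set.range v₂ ∪ Set.range c,
      x ∈ IntermediateField.adjoin k (Set.range p ∪ Set.range v₁ ∪ Set.range v₂ ∪ Set.range c) :=
    fun x hx => IntermediateField.subset_adjoin k _ hx
  have mp : Set.range p ⊆ IntermediateField.adjoin k
      (Set.range p ∪ Set.range v₁ ∪ Set.range v₂ ∪ Set.range c) :=
    fun x hx => hsub x (Or.inl (Or.inl (Or.inl hx)))
  have mv1 : Set.range v₁ ⊆ IntermediateField.adjoin k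
      (Set.range p ∪ Set.range v₁ ∪ Set.range v₂ ∪ Set.range c) :=
    fun x hx => hsub x (Or.inl (Or.inl (Or.inr hx)))
  have mv2 : Set.range v₂ ⊆ IntermediateField.adjoin k
      (Set.range p ∪ Set.range v₁ ∪ Set.range v₂ ∪ Set.range c) :=
    fun x hx => hsub x (Or.inl (Or.inr hx))
  have mc : ∀ i, c i ∈ IntermediateField.adjoin k
      (Set.range p ∪ Set.range v₁ ∪ Set.range v₂ ∪ Set.range c) :=
    fun i => hsub _ (Or.inr ⟨i, rfl⟩)
  have hle : Set.range u₁ ∪ Set.range w₁ ∪ Set.range u₂ ∪ Set.range w₂ ⊆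
      IntermediateField.adjoin k
        (Set.range p ∪ Set.range v₁ ∪ Set.range v₂ ∪ Set.range c) := by
    refine Set.union_subset (Set.union_subset (Set.union_subset ?_ ?_) ?_) ?_
    · exact SigA_mem h4 mp mv1 (mc 0) (mc 1)
    · exact SigA_mem h5 mp mv1 (mc 2) (mc 3)
    · exact SigA_mem h9 mp mv2 (mc 4) (mc 5)
    · exact SigA_mem h10 mp mv2 (mc 6) (mc 7)
  refine (T_le_of_mem hle).trans ((T_union_le _ _).trans ?_)
  exact add_le_add le_rfl ((T_le_encard _).trans hc8)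

end

end Pool.Agent.Lib.MP_1e3e9c_agS
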