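import Pool.Agent.Lib.MP_1e3e9c_agS.ExtA

/-!
# The rank of a point on a line of the family
-/

set_option autoImplicit false

namespace Pool.Agent.Lib.MP_1e3e9c_agS

open MvPolynomial

noncomputable section

/-- Elements of `L` which are algebraically independent over `K` are so over the algebra generated by
a subset of the image of `K`. -/
theorem SigB_indep {k K L τ : Type} [Field k] [Field K] [Field L] [Algebra k K] [Algebra K L]
    [Algebra k L] [IsScalarTower k K L] {t : τ → L} (ht : AlgebraicIndependent K t) {s : Set L}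
    (hs : s ⊆ Set.range (algebraMap K L)) : AlgebraicIndependent (Algebra.adjoin k s) t := by
  have hφ : Function.Injective (IsScalarTower.toAlgHom k K L) := (algebraMap K L).injective
  have hle : Algebra.adjoin k s ≤ (IsScalarTower.toAlgHom k K L).range := by
    rw [Algebra.adjoin_le_iff]
    intro x hx
    obtain ⟨y, hy⟩ := hs hx
    exact ⟨y, hy⟩
  let ρ : Algebra.adjoin k s →ₐ[k] K :=
    ((AlgEquiv.ofInjective (IsScalarTower.toAlgHom k K L) hφ).symm.toAlgHom).comp
      (Subalgebra.inclusion hle)
  have hρ : ∀ x : Algebra.adjoin k s, algebraMap K L (ρ x) = (x : L) := by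
    intro x
    have h := (AlgEquiv.ofInjective (IsScalarTower.toAlgHom k K L) hφ).apply_symm_apply
      (Subalgebra.inclusion hle x)
    exact congrArg Subtype.val h
  have hρi : Function.Injective ρ := by
    intro x y hxy
    apply Subtype.ext
    rw [← hρ x, ← hρ y, hxy]
  have hcomp : (algebraMap K L).comp (ρ : Algebra.adjoin k s →+* K) =
      algebraMap (Algebra.adjoin k s) L := by
    ext x
    exact hρ x
  rw [algebraicIndependent_iff] at ht ⊢
  intro g hg
  have h1 : aeval t (map (ρ : Algebra.adjoin k s →+* K) g) = 0 := by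
    rw [aeval_def, eval₂_map, hcomp, ← aeval_def]
    exact hg
  have h2 := ht _ h1
  exact map_injective (ρ : Algebra.adjoin k s →+* K) hρi (by rw [h2, map_zero])

variable {k : Type} [Field k] [IsAlgClosed k] {ι : Type} [Fintype ι]
  {f : Ideal (MvPolynomial (ι ⊕ ι) k)}

/-- The triangular change of variables. -/
theorem SigB_change {K : Type} [Field K] (c : K) :
    Function.Injective (aeval (![X 0, X 1 + C c * X 0, X 2, X 3 + C c * X 2] :
      Fin 4 → MvPolynomial (Fin 4) K) : MvPolynomial (Fin 4) K →ₐ[K] MvPolynomial (Fin 4) K) := by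
  have h : (aeval (![X 0, X 1 - C c * X 0, X 2, X 3 - C c * X 2] :
      Fin 4 → MvPolynomial (Fin 4) K) : MvPolynomial (Fin 4) K →ₐ[K] MvPolynomial (Fin 4) K).comp
      (aeval (![X 0, X 1 + C c * X 0, X 2, X 3 + C c * X 2] :
        Fin 4 → MvPolynomial (Fin 4) K)) = AlgHom.id K _ := by
    apply algHom_ext
    intro i
    rw [AlgHom.comp_apply, aeval_X]
    fin_cases i
    · simp
    · simp
    · simp
    · simp
  intro x y hxy
  have h1 := congrArg (aeval (![X 0, X 1 - C c * X 0, X 2, X 3 - C c * X 2] :
      Fin 4 → MvPolynomial (Fin 4) K) : MvPolynomial (Fin 4) K →ₐ[K] MvPolynomial (Fin 4) K) hxy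
  rw [← AlgHom.comp_apply, ← AlgHom.comp_apply, h] at h1
  exact h1

/-- E2. The dimension of the family bounds the rank of a point on a line (normalised).

Proof. In `K (α, β, γ, δ)` (four new indeterminates) the pair `(α p + β v, γ p + δ v)` is a zero of `f` (`stable_ext`), so
its rank is at most `td f` (`T_specialize`). Its `a`-coordinates are `α, γ`; with `q = p - p b • v` (`q a = 1`, `q b = 0`)
the pair is `(α q + β' v, γ q + δ' v)`, `β' = β + α p b`, `δ' = δ + γ p b` are its `b`-coordinates, and `α, β', γ, δ'`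
are again independent over `k (q, v)`; `q` and `v` are rational functions of the pair and of `α, β', γ, δ'`. So
`T (q, v) + 4 ≤ td f`, and `T (p, v) ≤ T (q, v) + 1`. -/
theorem T_line (hf : IsFam f) {K : Type} [Field K] [Algebra k K] (p v : ι → K) (a b : ι)
    (hpa : p a = 1) (hva : v a = 0) (hvb : v b = 1) (h : Sum.elim p v ∈ zeroLocus K f) :
    T k (Set.range (p - p b • v) ∪ Set.range v) + 4 ≤ td f ∧
      T k (Set.range p ∪ Set.range v) + 3 ≤ td f := by
  classical
  let A := MvPolynomial (Fin 4) K
  let L := FractionRing A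
  let φ : K →ₐ[k] L := IsScalarTower.toAlgHom k K L
  have hφ : ∀ x, φ x = algebraMap K L x := fun _ => rfl
  let Y : Fin 4 → L := fun i => algebraMap A L (X i)
  let p' : ι → L := fun i => φ (p i)
  let v' : ι → L := fun i => φ (v i)
  let q : ι → K := p - p b • v
  let q' : ι → L := fun i => φ (q i)
  -- the new coordinates
  let t : Fin 4 → L := ![Y 0, Y 1 + φ (p b) * Y 0, Y 2, Y 3 + φ (p b) * Y 2]
  have ht : AlgebraicIndependent K t := by
    have h1 : (aeval t : MvPolynomial (Fin 4) K →ₐ[K] L) =
        (IsScalarTower.toAlgHom K A L).comp (aeval (![X 0, X 1 + C (p b) * X 0, X 2,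
          X 3 + C (p b) * X 2] : Fin 4 → MvPolynomial (Fin 4) K)) := by
      apply algHom_ext
      intro i
      rw [AlgHom.comp_apply, aeval_X, aeval_X]
      have hC : algebraMap A L (C (p b)) = φ (p b) :=
        (IsScalarTower.algebraMap_apply K A L (p b)).symm
      fin_cases i
      · rfl
      · change Y 1 + φ (p b) * Y 0 = algebraMap A L (X 1 + C (p b) * X 0)
        rw [map_add, map_mul, hC]
      · rfl
      · change Y 3 + φ (p b) * Y 2 = algebraMap A L (X 3 + C (p b) * X 2)
        rw [map_add, map_mul, hC]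
    unfold AlgebraicIndependent
    rw [h1, AlgHom.coe_comp]
    exact (IsFractionRing.injective A L).comp (SigB_change (p b))
  have ht0 : ∀ i, t i ≠ 0 := fun i => ht.ne_zero i
  have hdet : t 0 * t 3 - t 1 * t 2 ≠ 0 := by
    intro h0
    have h1 := (algebraicIndependent_iff.1 ht) (X 0 * X 3 - X 1 * X 2) (by
      rw [map_sub, map_mul, map_mul, aeval_X, aeval_X, aeval_X, aeval_X]
      exact h0)
    have h2 := congrArg (eval (![1, 0, 0, 1] : Fin 4 → K)) h1
    simp at h2
  -- the general pair
  have hp' : Sum.elim p' v' ∈ zeroLocus L f := by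
    intro g hg
    have h1 : Sum.elim p' v' = fun i => φ (Sum.elim p v i) := by
      funext i
      rcases i with i | i <;> rfl
    have h2 := h g hg
    rw [h1]
    have h3 : aeval (fun i => φ (Sum.elim p v i)) g = φ (aeval (Sum.elim p v) g) := by
      rw [← AlgHom.comp_apply, comp_aeval]
    rw [h3, h2, map_zero]
  let u : ι → L := Y 0 • p' + Y 1 • v'
  let w : ι → L := Y 2 • p' + Y 3 • v'
  have huw : Sum.elim u w ∈ zeroLocus L f := hf.stable_ext (Y 0) (Y 1) (Y 2) (Y 3) p' v' hp'
  have hu : ∀ i, u i = t 0 * q' i + t 1 * v' i := by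
    intro i
    change Y 0 * φ (p i) + Y 1 * φ (v i) = Y 0 * φ (p i - p b * v i) +
      (Y 1 + φ (p b) * Y 0) * φ (v i)
    rw [map_sub, map_mul]
    ring
  have hw : ∀ i, w i = t 2 * q' i + t 3 * v' i := by
    intro i
    change Y 2 * φ (p i) + Y 3 * φ (v i) = Y 2 * φ (p i - p b * v i) +
      (Y 3 + φ (p b) * Y 2) * φ (v i)
    rw [map_sub, map_mul]
    ring
  have hqa : q' a = 1 := by
    change φ (p a - p b * v a) = 1
    rw [hpa, hva, mul_zero, sub_zero, map_one]
  have hqb : q' b = 0 := by
    change φ (p b - p b * v b) = 0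
    rw [hvb, mul_one, sub_self, map_zero]
  have hva' : v' a = 0 := by
    change φ (v a) = 0
    rw [hva, map_zero]
  have hvb' : v' b = 1 := by
    change φ (v b) = 1
    rw [hvb, map_one]
  have e0 : u a = t 0 := by rw [hu, hqa, hva', mul_one, mul_zero, add_zero]
  have e1 : u b = t 1 := by rw [hu, hqb, hvb', mul_one, mul_zero, zero_add]
  have e2 : w a = t 2 := by rw [hw, hqa, hva', mul_one, mul_zero, add_zero]
  have e3 : w b = t 3 := by rw [hw, hqb, hvb', mul_one, mul_zero, zero_add]
  -- the rank of the pair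
  have hrk : T k (Set.range u ∪ Set.range w) ≤ td f := by
    have hle : f ≤ kr k (Sum.elim u w) := by
      intro g hg
      rw [mem_kr]
      exact huw g hg
    have hpr := kr_prime (k := k) (Sum.elim u w)
    have h1 := td_mono hle
    have h2 := T_range (k := k) (Sum.elim u w)
    rw [Set.Sum.elim_range] at h2
    rw [h2]
    exact_mod_cast h1
  -- the pair generates everything
  have hmem : (Set.range q' ∪ Set.range v') ∪ Set.range t ⊆
      (IntermediateField.adjoin k (Set.range u ∪ Set.range w) : Set L) := by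
    have hsub := IntermediateField.subset_adjoin k (Set.range u ∪ Set.range w)
    have hum : ∀ i, u i ∈ IntermediateField.adjoin k (Set.range u ∪ Set.range w) := fun i =>
      hsub (Or.inl ⟨i, rfl⟩)
    have hwm : ∀ i, w i ∈ IntermediateField.adjoin k (Set.range u ∪ Set.range w) := fun i =>
      hsub (Or.inr ⟨i, rfl⟩)
    have htm : ∀ j, t j ∈ IntermediateField.adjoin k (Set.range u ∪ Set.range w) := by
      intro j
      fin_cases j
      · exact e0 ▸ hum a
      · exact e1 ▸ hum b
      · exact e2 ▸ hwm a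
      · exact e3 ▸ hwm b
    have hqm : ∀ i, q' i ∈ IntermediateField.adjoin k (Set.range u ∪ Set.range w) := by
      intro i
      have h1 : q' i = (t 3 * u i - t 1 * w i) / (t 0 * t 3 - t 1 * t 2) := by
        rw [eq_div_iff hdet, hu, hw]
        ring
      rw [h1]
      exact div_mem (sub_mem (mul_mem (htm 3) (hum i)) (mul_mem (htm 1) (hwm i)))
        (sub_mem (mul_mem (htm 0) (htm 3)) (mul_mem (htm 1) (htm 2)))
    have hvm : ∀ i, v' i ∈ IntermediateField.adjoin k (Set.range u ∪ Set.range w) := by
      intro i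
      have h1 : v' i = (t 0 * w i - t 2 * u i) / (t 0 * t 3 - t 1 * t 2) := by
        rw [eq_div_iff hdet, hu, hw]
        ring
      rw [h1]
      exact div_mem (sub_mem (mul_mem (htm 0) (hwm i)) (mul_mem (htm 2) (hum i)))
        (sub_mem (mul_mem (htm 0) (htm 3)) (mul_mem (htm 1) (htm 2)))
    rintro x ((⟨i, rfl⟩ | ⟨i, rfl⟩) | ⟨i, rfl⟩)
    · exact hqm i
    · exact hvm i
    · exact htm i
  have hbig := (T_le_of_mem hmem).trans hrk
  have hind : AlgebraicIndependent (Algebra.adjoin k (Set.range q' ∪ Set.range v')) t := by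
    refine SigB_indep (K := K) ht ?_
    rintro x (⟨i, rfl⟩ | ⟨i, rfl⟩)
    · exact ⟨q i, rfl⟩
    · exact ⟨v i, rfl⟩
  have hsum := T_union_indep t hind
  have himg : T k (Set.range q' ∪ Set.range v') = T k (Set.range q ∪ Set.range v) := by
    rw [← T_image φ (Set.range q ∪ Set.range v), Set.image_union, ← Set.range_comp,
      ← Set.range_comp]
    rfl
  have hfirst : T k (Set.range (p - p b • v) ∪ Set.range v) + 4 ≤ td f := by
    rw [hsum, himg, Nat.card_fin] at hbig
    exact_mod_cast hbig
  refine ⟨hfirst, ?_⟩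
  have h1 : T k (Set.range p ∪ Set.range v) ≤
      T k (Set.range (p - p b • v) ∪ Set.range v) + 1 := by
    have h2 : Set.range p ∪ Set.range v ⊆ (IntermediateField.adjoin k
        ((Set.range (p - p b • v) ∪ Set.range v) ∪ {p b}) : Set K) := by
      have hsub := IntermediateField.subset_adjoin k
        ((Set.range (p - p b • v) ∪ Set.range v) ∪ {p b})
      rintro x (⟨i, rfl⟩ | ⟨i, rfl⟩)
      · have h3 : p i = (p - p b • v) i + p b * v i := by
          rw [Pi.sub_apply, Pi.smul_apply, smul_eq_mul, sub_add_cancel]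
        rw [h3]
        exact add_mem (hsub (Or.inl (Or.inl ⟨i, rfl⟩)))
          (mul_mem (hsub (Or.inr rfl)) (hsub (Or.inl (Or.inr ⟨i, rfl⟩))))
      · exact hsub (Or.inl (Or.inr ⟨i, rfl⟩))
    refine (T_le_of_mem h2).trans ((T_union_le _ _).trans ?_)
    have h3 : T k ({p b} : Set K) ≤ 1 := (T_le_encard _).trans (by rw [Set.encard_singleton])
    exact add_le_add_right h3 _
  calc T k (Set.range p ∪ Set.range v) + 3 ≤
        T k (Set.range (p - p b • v) ∪ Set.range v) + 1 + 3 := add_le_add_left h1 _
    _ = T k (Set.range (p - p b • v) ∪ Set.range v) + 4 := by rw [add_assoc]; rfl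
    _ ≤ td f := hfirst

end

end Pool.Agent.Lib.MP_1e3e9c_agS
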