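import Pool.Agent.Lib.MP_1e3e9c_agS.SigB

/-!
# A second generic point of a line
-/

set_option autoImplicit false

namespace Pool.Agent.Lib.MP_1e3e9c_agS

open MvPolynomial

noncomputable section

theorem sigC_indep {k K K' : Type} [Field k] [Field K] [Algebra k K] [Field K'] [Algebra k K']
    [Algebra K K'] [IsScalarTower k K K'] {τ : Type} {t : τ → K'} (ht : AlgebraicIndependent K t)
    (s : Set K) : AlgebraicIndependent (Algebra.adjoin k (algebraMap K K' '' s)) t := by
  have hle : Algebra.adjoin k (algebraMap K K' '' s) ≤ (IsScalarTower.toAlgHom k K K').range :=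
    Algebra.adjoin_le (by rintro _ ⟨x, _, rfl⟩; exact ⟨x, rfl⟩)
  let e := AlgEquiv.ofInjective (IsScalarTower.toAlgHom k K K') (algebraMap K K').injective
  let ψ : Algebra.adjoin k (algebraMap K K' '' s) →+* K :=
    ((e.symm : _ →ₐ[k] K).comp (Subalgebra.inclusion hle)).toRingHom
  have hψ : ∀ x, algebraMap K K' (ψ x) = x := by
    intro x
    have := e.apply_symm_apply (Subalgebra.inclusion hle x)
    exact congrArg Subtype.val this
  let : Algebra (Algebra.adjoin k (algebraMap K K' '' s)) K := ψ.toAlgebra
  have : IsScalarTower (Algebra.adjoin k (algebraMap K K' '' s)) K K' :=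
    .of_algebraMap_eq (fun x => (hψ x).symm)
  refine ht.restrictScalars ?_
  intro x y hxy
  have h1 := congrArg (algebraMap K K') (show ψ x = ψ y from hxy)
  rw [hψ, hψ] at h1
  exact Subtype.ext h1

theorem sigC_smul {k K : Type} [Field k] [Field K] [Algebra k K] {ι : Type} (c : K) (x : ι → K)
    (n : ℕ) (G : MvPolynomial ι k) (hG : G.IsHomogeneous n) :
    aeval (c • x) G = c ^ n * aeval x G := by
  rw [aeval_def, aeval_def, eval₂_eq, eval₂_eq, Finset.mul_sum]
  refine Finset.sum_congr rfl fun d hd => ?_
  have h1 : d.degree = n := by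
    have := hG (mem_support_iff.1 hd)
    rw [Finsupp.degree_eq_weight_one]
    exact this
  have h2 : ∏ i ∈ d.support, (c • x) i ^ d i = c ^ n * ∏ i ∈ d.support, x i ^ d i := by
    simp only [Pi.smul_apply, smul_eq_mul, mul_pow]
    rw [Finset.prod_mul_distrib, Finset.prod_pow_eq_pow_sum, ← h1]
    rfl
  rw [h2]; ring

theorem sigC_smul_zero {k K : Type} [Field k] [Field K] [Algebra k K] {ι : Type} (c : K)
    (x : ι → K) (G : MvPolynomial ι k) (h : ∀ n, aeval x (homogeneousComponent n G) = 0) :
    aeval (c • x) G = 0 := by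
  rw [← sum_homogeneousComponent G, map_sum]
  refine Finset.sum_eq_zero fun n _ => ?_
  rw [sigC_smul c x n _ (homogeneousComponent_isHomogeneous n G), h n, mul_zero]

theorem sigC_comp {k K K' : Type} [Field k] [Field K] [Algebra k K] [Field K'] [Algebra k K']
    [Algebra K K'] [IsScalarTower k K K'] {ι : Type} (c : K') (hc : Transcendental K c)
    (x : ι → K) (G : MvPolynomial ι k) (h : aeval (c • fun i => algebraMap K K' (x i)) G = 0)
    (n : ℕ) : aeval x (homogeneousComponent n G) = 0 := by
  classical
  let P : Polynomial K := ∑ n ∈ Finset.range (G.totalDegree + 1),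
    Polynomial.C (aeval x (homogeneousComponent n G)) * Polynomial.X ^ n
  have hP : Polynomial.aeval c P = 0 := by
    rw [← h]
    conv_rhs => rw [← sum_homogeneousComponent G, map_sum]
    rw [map_sum]
    refine Finset.sum_congr rfl fun n _ => ?_
    rw [sigC_smul c _ n _ (homogeneousComponent_isHomogeneous n G), map_mul,
      Polynomial.aeval_C, map_pow, Polynomial.aeval_X, mul_comm]
    congr 1
    exact (aeval_algebraMap_apply K' x _).symm
  have hP0 : P = 0 := by
    by_contra hne
    exact hc ⟨P, hne, hP⟩
  by_cases hn : n ≤ G.totalDegree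
  · have h1 : P.coeff n = 0 := by rw [hP0]; simp
    rw [Polynomial.finsetSum_coeff] at h1
    simp only [Polynomial.coeff_C_mul, Polynomial.coeff_X_pow, mul_ite, mul_one, mul_zero] at h1
    rw [Finset.sum_ite_eq, if_pos (Finset.mem_range.2 (by omega))] at h1
    exact h1
  · rw [homogeneousComponent_eq_zero n G (by omega), map_zero]

theorem sigC_line {k K K' : Type} [Field k] [Field K] [Algebra k K] [Field K'] [Algebra k K']
    [Algebra K K'] [IsScalarTower k K K'] {ι : Type} (q v : ι → K) (c : K)
    (hc : Transcendental (Algebra.adjoin k (Set.range q ∪ Set.range v)) c) (τ : K')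
    (G : MvPolynomial ι k) (h : aeval (q + c • v) G = 0) :
    aeval (fun i => algebraMap K K' (q i) + τ * algebraMap K K' (v i)) G = 0 := by
  let F := Algebra.adjoin k (Set.range q ∪ Set.range v)
  let q' : ι → F := fun i => ⟨q i, Algebra.subset_adjoin (Or.inl ⟨i, rfl⟩)⟩
  let v' : ι → F := fun i => ⟨v i, Algebra.subset_adjoin (Or.inr ⟨i, rfl⟩)⟩
  let P : Polynomial F := aeval (fun i => Polynomial.C (q' i) + Polynomial.X * Polynomial.C (v' i)) G
  have h1 : Polynomial.aeval c P = aeval (q + c • v) G := by
    change ((Polynomial.aeval c : Polynomial F →ₐ[F] K).restrictScalars k) (aeval _ G) = _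
    rw [← AlgHom.comp_apply, comp_aeval]
    congr 2
    funext i
    simp [q', v', F]
    exact mul_comm _ _
  have hP : P = 0 := by
    by_contra hne
    exact hc ⟨P, hne, by rw [h1, h]⟩
  have : IsScalarTower k F K' := by
    refine IsScalarTower.of_algebraMap_eq (R := k) (S := F) (A := K') (fun x => ?_)
    change algebraMap k K' x = algebraMap K K' (algebraMap k K x)
    exact IsScalarTower.algebraMap_apply k K K' x
  have h2 : Polynomial.aeval τ P =
      aeval (fun i => algebraMap K K' (q i) + τ * algebraMap K K' (v i)) G := by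
    change ((Polynomial.aeval τ : Polynomial F →ₐ[F] K').restrictScalars k) (aeval _ G) = _
    rw [← AlgHom.comp_apply, comp_aeval]
    congr 2
    funext i
    simp
    rw [mul_comm τ]
    rfl
  rw [← h2, hP, map_zero]

variable {k : Type} [Field k] [IsAlgClosed k] {ι : Type} [Fintype ι]
  {f : Ideal (MvPolynomial (ι ⊕ ι) k)}

theorem sigC_transc (hf : IsFam f) {K : Type} [Field K] [Algebra k K] (p v : ι → K) (a b : ι)
    (hpa : p a = 1) (hva : v a = 0) (hvb : v b = 1) (h : Sum.elim p v ∈ zeroLocus K f)
    (hT : (td f : ℕ∞) ≤ T k (Set.range p ∪ Set.range v) + 3) :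
    Transcendental (Algebra.adjoin k (Set.range (p - p b • v) ∪ Set.range v)) (p b) := by
  intro halg
  have h1 := (T_line hf p v a b hpa hva hvb h).1
  have h2 : T k (Set.range (p - p b • v) ∪ Set.range v ∪ {p b}) =
      T k (Set.range (p - p b • v) ∪ Set.range v) :=
    T_union_of_algebraic (by rintro x rfl; exact halg)
  have h3 : T k (Set.range p ∪ Set.range v) ≤
      T k (Set.range (p - p b • v) ∪ Set.range v ∪ {p b}) := by
    refine T_le_of_mem ?_
    rintro _ (⟨i, rfl⟩ | ⟨i, rfl⟩)
    · have e : p i = (p - p b • v) i + p b * v i := by simp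
      rw [e]
      refine add_mem (IntermediateField.subset_adjoin k _ (Or.inl (Or.inl ⟨i, rfl⟩))) ?_
      exact mul_mem (IntermediateField.subset_adjoin k _ (Or.inr rfl))
        (IntermediateField.subset_adjoin k _ (Or.inl (Or.inr ⟨i, rfl⟩)))
    · exact IntermediateField.subset_adjoin k _ (Or.inl (Or.inr ⟨i, rfl⟩))
  rw [h2] at h3
  have h4 : T k (Set.range (p - p b • v) ∪ Set.range v) + 4 ≤
      T k (Set.range (p - p b • v) ∪ Set.range v) + 3 :=
    h1.trans (hT.trans (by gcongr))
  have h5 : T k (Set.range (p - p b • v) ∪ Set.range v) ≠ ⊤ := by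
    intro htop
    rw [htop] at h1
    simp at h1
  generalize T k (Set.range (p - p b • v) ∪ Set.range v) = N at h4 h5
  lift N to ℕ using h5
  norm_cast at h4
  omega

/-- E3. A second generic point of a line of maximal rank.

Proof. `K' = K (τ, lam, mu)` (new indeterminates), `q = p - p b • v`, `r = q + τ v`. `T (q, v) + 4 ≤ td f` and `T (p, v) + 3 = td f` show that
`p b` is transcendental over `k (q, v)`. So `G (p) = 0` implies `G (q + X v) = 0` in `K[X]` and `G (r) = 0`:
`kr p ≤ kr r`; the same with `lam p`, `mu r`. `v = (p - r) / (p b - τ)`, so the rank of `(p, r)` is the rank of `(q, v, p b, τ)`, which is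
`(td f - 3) + 1`; and `lam`, `mu` are new. -/
theorem second_point (hf : IsFam f) {K : Type} [Field K] [Algebra k K] (p v : ι → K) (a b : ι)
    (hpa : p a = 1) (hva : v a = 0) (hvb : v b = 1) (h : Sum.elim p v ∈ zeroLocus K f)
    (hT : (td f : ℕ∞) ≤ T k (Set.range p ∪ Set.range v) + 3) :
    ∃ (K' : Type) (_ : Field K') (_ : Algebra k K') (p' r' : ι → K'),
      T k (Set.range p') = T k (Set.range p) + 1 ∧ kr k p' ≤ kr k r' ∧
      (∀ (t : k) (G : MvPolynomial ι k), aeval p' G = 0 → aeval (t • p') G = 0) ∧
      (td f : ℕ∞) ≤ T k (Set.range p' ∪ Set.range r') ∧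
      Sum.elim p' r' ∈ zeroLocus K' f := by
  classical
  let K' : Type := FractionRing (MvPolynomial (Fin 3) K)
  let : Field K' := inferInstanceAs (Field (FractionRing (MvPolynomial (Fin 3) K)))
  let : Algebra k K' := inferInstanceAs (Algebra k (FractionRing (MvPolynomial (Fin 3) K)))
  let : Algebra K K' := inferInstanceAs (Algebra K (FractionRing (MvPolynomial (Fin 3) K)))
  have : IsScalarTower k K K' :=
    inferInstanceAs (IsScalarTower k K (FractionRing (MvPolynomial (Fin 3) K)))
  let t : Fin 3 → K' := fun i => algebraMap (MvPolynomial (Fin 3) K) (FractionRing _) (X i)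
  have ht : AlgebraicIndependent K t := by
    have h1 := MvPolynomial.algebraicIndependent_X (Fin 3) K
    exact h1.map' (f := IsScalarTower.toAlgHom K (MvPolynomial (Fin 3) K)
      (FractionRing (MvPolynomial (Fin 3) K))) (IsFractionRing.injective _ _)
  have ht' : ∀ i, Transcendental K (t i) := fun i => ht.transcendental i
  let φ : K → K' := algebraMap K K'
  let p' : ι → K' := t 0 • fun i => φ (p i)
  let r : ι → K' := fun i => φ ((p - p b • v) i) + t 2 * φ (v i)
  let r' : ι → K' := t 1 • r
  have ht0 : ∀ i, t i ≠ 0 := fun i h0 => ht' i (by rw [h0]; exact isAlgebraic_zero)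
  have hp'a : p' a = t 0 := by simp [p', φ, hpa]
  have hr'a : r' a = t 1 := by simp [r', r, φ, hpa, hva]
  refine ⟨K', inferInstance, inferInstance, p', r', ?_, ?_, ?_, ?_, ?_⟩
  · -- the rank of `p'`
    have e1 : T k (Set.range p') = T k (φ '' Set.range p ∪ Set.range (fun _ : Unit => t 0)) := by
      apply le_antisymm
      · refine T_le_of_mem ?_
        rintro _ ⟨i, rfl⟩
        exact mul_mem (IntermediateField.subset_adjoin k _ (Or.inr ⟨(), rfl⟩))
          (IntermediateField.subset_adjoin k _ (Or.inl ⟨p i, ⟨i, rfl⟩, rfl⟩))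
      · refine T_le_of_mem ?_
        have hta : t 0 ∈ IntermediateField.adjoin k (Set.range p') := by
          rw [← hp'a]
          exact IntermediateField.subset_adjoin k _ ⟨a, rfl⟩
        rintro _ (⟨_, ⟨i, rfl⟩, rfl⟩ | ⟨_, rfl⟩)
        · have e : φ (p i) = (t 0)⁻¹ * p' i := by
            change φ (p i) = (t 0)⁻¹ * (t 0 * φ (p i))
            rw [inv_mul_cancel_left₀ (ht0 0)]
          rw [e]
          exact mul_mem (inv_mem hta) (IntermediateField.subset_adjoin k _ ⟨i, rfl⟩)
        · exact hta
    rw [e1, T_union_indep]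
    · rw [show φ '' Set.range p = (IsScalarTower.toAlgHom k K K') '' Set.range p from rfl, T_image]
      simp
    · exact sigC_indep (ht.comp (fun _ : Unit => (0 : Fin 3)) (fun _ _ _ => rfl)) _
  · -- specialisation
    intro G hG
    rw [mem_kr] at hG ⊢
    have h1 := sigC_comp (t 0) (ht' 0) p G hG
    refine sigC_smul_zero _ _ _ fun n => ?_
    have h2 : aeval ((p - p b • v) + p b • v) (homogeneousComponent n G) = 0 := by
      rw [sub_add_cancel]; exact h1 n
    exact sigC_line _ _ _ (sigC_transc hf p v a b hpa hva hvb h hT) (t 2) _ h2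
  · -- multiples
    intro s G hG
    have h1 := sigC_comp (t 0) (ht' 0) p G hG
    have e : s • p' = (algebraMap k K' s * t 0) • fun i => φ (p i) := by
      rw [Algebra.smul_def, mul_smul]
      rfl
    rw [e]
    refine sigC_smul_zero _ _ _ fun n => ?_
    rw [show (fun i => φ (p i)) = (algebraMap K K') ∘ p from rfl,
      aeval_algebraMap_apply, h1 n, map_zero]
  · -- the rank of the pair
    have e1 : T k (φ '' (Set.range p ∪ Set.range v) ∪ Set.range t) ≤
        T k (Set.range p' ∪ Set.range r') := by
      refine T_le_of_mem ?_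
      set A := IntermediateField.adjoin k (Set.range p' ∪ Set.range r') with hA
      have m0 : t 0 ∈ A := by
        rw [← hp'a]; exact IntermediateField.subset_adjoin k _ (Or.inl ⟨a, rfl⟩)
      have m1 : t 1 ∈ A := by
        rw [← hr'a]; exact IntermediateField.subset_adjoin k _ (Or.inr ⟨a, rfl⟩)
      have mp : ∀ i, φ (p i) ∈ A := by
        intro i
        have e : φ (p i) = (t 0)⁻¹ * p' i := by
          change φ (p i) = (t 0)⁻¹ * (t 0 * φ (p i))
          rw [inv_mul_cancel_left₀ (ht0 0)]
        rw [e]
        exact mul_mem (inv_mem m0) (IntermediateField.subset_adjoin k _ (Or.inl ⟨i, rfl⟩))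
      have mr : ∀ i, r i ∈ A := by
        intro i
        have e : r i = (t 1)⁻¹ * r' i := by
          change r i = (t 1)⁻¹ * (t 1 * r i)
          rw [inv_mul_cancel_left₀ (ht0 1)]
        rw [e]
        exact mul_mem (inv_mem m1) (IntermediateField.subset_adjoin k _ (Or.inr ⟨i, rfl⟩))
      have hrb : r b = t 2 := by simp [r, φ, hvb]
      have m2 : t 2 ∈ A := by rw [← hrb]; exact mr b
      have hne : t 2 - φ (p b) ≠ 0 := by
        intro h0
        apply ht' 2
        rw [sub_eq_zero.1 h0]
        exact isAlgebraic_algebraMap _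
      have mv : ∀ i, φ (v i) ∈ A := by
        intro i
        have e : φ (v i) = (r i - φ (p i)) / (t 2 - φ (p b)) := by
          rw [eq_div_iff hne]
          simp only [r, φ, Pi.sub_apply, Pi.smul_apply, smul_eq_mul, map_sub, map_mul]
          ring
        rw [e]
        exact div_mem (sub_mem (mr i) (mp i)) (sub_mem m2 (mp b))
      rintro _ (⟨_, (⟨i, rfl⟩ | ⟨i, rfl⟩), rfl⟩ | ⟨i, rfl⟩)
      · exact mp i
      · exact mv i
      · fin_cases i
        · exact m0
        · exact m1
        · exact m2
    refine le_trans ?_ e1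
    rw [T_union_indep t (sigC_indep ht _),
      show φ '' (Set.range p ∪ Set.range v) =
        (IsScalarTower.toAlgHom k K K') '' (Set.range p ∪ Set.range v) from rfl, T_image]
    refine hT.trans ?_
    simp
  · -- the zero set
    have h1 : Sum.elim (fun i => φ (p i)) (fun i => φ (v i)) ∈ zeroLocus K' f := by
      intro g hg
      have h2 := h g hg
      have e : (Sum.elim (fun i => φ (p i)) (fun i => φ (v i)) : ι ⊕ ι → K') =
          (algebraMap K K') ∘ (Sum.elim p v) := by
        funext i
        rcases i with i | i <;> rfl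
      rw [e, aeval_algebraMap_apply, h2, map_zero]
    have h2 := hf.stable_ext (t 0) 0 (t 1) (t 1 * (t 2 - φ (p b))) _ _ h1
    have e1 : p' = t 0 • (fun i => φ (p i)) + (0 : K') • (fun i => φ (v i)) := by
      rw [zero_smul, add_zero]
    have e2 : r' = t 1 • (fun i => φ (p i)) + (t 1 * (t 2 - φ (p b))) • (fun i => φ (v i)) := by
      funext i
      simp only [r', r, φ, Pi.add_apply, Pi.sub_apply, Pi.smul_apply, smul_eq_mul, map_sub, map_mul]
      ring
    rw [e1, e2]
    exact h2

end

end Pool.Agent.Lib.MP_1e3e9c_agS
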