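import Pool.Agent.Lib.MP_1e3e9c_agS.ExtA

/-!
# A generic multiple of a point; two independent points
-/

set_option autoImplicit false

namespace Pool.Agent.Lib.MP_1e3e9c_agS

open MvPolynomial

noncomputable section

variable {k : Type} [Field k] [IsAlgClosed k] {ι : Type} [Fintype ι]
  {f : Ideal (MvPolynomial (ι ⊕ ι) k)}

/-- The polynomial `G (Y p)`. -/
private def sigD_P {K : Type} [Field K] [Algebra k K] (p : ι → K) (G : MvPolynomial ι k) :
    Polynomial K :=
  aeval (fun i => Polynomial.C (p i) * Polynomial.X) G

omit [IsAlgClosed k] [Fintype ι] in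
private theorem sigD_eval {K : Type} [Field K] [Algebra k K] (p : ι → K) (G : MvPolynomial ι k)
    {K' : Type} [Field K'] [Algebra k K'] [Algebra K K'] [IsScalarTower k K K'] (s : K') :
    Polynomial.aeval s (sigD_P p G) = aeval (s • fun i => algebraMap K K' (p i)) G := by
  have h : ((Polynomial.aeval s : Polynomial K →ₐ[K] K').restrictScalars k).comp
      (aeval (fun i => Polynomial.C (p i) * Polynomial.X) : MvPolynomial ι k →ₐ[k] Polynomial K) =
      aeval (s • fun i => algebraMap K K' (p i)) := by
    apply MvPolynomial.algHom_ext
    intro i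
    rw [AlgHom.comp_apply, aeval_X, aeval_X, AlgHom.restrictScalars_apply, map_mul,
      Polynomial.aeval_C, Polynomial.aeval_X, mul_comm]
    rfl
  have h2 := congrArg (fun g : MvPolynomial ι k →ₐ[k] K' => g G) h
  simpa [sigD_P] using h2

omit [IsAlgClosed k] in
private theorem sigD_transc {K K' : Type} [Field K] [Field K'] [Algebra k K] [Algebra k K']
    [Algebra K K'] [IsScalarTower k K K'] (t : K') (ht : Transcendental K t) (S : Subalgebra k K')
    (hS : S ≤ (IsScalarTower.toAlgHom k K K').range) : Transcendental S t := by
  intro halg
  obtain ⟨q, hq0, hq⟩ := halg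
  have h1 : q.map (algebraMap S K') ∈ Polynomial.lifts (algebraMap K K') := by
    rw [Polynomial.lifts_iff_coeff_lifts]
    intro n
    rw [Polynomial.coeff_map]
    exact hS (q.coeff n).2
  rw [Polynomial.mem_lifts] at h1
  obtain ⟨q', hq'⟩ := h1
  have h2 : Polynomial.aeval t q' = 0 := by
    rw [Polynomial.aeval_def, ← Polynomial.eval_map, hq', Polynomial.eval_map,
      ← Polynomial.aeval_def]
    exact hq
  have h3 : q' = 0 := by
    by_contra hne
    exact ht ⟨q', hne, h2⟩
  rw [h3, Polynomial.map_zero] at hq'
  apply hq0
  apply Polynomial.map_injective (algebraMap S K') Subtype.coe_injective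
  rw [← hq', Polynomial.map_zero]

/-- E4. A generic multiple of a point.

Proof. `K' = K (t)`, `p' = t p`; as `p a = 1` the rank of `p'` is the rank of `(p, t)`. -/
theorem generic_multiple {K : Type} [Field K] [Algebra k K] (p : ι → K) (a : ι) (hpa : p a = 1) :
    ∃ (K' : Type) (_ : Field K') (_ : Algebra k K') (φ : K →ₐ[k] K') (t : K'), t ≠ 0 ∧
      T k (Set.range (t • fun i => φ (p i))) = T k (Set.range p) + 1 ∧
      (∀ (s : k) (x : ι → k), x ∈ zeroLocus k (kr k (t • fun i => φ (p i))) →
        s • x ∈ zeroLocus k (kr k (t • fun i => φ (p i)))) ∧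
      ∀ G ∈ kr k (t • fun i => φ (p i)), ∀ s : K, aeval (s • p) G = 0 := by
  classical
  let K' : Type := FractionRing (Polynomial K)
  let φ : K →ₐ[k] K' := IsScalarTower.toAlgHom k K K'
  let t : K' := algebraMap (Polynomial K) K' Polynomial.X
  have hinj : Function.Injective (algebraMap (Polynomial K) K') :=
    IsFractionRing.injective (Polynomial K) K'
  have ht0 : t ≠ 0 := by
    intro h
    exact Polynomial.X_ne_zero (hinj (by rw [map_zero]; exact h))
  have htr : Transcendental K t := by
    have h1 : Transcendental K (Polynomial.X : Polynomial K) := Polynomial.transcendental_X K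
    intro h2
    apply h1
    exact (isAlgebraic_algebraMap_iff hinj).1 h2
  have hzero : ∀ G : MvPolynomial ι k, aeval (t • fun i => φ (p i)) G = 0 → sigD_P p G = 0 := by
    intro G hG
    have h1 : Polynomial.aeval t (sigD_P p G) = 0 := by
      rw [sigD_eval]
      exact hG
    by_contra hne
    exact htr ⟨_, hne, h1⟩
  refine ⟨K', inferInstance, inferInstance, φ, t, ht0, ?_, ?_, ?_⟩
  · set S : Set K' := Set.range (t • fun i => φ (p i)) with hSdef
    set S' : Set K' := φ '' Set.range p ∪ Set.range (fun _ : Unit => t) with hS'def
    have htS : t ∈ S := ⟨a, by simp [hpa]⟩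
    have h1 : S' ⊆ IntermediateField.adjoin k S := by
      rintro x (⟨y, ⟨i, rfl⟩, rfl⟩ | ⟨_, rfl⟩)
      · have h2 : t * φ (p i) ∈ IntermediateField.adjoin k S :=
          IntermediateField.subset_adjoin k S ⟨i, rfl⟩
        have h3 : t ∈ IntermediateField.adjoin k S := IntermediateField.subset_adjoin k S htS
        have h4 : φ (p i) = (t * φ (p i)) / t := (mul_div_cancel_left₀ _ ht0).symm
        rw [SetLike.mem_coe, h4]
        exact div_mem h2 h3
      · exact IntermediateField.subset_adjoin k S htS
    have h2 : S ⊆ IntermediateField.adjoin k S' := by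
      rintro x ⟨i, rfl⟩
      have h3 : t ∈ IntermediateField.adjoin k S' :=
        IntermediateField.subset_adjoin k S' (Or.inr ⟨(), rfl⟩)
      have h4 : φ (p i) ∈ IntermediateField.adjoin k S' :=
        IntermediateField.subset_adjoin k S' (Or.inl ⟨p i, ⟨i, rfl⟩, rfl⟩)
      exact mul_mem h3 h4
    have h5 : T k S = T k S' := by
      rw [← T_union_of_mem h1, Set.union_comm, T_union_of_mem h2]
    rw [h5, hS'def]
    have h6 : AlgebraicIndependent (Algebra.adjoin k (φ '' Set.range p)) (fun _ : Unit => t) := by
      rw [algebraicIndependent_unique_type_iff]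
      apply sigD_transc t htr
      rw [Algebra.adjoin_le_iff]
      rintro x ⟨y, _, rfl⟩
      exact ⟨y, rfl⟩
    rw [T_union_indep _ h6, T_image]
    simp
  · intro s x hx
    rw [mem_zeroLocus_iff] at hx ⊢
    intro G hG
    have hG0 : aeval (t • fun i => φ (p i)) G = 0 := (mem_kr _ _).1 hG
    have hP := hzero G hG0
    -- the polynomial G (s X)
    let Gs : MvPolynomial ι k := aeval (fun i => C s * X i) G
    have h1 : Gs ∈ kr k (t • fun i => φ (p i)) := by
      rw [mem_kr]
      have h2 : aeval (t • fun i => φ (p i)) Gs =
          aeval ((algebraMap k K' s * t) • fun i => φ (p i)) G := by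
        have h : (aeval (t • fun i => φ (p i)) : MvPolynomial ι k →ₐ[k] K').comp
            (aeval (fun i => C s * X i) : MvPolynomial ι k →ₐ[k] MvPolynomial ι k) =
            aeval ((algebraMap k K' s * t) • fun i => φ (p i)) := by
          apply MvPolynomial.algHom_ext
          intro i
          simp [mul_assoc, MvPolynomial.algHom_C]
        exact congrArg (fun g : MvPolynomial ι k →ₐ[k] K' => g G) h
      rw [h2]
      have h3 := sigD_eval p G (K' := K') (algebraMap k K' s * t)
      rw [hP, map_zero] at h3
      exact h3.symm
    have h4 := hx Gs h1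
    have h5 : aeval x Gs = aeval (s • x) G := by
      have h : (aeval x : MvPolynomial ι k →ₐ[k] k).comp
          (aeval (fun i => C s * X i) : MvPolynomial ι k →ₐ[k] MvPolynomial ι k) =
          aeval (s • x) := by
        apply MvPolynomial.algHom_ext
        intro i
        simp
      exact congrArg (fun g : MvPolynomial ι k →ₐ[k] k => g G) h
    rw [← h5]
    exact h4
  · intro G hG s
    have hG0 : aeval (t • fun i => φ (p i)) G = 0 := (mem_kr _ _).1 hG
    have hP := hzero G hG0
    have h3 := sigD_eval p G (K' := K) s
    rw [hP, map_zero] at h3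
    exact h3.symm

/-- E6. An irreducible closed set of dimension at least two contains two independent vectors.

Proof. Otherwise all points of the zero set over `k` are multiples of one vector `x`, the `2 × 2` minors `X i * x j - X j * x i` are in `q`
(`mem_of_zeroLocus`), and the coordinate ring is generated by one element: `td q ≤ 1`. -/
theorem exists_indep_points (q : Ideal (MvPolynomial ι k)) [q.IsPrime] (h : 2 ≤ td q) :
    ∃ x y : ι → k, x ∈ zeroLocus k q ∧ y ∈ zeroLocus k q ∧ LinearIndependent k ![x, y] := by
  classical
  by_contra hcon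
  push Not at hcon
  obtain ⟨K, _, _, g, hg⟩ := exists_generic q
  have htd : (td q : ℕ∞) = T k (Set.range g) := by rw [T_range, hg]
  have key : T k (Set.range g) ≤ 1 := by
    by_cases hz : ∀ x ∈ zeroLocus k q, x = 0
    · have h1 : ∀ i, g i = 0 := by
        intro i
        have h2 : (X i : MvPolynomial ι k) ∈ q := by
          apply mem_of_zeroLocus q
          intro x hx
          rw [hz x hx]
          simp
        rw [← hg, mem_kr] at h2
        simpa using h2
      calc T k (Set.range g) ≤ T k (∅ : Set K) := by
            apply T_le_of_mem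
            rintro _ ⟨i, rfl⟩
            rw [h1 i]
            exact zero_mem _
        _ ≤ (∅ : Set K).encard := T_le_encard _
        _ ≤ 1 := by simp
    · push Not at hz
      obtain ⟨x, hx, hx0⟩ := hz
      obtain ⟨a, ha⟩ : ∃ a, x a ≠ 0 := by
        by_contra hall
        push Not at hall
        exact hx0 (funext hall)
      have h1 : ∀ i, g i = algebraMap k K (x i / x a) * g a := by
        intro i
        have h2 : (X i - C (x i / x a) * X a : MvPolynomial ι k) ∈ q := by
          apply mem_of_zeroLocus q
          intro y hy
          have h3 := hcon x y hx hy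
          rw [indep_iff] at h3
          push Not at h3
          have h4 := h3 a i
          have h5 : x a * y i = x i * y a := by linear_combination h4
          simp only [map_sub, map_mul, aeval_X, aeval_C, Algebra.algebraMap_self, RingHom.id_apply]
          field_simp
          linear_combination h5
        rw [← hg, mem_kr] at h2
        simp only [map_sub, map_mul, aeval_X, aeval_C] at h2
        exact sub_eq_zero.1 h2
      calc T k (Set.range g) ≤ T k ({g a} : Set K) := by
            apply T_le_of_mem
            rintro _ ⟨i, rfl⟩
            rw [h1 i]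
            exact mul_mem (IntermediateField.algebraMap_mem _ _)
              (IntermediateField.subset_adjoin k _ rfl)
        _ ≤ ({g a} : Set K).encard := T_le_encard _
        _ ≤ 1 := by simp
  rw [← htd] at key
  have h2 : td q ≤ 1 := by exact_mod_cast key
  omega

end

end Pool.Agent.Lib.MP_1e3e9c_agS
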