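import Pool.Agent.Lib.MP_1e3e9c_agS.ExtA

/-!
# A closed cone which meets the generic line meets every line
-/

set_option autoImplicit false

namespace Pool.Agent.Lib.MP_1e3e9c_agS

open MvPolynomial

noncomputable section

variable {k : Type} [Field k] [IsAlgClosed k] {ι : Type} [Fintype ι]
  {f : Ideal (MvPolynomial (ι ⊕ ι) k)}

/-- Points over a field extension give points over `k` (on a line). -/
private theorem meets_aux1 (𝔰 : Ideal (MvPolynomial ι k)) (u w : ι → k)
    (hi : LinearIndependent k ![u, w]) {L : Type} [Field L] (φ : k →+* L) (a b : L)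
    (hab : a ≠ 0 ∨ b ≠ 0)
    (h : ∀ G ∈ 𝔰, eval₂ φ (fun i => a * φ (u i) + b * φ (w i)) G = 0) :
    ∃ a b : k, a • u + b • w ≠ 0 ∧ a • u + b • w ∈ zeroLocus k 𝔰 := by
  by_contra hcon
  push Not at hcon
  let ψ : MvPolynomial ι k →ₐ[k] MvPolynomial (Fin 2) k :=
    aeval (fun i => C (u i) * X 0 + C (w i) * X 1)
  let J : Ideal (MvPolynomial (Fin 2) k) := 𝔰.map ψ
  have hJ : ∀ x ∈ zeroLocus k J, ∀ t : Fin 2, x t = 0 := by
    intro x hx
    have hz : x 0 • u + x 1 • w = 0 := by
      by_contra hne
      refine hcon (x 0) (x 1) hne ?_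
      intro G hG
      have h1 := hx (ψ G) (Ideal.mem_map_of_mem _ hG)
      have h2 : ((aeval x).comp ψ : MvPolynomial ι k →ₐ[k] k) = aeval (x 0 • u + x 1 • w) := by
        apply MvPolynomial.algHom_ext
        intro i
        simp [ψ, mul_comm]
      have h3 := DFunLike.congr_fun h2 G
      simp only [AlgHom.comp_apply] at h3
      rw [← h3]; exact h1
    have h0 := LinearIndependent.pair_iff.mp hi (x 0) (x 1) hz
    intro t
    fin_cases t
    · exact h0.1
    · exact h0.2
  have hrad : ∀ t : Fin 2, ∃ n : ℕ, (X t : MvPolynomial (Fin 2) k) ^ n ∈ J := by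
    intro t
    have : (X t : MvPolynomial (Fin 2) k) ∈ J.radical := by
      rw [← vanishingIdeal_zeroLocus_eq_radical (K := k) J]
      intro x hx
      simp [hJ x hx t]
    exact this
  let θ : MvPolynomial (Fin 2) k →+* L := eval₂Hom φ ![a, b]
  have hθ : ∀ P ∈ J, θ P = 0 := by
    have hle : J ≤ RingHom.ker θ := by
      refine Ideal.map_le_iff_le_comap.mpr ?_
      intro G hG
      have h2 : (θ.comp (ψ : MvPolynomial ι k →+* MvPolynomial (Fin 2) k)) =
          eval₂Hom φ (fun i => a * φ (u i) + b * φ (w i)) := by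
        apply MvPolynomial.ringHom_ext
        · intro r
          simp [ψ, θ]
        · intro i
          simp [ψ, θ, mul_comm]
      have h3 := DFunLike.congr_fun h2 G
      rw [Ideal.mem_comap, RingHom.mem_ker]
      have h4 := h G hG
      simp only [RingHom.comp_apply, coe_eval₂Hom] at h3
      rw [h4] at h3
      exact h3
    exact fun P hP => hle hP
  have hx0 : ∀ t : Fin 2, (![a, b] : Fin 2 → L) t = 0 := by
    intro t
    obtain ⟨n, hn⟩ := hrad t
    have := hθ _ hn
    simp only [map_pow, θ, coe_eval₂Hom, eval₂_X] at this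
    exact pow_eq_zero_iff (by rintro rfl; simp at this) |>.mp this
  have ha := hx0 0
  have hb := hx0 1
  simp at ha hb
  rcases hab with h | h
  · exact h ha
  · exact h hb

/-- E5. A closed cone which meets the generic line meets every line.

Proof. Scale `(α, β)`. The ring homomorphism `k[u₀, w₀] → k`, `u₀ ↦ u`, `w₀ ↦ w` (it exists since `kr (u₀, w₀) = f`) extends to a
valuation ring `O` of `K` which dominates: `O ∩ k[u₀, w₀]` has the kernel as the centre. Divide `(α, β)` by the one of the
larger value: then both are in `O`, one of them is `1`, and with the residues `ā`, `b̄` in the residue field `L` the vector `ā u + b̄ w` is a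
zero of `𝔰` over `L`. The ideal of `k[A, B]` generated by the `G (A u + B w)`, `G ∈ 𝔰`, has the nonzero zero `(ā, b̄)` over `L`; if it had only
`(0, 0)` over `k`, then powers of `A` and `B` would be in it (Nullstellensatz). -/
theorem meets {K : Type} [Field K] [Algebra k K] (u₀ w₀ : ι → K) (hk : kr k (Sum.elim u₀ w₀) = f)
    (α β : K) (hp : α • u₀ + β • w₀ ≠ 0) (𝔰 : Ideal (MvPolynomial ι k))
    (hs : ∀ G ∈ 𝔰, ∀ s : K, aeval (s • (α • u₀ + β • w₀)) G = 0) (u w : ι → k)
    (h : Sum.elim u w ∈ zeroLocus k f) (hi : LinearIndependent k ![u, w]) :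
    ∃ a b : k, a • u + b • w ≠ 0 ∧ a • u + b • w ∈ zeroLocus k 𝔰 := by
  classical
  -- the subring `k[u₀, w₀]`
  let e : MvPolynomial (ι ⊕ ι) k →+* K := (aeval (Sum.elim u₀ w₀) : MvPolynomial (ι ⊕ ι) k →ₐ[k] K)
  let R : Subring K := e.range
  let p : MvPolynomial (ι ⊕ ι) k →+* k := (aeval (Sum.elim u w) : MvPolynomial (ι ⊕ ι) k →ₐ[k] k)
  have hker : ∀ P, e P = 0 → p P = 0 := by
    intro P hP
    have : P ∈ f := by rw [← hk]; exact hP
    exact h P this
  let I : Ideal R := (RingHom.ker p).map e.rangeRestrict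
  have hmemI : ∀ x : R, x ∈ I ↔ ∃ P, p P = 0 ∧ e.rangeRestrict P = x := by
    intro x
    rw [Ideal.mem_map_iff_of_surjective _ e.rangeRestrict_surjective]
    simp only [RingHom.mem_ker]
  have hI : I ≠ ⊤ := by
    intro htop
    have h1 : (1 : R) ∈ I := by rw [htop]; trivial
    obtain ⟨P, hP0, hP1⟩ := (hmemI 1).mp h1
    have h2 : e (P - 1) = 0 := by
      have := congrArg Subtype.val hP1
      simp only [RingHom.coe_rangeRestrict, OneMemClass.coe_one] at this
      rw [map_sub, this, map_one, sub_self]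
    have h3 := hker _ h2
    rw [map_sub, hP0, map_one] at h3
    simp at h3
  obtain ⟨B, hRB, hIB⟩ := Ideal.image_subset_nonunits_valuationSubring I hI
  have heB : ∀ P, e P ∈ B := fun P => hRB ⟨P, rfl⟩
  let eB : MvPolynomial (ι ⊕ ι) k →+* B := e.codRestrict B heB
  have heBv : ∀ P, (eB P : K) = e P := fun P => rfl
  let kB : k →+* B := eB.comp C
  have hkB : ∀ r, (kB r : K) = algebraMap k K r := by
    intro r
    simp only [kB, RingHom.comp_apply, heBv, e]
    simp
  let L := IsLocalRing.ResidueField B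
  let res : B →+* L := IsLocalRing.residue B
  let φ : k →+* L := res.comp kB
  have hres : ∀ P, p P = 0 → res (eB P) = 0 := by
    intro P hP
    rw [IsLocalRing.residue_eq_zero_iff]
    have h1 : e P ∈ B.nonunits := by
      apply hIB
      exact ⟨e.rangeRestrict P, (hmemI _).mpr ⟨P, hP, rfl⟩, rfl⟩
    have h2 : ((eB P : B) : K) ∈ B.nonunits := h1
    exact (ValuationSubring.coe_mem_nonunits_iff).mp h2
  have hresp : ∀ P, res (eB P) = φ (p P) := by
    intro P
    have h1 : p (P - C (p P)) = 0 := by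
      rw [map_sub]; simp [p]
    have h2 := hres _ h1
    rw [map_sub, map_sub, sub_eq_zero] at h2
    exact h2
  -- the scaled coefficients
  have key : ∃ a b : B, (a = 1 ∨ b = 1) ∧ ∃ s : K, (a : K) = s * α ∧ (b : K) = s * β := by
    by_cases hα : α = 0
    · have hβ : β ≠ 0 := by
        rintro rfl
        apply hp; simp [hα]
      exact ⟨0, 1, Or.inr rfl, β⁻¹, by simp [hα], by simp [hβ]⟩
    · rcases B.mem_or_inv_mem (β * α⁻¹) with hm | hm
      · exact ⟨1, ⟨β * α⁻¹, hm⟩, Or.inl rfl, α⁻¹, by simp [hα], by simp [mul_comm]⟩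
      · by_cases hβ : β = 0
        · exact ⟨1, 0, Or.inl rfl, α⁻¹, by simp [hα], by simp [hβ]⟩
        · refine ⟨⟨(β * α⁻¹)⁻¹, hm⟩, 1, Or.inr rfl, β⁻¹, ?_, by simp [hβ]⟩
          simp [mul_comm]
  obtain ⟨a, b, hab1, s, has, hbs⟩ := key
  have hU : ∀ i, (eB (X (Sum.inl i)) : K) = u₀ i := by intro i; simp [heBv, e]
  have hW : ∀ i, (eB (X (Sum.inr i)) : K) = w₀ i := by intro i; simp [heBv, e]
  refine meets_aux1 𝔰 u w hi (L := L) φ (res a) (res b) ?_ ?_
  · rcases hab1 with h1 | h1
    · left; rw [h1, map_one]; exact one_ne_zero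
    · right; rw [h1, map_one]; exact one_ne_zero
  · intro G hG
    have h1 := hs G hG s
    have h2 : (B.subtype (eval₂ kB (fun i => a * eB (X (Sum.inl i)) + b * eB (X (Sum.inr i))) G) : K)
        = aeval (s • (α • u₀ + β • w₀)) G := by
      rw [MvPolynomial.eval₂_comp_left, aeval_def]
      have e1 : (B.subtype.comp kB : k →+* K) = algebraMap k K := by
        ext r; exact hkB r
      have e2 : (B.subtype ∘ fun i => a * eB (X (Sum.inl i)) + b * eB (X (Sum.inr i))) =
          s • (α • u₀ + β • w₀) := by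
        funext i
        change (a : K) * (eB (X (Sum.inl i)) : K) + (b : K) * (eB (X (Sum.inr i)) : K) = _
        rw [hU, hW, has, hbs]
        simp [mul_add, mul_assoc]
      rw [e1, e2]
    have h3 : eval₂ kB (fun i => a * eB (X (Sum.inl i)) + b * eB (X (Sum.inr i))) G = 0 := by
      apply Subtype.ext
      rw [h1] at h2
      exact h2
    have h4 := congrArg res h3
    rw [map_zero, MvPolynomial.eval₂_comp_left] at h4
    have e3 : (res ∘ fun i => a * eB (X (Sum.inl i)) + b * eB (X (Sum.inr i))) =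
        fun i => res a * φ (u i) + res b * φ (w i) := by
      funext i
      simp only [Function.comp_apply, map_add, map_mul, hresp]
      simp [p]
    rw [e3] at h4
    exact h4

end

end Pool.Agent.Lib.MP_1e3e9c_agS
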