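import Pool.Agent.Lib.MP_1e3e9c_agS.Main1
import Pool.Agent.Lib.MP_1e3e9c_agS.SigA
import Pool.Agent.Lib.MP_1e3e9c_agS.SigB
import Pool.Agent.Lib.MP_1e3e9c_agS.SigC
import Pool.Agent.Lib.MP_1e3e9c_agS.SigD
import Pool.Agent.Lib.MP_1e3e9c_agS.SigE
import Pool.Agent.Lib.MP_1e3e9c_agS.ConvA
import Pool.Agent.Lib.MP_1e3e9c_agS.ConvB

/-!
# The common transversal of the lines of the family
-/

set_option autoImplicit false

namespace Pool.Agent.Lib.MP_1e3e9c_agS

open MvPolynomial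

noncomputable section

variable {k : Type} [Field k] [IsAlgClosed k] {ι : Type} [Fintype ι]
  {f : Ideal (MvPolynomial (ι ⊕ ι) k)}

/-- If a point of maximal rank on a line of the family has small rank, the family consists of the
lines of a linear space. -/
theorem sigma_contra (hf : IsFam f) {c : ℕ} (hd : 2 * c + 4 ≤ td f) (g : Fin c → ι → k)
    (hL : ∀ u w : ι → k, Sum.elim u w ∈ zeroLocus k f → LinearIndependent k ![u, w] →
      ∃ s, dot (g s) u ≠ 0 ∨ dot (g s) w ≠ 0)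
    {K : Type} [Field K] [Algebra k K] (p v : ι → K) (a b : ι)
    (hpa : p a = 1) (hva : v a = 0) (hvb : v b = 1) (h : Sum.elim p v ∈ zeroLocus K f)
    (hT : (td f : ℕ∞) ≤ T k (Set.range p ∪ Set.range v) + 3)
    (hp : T k (Set.range p) ≤ (c + 1 : ℕ)) : False := by
  classical
  obtain ⟨K', _, _, p', r', h1, h2, h3, h4, h5⟩ := second_point hf p v a b hpa hva hvb h hT
  have h6 := T_specialize p' r' h2
  have h7 := T_union_le (k := k) (Set.range p') (Set.range r')
  obtain ⟨n, hn⟩ := T_nat (k := k) (Set.finite_range p)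
  obtain ⟨n', hn'⟩ := T_nat (k := k) (Set.finite_range p')
  obtain ⟨m', hm'⟩ := T_nat (k := k) (Set.finite_range r')
  obtain ⟨N, hN⟩ := T_nat (k := k) ((Set.finite_range p').union (Set.finite_range r'))
  rw [hn', hn] at h1
  rw [hn', hm'] at h6
  rw [hN, hn', hm'] at h7
  rw [hN] at h4
  rw [hn] at hp
  have h1' : n' = n + 1 := by exact_mod_cast h1
  have h6' : m' ≤ n' := by exact_mod_cast h6
  have h7' : N ≤ n' + m' := by exact_mod_cast h7
  have h4' : td f ≤ N := by exact_mod_cast h4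
  have hp' : n ≤ c + 1 := by exact_mod_cast hp
  have hvp : (kr k p').IsPrime := kr_prime p'
  have htd : td (kr k p') = c + 2 := by
    have h8 := T_range (k := k) p'
    rw [hn'] at h8
    have h9 : n' = td (kr k p') := by exact_mod_cast h8
    omega
  have hrp : (prodI (kr k p') (kr k p')).IsPrime := prodI_prime _ _
  have hle : prodI (kr k p') (kr k p') ≤ kr k (Sum.elim p' r') :=
    prodI_le_kr' p' r' _ _ (fun G hG => (mem_kr p' G).mp hG)
      (fun G hG => (mem_kr r' G).mp (h2 hG))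
  have hkp : (kr k (Sum.elim p' r')).IsPrime := kr_prime _
  have heq : prodI (kr k p') (kr k p') = kr k (Sum.elim p' r') := by
    refine eq_of_td_le hle ?_
    rw [td_prodI, htd]
    have h8 := T_range (k := k) (Sum.elim p' r')
    rw [Set.Sum.elim_range, hN] at h8
    have h9 : N = td (kr k (Sum.elim p' r')) := by exact_mod_cast h8
    omega
  have hfr : f ≤ prodI (kr k p') (kr k p') := by
    rw [heq]
    exact fun G hG => (mem_kr _ G).mpr (h5 G hG)
  -- the section with the linear space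
  have h0p : (kr k (0 : ι → k)).IsPrime := kr_prime _
  have hv0 : kr k p' ≤ kr k (0 : ι → k) := by
    intro G hG
    have h8 := h3 0 G ((mem_kr p' G).mp hG)
    rw [zero_smul] at h8
    rw [mem_kr]
    have h9 : aeval (0 : ι → K') G = algebraMap k K' (aeval (0 : ι → k) G) := by
      rw [← aeval_algebraMap_apply]
      congr 2
      funext i
      simp
    rw [h9] at h8
    exact (map_eq_zero _).mp h8
  let Gs : Fin c → MvPolynomial ι k := fun s => ∑ j, C (g s j) * X j
  have hGs : ∀ (s : Fin c) (x : ι → k), aeval x (Gs s) = dot (g s) x := by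
    intro s x
    simp only [Gs, map_sum, map_mul, aeval_X, dot, aeval_C]
    rfl
  obtain ⟨q, hq, hq1, hq2, hq3, hq4⟩ := krull_finset Finset.univ Gs (kr k p') (kr k (0 : ι → k)) hv0
    (fun s _ => by
      rw [mem_kr, hGs, dot]
      simp)
  rw [Finset.card_univ, Fintype.card_fin, htd] at hq4
  obtain ⟨x, y, hx, hy, hxy⟩ := exists_indep_points q (by omega)
  have hxyf : Sum.elim x y ∈ zeroLocus k f := by
    intro G hG
    have h8 := hfr hG
    refine h8 (Sum.elim x y) ⟨?_, ?_⟩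
    · exact fun H hH => hx H (hq1 hH)
    · exact fun H hH => hy H (hq1 hH)
  obtain ⟨s, hs | hs⟩ := hL x y hxyf hxy
  · exact hs (by rw [← hGs]; exact hx _ (hq3 s (Finset.mem_univ s)))
  · exact hs (by rw [← hGs]; exact hy _ (hq3 s (Finset.mem_univ s)))

/-- If the family has dimension at least `2 c` and a linear space of codimension `c` contains no
line of the family, then a closed subset of dimension less than `c` meets every line. -/
theorem sigma_td (hf : IsFam f) {c : ℕ} (hc : 0 < c) (hd : 2 * c + 4 ≤ td f) (g : Fin c → ι → k)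
    (hL : ∀ u w : ι → k, Sum.elim u w ∈ zeroLocus k f → LinearIndependent k ![u, w] →
      ∃ s, dot (g s) u ≠ 0 ∨ dot (g s) w ≠ 0) :
    ∃ 𝔰 : Ideal (MvPolynomial ι k), 𝔰.IsPrime ∧
      (∀ G ∈ 𝔰, ∀ n, homogeneousComponent n G ∈ 𝔰) ∧
      ringKrullDim (MvPolynomial ι k ⧸ 𝔰) ≤ c ∧ td 𝔰 ≤ c ∧
      ∀ u w : ι → k, Sum.elim u w ∈ zeroLocus k f → LinearIndependent k ![u, w] →
        ∃ a b : k, a • u + b • w ≠ 0 ∧ a • u + b • w ∈ zeroLocus k 𝔰 := by
  classical
  obtain ⟨K, _, _, u₀, w₀, u, w, hk, hV, hi0, hi, hrel, hdim⟩ := exists_meet hf hc hd g hL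
  have hV0 : Sum.elim u₀ w₀ ∈ zeroLocus K f := by
    intro G hG
    rw [← hk, mem_kr] at hG
    exact hG
  obtain ⟨p, v₁, v₂, a, b₁, b₂, hpa, hv1a, hv2a, hv1b, hv2b, ⟨x, y, hp1⟩, ⟨x', y', hp2⟩, ⟨x₁, y₁, hv1⟩,
    ⟨x₂, y₂, hv2⟩, hTp⟩ := normal_pair (k := k) u₀ w₀ u w hi0 hi hrel
  have hz1 : Sum.elim p v₁ ∈ zeroLocus K f := by
    rw [hp1, hv1]
    exact hf.stable_ext x y x₁ y₁ u₀ w₀ hV0
  have hz2 : Sum.elim p v₂ ∈ zeroLocus K f := by
    rw [hp2, hv2]
    exact hf.stable_ext x' y' x₂ y₂ u w hV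
  have ht1 := (T_line hf p v₁ a b₁ hpa hv1a hv1b hz1).2
  have ht2 := (T_line hf p v₂ a b₂ hpa hv2a hv2b hz2).2
  have hsub := T_submod (k := k) (Set.range p) (Set.range v₁) (Set.range v₂)
  have hfp := Set.finite_range p
  have hf1 := Set.finite_range v₁
  have hf2 := Set.finite_range v₂
  obtain ⟨A, hA⟩ := T_nat (k := k) ((hfp.union hf1).union hf2)
  obtain ⟨B, hB⟩ := T_nat (k := k) hfp
  obtain ⟨C₁, hC₁⟩ := T_nat (k := k) (hfp.union hf1)
  obtain ⟨C₂, hC₂⟩ := T_nat (k := k) (hfp.union hf2)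
  obtain ⟨M, hM⟩ := T_nat (k := k) ((((Set.finite_range u₀).union (Set.finite_range w₀)).union
    (Set.finite_range u)).union (Set.finite_range w))
  rw [hM] at hdim
  rw [hM, hA] at hTp
  rw [hA, hB, hC₁, hC₂] at hsub
  have ht1' : C₁ + 3 ≤ td f := by rw [hC₁] at ht1; exact_mod_cast ht1
  have ht2' : C₂ + 3 ≤ td f := by rw [hC₂] at ht2; exact_mod_cast ht2
  have hdim' : 2 * td f + 1 ≤ M + c := by exact_mod_cast hdim
  have hTp' : M ≤ A + 8 := by exact_mod_cast hTp
  have hsub' : A + B ≤ C₁ + C₂ := by exact_mod_cast hsub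
  by_cases hBc : B + 1 ≤ c
  · -- the closure of the point
    obtain ⟨K', _, _, φ, t, ht, hTt, hcone, hs⟩ := generic_multiple (k := k) p a hpa
    set 𝔰 := kr k (t • fun i => φ (p i)) with h𝔰
    have hpr : 𝔰.IsPrime := kr_prime _
    obtain ⟨hh, hdm⟩ := cone_ideal 𝔰 hcone
    have htd : td 𝔰 ≤ c := by
      have h1 := T_range (k := k) (t • fun i => φ (p i))
      rw [hTt, hB] at h1
      have h2 : B + 1 = td 𝔰 := by exact_mod_cast h1
      omega
    refine ⟨𝔰, hpr, hh, hdm.trans (by exact_mod_cast htd), htd, ?_⟩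
    intro u' w' h' hi'
    refine meets u₀ w₀ hk x y ?_ 𝔰 ?_ u' w' h' hi'
    · rw [← hp1]
      intro h0
      rw [h0] at hpa
      exact zero_ne_one hpa
    · rw [← hp1]
      exact hs
  · exfalso
    have hB1 : T k (Set.range p) ≤ (c + 1 : ℕ) := by
      rw [hB]
      have : B ≤ c + 1 := by omega
      exact_mod_cast this
    rcases (by omega : td f ≤ C₁ + 3 ∨ td f ≤ C₂ + 3) with h1 | h1
    · exact sigma_contra hf hd g hL p v₁ a b₁ hpa hv1a hv1b hz1
        (by rw [hC₁]; exact_mod_cast h1) hB1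
    · exact sigma_contra hf hd g hL p v₂ a b₂ hpa hv2a hv2b hz2
        (by rw [hC₂]; exact_mod_cast h1) hB1

/-- If the family has dimension at least `2 c` and a linear space of codimension `c` contains no
line of the family, then a closed subset of dimension less than `c` meets every line. -/
theorem sigma (hf : IsFam f) {c : ℕ} (hc : 0 < c) (hd : 2 * c + 4 ≤ td f) (g : Fin c → ι → k)
    (hL : ∀ u w : ι → k, Sum.elim u w ∈ zeroLocus k f → LinearIndependent k ![u, w] →
      ∃ s, dot (g s) u ≠ 0 ∨ dot (g s) w ≠ 0) :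
    ∃ 𝔰 : Ideal (MvPolynomial ι k), 𝔰.IsPrime ∧
      (∀ G ∈ 𝔰, ∀ n, homogeneousComponent n G ∈ 𝔰) ∧
      ringKrullDim (MvPolynomial ι k ⧸ 𝔰) ≤ c ∧
      ∀ u w : ι → k, Sum.elim u w ∈ zeroLocus k f → LinearIndependent k ![u, w] →
        ∃ a b : k, a • u + b • w ≠ 0 ∧ a • u + b • w ∈ zeroLocus k 𝔰 := by
  obtain ⟨𝔰, h1, h2, h3, -, h4⟩ := sigma_td hf hc hd g hL
  exact ⟨𝔰, h1, h2, h3, h4⟩

end

end Pool.Agent.Lib.MP_1e3e9c_agS
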