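import Pool.Agent.Lib.MP_1e3e9c_agS.DimB

/-!
# Products of irreducible closed sets
-/

set_option autoImplicit false

namespace Pool.Agent.Lib.MP_1e3e9c_agS

open MvPolynomial
open scoped TensorProduct

noncomputable section

variable {k : Type} [Field k] [IsAlgClosed k]

/-- A polynomial which vanishes on the zero set of a prime ideal belongs to it. -/
theorem mem_of_zeroLocus {σ : Type} [Finite σ] (p : Ideal (MvPolynomial σ k)) [p.IsPrime]
    (g : MvPolynomial σ k) (h : ∀ x ∈ zeroLocus k p, aeval x g = 0) : g ∈ p := by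
  have h1 := MvPolynomial.IsPrime.vanishingIdeal_zeroLocus (K := k) p
  rw [← h1]
  exact h

/-- The ideal of the product of two zero sets. -/
def prodI {σ τ : Type} (p : Ideal (MvPolynomial σ k)) (q : Ideal (MvPolynomial τ k)) :
    Ideal (MvPolynomial (σ ⊕ τ) k) :=
  vanishingIdeal k {x : σ ⊕ τ → k | (fun i => x (Sum.inl i)) ∈ zeroLocus k p ∧
    (fun j => x (Sum.inr j)) ∈ zeroLocus k q}

omit [IsAlgClosed k] in
theorem Prod_mem {σ τ : Type} {p : Ideal (MvPolynomial σ k)} {q : Ideal (MvPolynomial τ k)}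
    {g : MvPolynomial (σ ⊕ τ) k} : g ∈ prodI p q ↔
      ∀ x ∈ zeroLocus k p, ∀ y ∈ zeroLocus k q, aeval (Sum.elim x y) g = 0 := by
  constructor
  · intro h x hx y hy
    exact h (Sum.elim x y) ⟨hx, hy⟩
  · rintro h z ⟨h1, h2⟩
    have h3 := h _ h1 _ h2
    have h4 : Sum.elim (fun i => z (Sum.inl i)) (fun j => z (Sum.inr j)) = z := by
      funext i
      rcases i with i | i <;> rfl
    rwa [h4] at h3

theorem Prod_nonempty {σ : Type} [Finite σ] (p : Ideal (MvPolynomial σ k)) [hp : p.IsPrime] :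
    ∃ x, x ∈ zeroLocus k p := by
  by_contra h
  push Not at h
  exact hp.ne_top ((Ideal.eq_top_iff_one p).2 (mem_of_zeroLocus p 1 fun x hx => absurd hx (h x)))

/-- The restriction to `σ × {y}`. -/
def Prod_sl {σ τ : Type} (y : τ → k) : MvPolynomial (σ ⊕ τ) k →ₐ[k] MvPolynomial σ k :=
  aeval (Sum.elim X (fun j => C (y j)))

omit [IsAlgClosed k] in
theorem Prod_sl_aeval {σ τ : Type} (y : τ → k) (x : σ → k) (g : MvPolynomial (σ ⊕ τ) k) :
    aeval x (Prod_sl y g) = aeval (Sum.elim x y) g := by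
  have h : (aeval x : MvPolynomial σ k →ₐ[k] k).comp (Prod_sl y) = aeval (Sum.elim x y) := by
    apply MvPolynomial.algHom_ext
    rintro (i | j)
    · simp [Prod_sl]
    · simp [Prod_sl]
  exact DFunLike.congr_fun h g

/-- The restriction to `{x} × τ`. -/
def Prod_sr {σ τ : Type} (x : σ → k) : MvPolynomial (σ ⊕ τ) k →ₐ[k] MvPolynomial τ k :=
  aeval (Sum.elim (fun i => C (x i)) X)

omit [IsAlgClosed k] in
theorem Prod_sr_aeval {σ τ : Type} (x : σ → k) (y : τ → k) (g : MvPolynomial (σ ⊕ τ) k) :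
    aeval y (Prod_sr x g) = aeval (Sum.elim x y) g := by
  have h : (aeval y : MvPolynomial τ k →ₐ[k] k).comp (Prod_sr x) = aeval (Sum.elim x y) := by
    apply MvPolynomial.algHom_ext
    rintro (i | j)
    · simp [Prod_sr]
    · simp [Prod_sr]
  exact DFunLike.congr_fun h g

theorem prodI_prime {σ τ : Type} [Finite σ] [Finite τ] (p : Ideal (MvPolynomial σ k))
    (q : Ideal (MvPolynomial τ k)) [p.IsPrime] [q.IsPrime] : (prodI p q).IsPrime := by
  obtain ⟨x₀, hx₀⟩ := Prod_nonempty p
  obtain ⟨y₀, hy₀⟩ := Prod_nonempty q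
  refine ⟨fun h => ?_, ?_⟩
  · have h1 := Prod_mem.1 ((Ideal.eq_top_iff_one _).1 h) x₀ hx₀ y₀ hy₀
    rw [map_one] at h1
    exact one_ne_zero h1
  · intro g h hgh
    by_contra hc
    push Not at hc
    obtain ⟨hg, hh⟩ := hc
    rw [Prod_mem] at hg hh
    push Not at hg hh
    obtain ⟨x₁, hx₁, y₁, hy₁, h1⟩ := hg
    obtain ⟨x₂, hx₂, y₂, hy₂, h2⟩ := hh
    have h3 : Prod_sl y₁ g ∉ p := by
      intro h3
      have h4 := hx₁ _ h3
      rw [Prod_sl_aeval] at h4
      exact h1 h4
    have h4 : Prod_sl y₂ h ∉ p := by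
      intro h3
      have h4 := hx₂ _ h3
      rw [Prod_sl_aeval] at h4
      exact h2 h4
    have h5 : Prod_sl y₁ g * Prod_sl y₂ h ∉ p := fun h5 =>
      (Ideal.IsPrime.mem_or_mem ‹_› h5).elim h3 h4
    refine h5 (mem_of_zeroLocus p _ fun x hx => ?_)
    rw [map_mul, Prod_sl_aeval, Prod_sl_aeval]
    have h6 : Prod_sr x g * Prod_sr x h ∈ q := by
      refine mem_of_zeroLocus q _ fun y hy => ?_
      rw [map_mul, Prod_sr_aeval, Prod_sr_aeval, ← map_mul]
      exact Prod_mem.1 hgh x hx y hy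
    rcases Ideal.IsPrime.mem_or_mem ‹_› h6 with h7 | h7
    · have h8 := hy₁ _ h7
      rw [Prod_sr_aeval] at h8
      rw [h8, zero_mul]
    · have h8 := hy₂ _ h7
      rw [Prod_sr_aeval] at h8
      rw [h8, mul_zero]

/-- The zero set of the product ideal consists of pairs. -/
theorem prodI_sub {σ τ : Type} [Finite σ] [Finite τ] (p : Ideal (MvPolynomial σ k))
    (q : Ideal (MvPolynomial τ k)) (g : MvPolynomial σ k) (hg : g ∈ p) :
    rename Sum.inl g ∈ prodI p q := by
  rw [Prod_mem]
  intro x hx y _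
  rw [aeval_rename]
  exact hx g hg

theorem prodI_sub' {σ τ : Type} [Finite σ] [Finite τ] (p : Ideal (MvPolynomial σ k))
    (q : Ideal (MvPolynomial τ k)) (g : MvPolynomial τ k) (hg : g ∈ q) :
    rename Sum.inr g ∈ prodI p q := by
  rw [Prod_mem]
  intro x _ y hy
  rw [aeval_rename]
  exact hy g hg

theorem Prod_inl {σ τ : Type} [Finite σ] [Finite τ] {p : Ideal (MvPolynomial σ k)}
    {q : Ideal (MvPolynomial τ k)} [p.IsPrime] [q.IsPrime] {g : MvPolynomial σ k}
    (hg : rename Sum.inl g ∈ prodI p q) : g ∈ p := by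
  obtain ⟨y₀, hy₀⟩ := Prod_nonempty q
  refine mem_of_zeroLocus p g fun x hx => ?_
  have h := Prod_mem.1 hg x hx y₀ hy₀
  rw [aeval_rename] at h
  exact h

theorem Prod_inr {σ τ : Type} [Finite σ] [Finite τ] {p : Ideal (MvPolynomial σ k)}
    {q : Ideal (MvPolynomial τ k)} [p.IsPrime] [q.IsPrime] {g : MvPolynomial τ k}
    (hg : rename Sum.inr g ∈ prodI p q) : g ∈ q := by
  obtain ⟨x₀, hx₀⟩ := Prod_nonempty p
  refine mem_of_zeroLocus q g fun y hy => ?_
  have h := Prod_mem.1 hg x₀ hx₀ y hy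
  rw [aeval_rename] at h
  exact h

/-- Independent coordinates of `y` stay independent over the coordinates of `x`. -/
theorem Prod_indep {σ τ K I : Type} [Finite σ] [Finite τ] [Field K] [Algebra k K]
    {p : Ideal (MvPolynomial σ k)} {q : Ideal (MvPolynomial τ k)} [p.IsPrime] [q.IsPrime]
    {x : σ → K} {y : τ → K} (hx : kr k x = p) (hy : kr k y = q)
    (hxy : kr k (Sum.elim x y) = prodI p q) {j : I → τ}
    (hI : AlgebraicIndependent k fun i => y (j i)) :
    AlgebraicIndependent (Algebra.adjoin k (Set.range x)) fun i => y (j i) := by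
  classical
  rw [algebraicIndependent_iff]
  intro F hF
  have h0 : ∀ a : K, a ∈ Algebra.adjoin k (Set.range x) →
      ∃ g : MvPolynomial σ k, aeval x g = a := by
    intro a h2
    rw [Algebra.adjoin_range_eq_range_aeval] at h2
    exact h2
  have h1 : ∀ a : Algebra.adjoin k (Set.range x), ∃ g : MvPolynomial σ k, aeval x g = (a : K) :=
    fun a => h0 a a.2
  choose g hg using h1
  let G : MvPolynomial (σ ⊕ τ) k := ∑ m ∈ F.support, rename Sum.inl (g (coeff m F)) *
    rename Sum.inr (rename j (monomial m (1 : k)))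
  have h2 : aeval (Sum.elim x y) G = 0 := by
    rw [← hF, map_sum]
    conv_rhs => rw [aeval_def, eval₂_eq]
    refine Finset.sum_congr rfl fun m _ => ?_
    rw [map_mul, aeval_rename, aeval_rename, aeval_rename]
    have e1 : (Sum.elim x y ∘ Sum.inl : σ → K) = x := rfl
    rw [e1, hg]
    have e2 : ((Sum.elim x y ∘ Sum.inr) ∘ j : I → K) = fun i => y (j i) := rfl
    rw [e2, aeval_monomial, map_one, one_mul]
    rfl
  have h3 : G ∈ prodI p q := by
    rw [← hxy]
    exact (mem_kr _ _).2 h2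
  ext m
  rw [coeff_zero]
  by_cases hm : m ∈ F.support
  swap
  · rw [notMem_support_iff.1 hm]
  have h4 : g (coeff m F) ∈ p := by
    refine mem_of_zeroLocus p _ fun a ha => ?_
    let H : MvPolynomial I k := ∑ m ∈ F.support, monomial m (aeval a (g (coeff m F)))
    have h5 : rename j H ∈ q := by
      refine mem_of_zeroLocus q _ fun b hb => ?_
      have h6 := Prod_mem.1 h3 a ha b hb
      rw [← h6, map_sum, map_sum, map_sum]
      refine Finset.sum_congr rfl fun m _ => ?_
      rw [map_mul, aeval_rename, aeval_rename, aeval_rename, aeval_rename, aeval_monomial,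
        aeval_monomial, map_one, one_mul]
      rfl
    rw [← hy, mem_kr, aeval_rename] at h5
    rw [algebraicIndependent_iff] at hI
    have h7 := hI H h5
    have h8 : coeff m H = aeval a (g (coeff m F)) := by
      rw [coeff_sum, Finset.sum_eq_single m]
      · rw [coeff_monomial, if_pos rfl]
      · intro m' _ hne
        rw [coeff_monomial, if_neg hne]
      · intro h
        exact absurd hm h
    rw [← h8, h7, coeff_zero]
  rw [← hx, mem_kr, hg] at h4
  rw [h4]
  rfl

/-- The transcendence degree of a product. -/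
theorem td_prodI {σ τ : Type} [Finite σ] [Finite τ] (p : Ideal (MvPolynomial σ k))
    (q : Ideal (MvPolynomial τ k)) [p.IsPrime] [q.IsPrime] :
    td (prodI p q) = td p + td q := by
  have hpr := prodI_prime p q
  obtain ⟨K, _, _, z, hz⟩ := exists_generic (prodI p q)
  obtain ⟨x, hxd⟩ : ∃ x : σ → K, x = fun i => z (Sum.inl i) := ⟨_, rfl⟩
  obtain ⟨y, hyd⟩ : ∃ y : τ → K, y = fun i => z (Sum.inr i) := ⟨_, rfl⟩
  have hzz : z = Sum.elim x y := by
    funext i
    rcases i with i | i
    · rw [hxd]; rfl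
    · rw [hyd]; rfl
  rw [hzz] at hz
  have hx : kr k x = p := by
    ext g
    have h : aeval (Sum.elim x y) (rename Sum.inl g) = aeval x g := aeval_rename _ _ _
    rw [mem_kr, ← h, ← mem_kr, hz]
    exact ⟨Prod_inl, prodI_sub p q g⟩
  have hy : kr k y = q := by
    ext g
    have h : aeval (Sum.elim x y) (rename Sum.inr g) = aeval y g := aeval_rename _ _ _
    rw [mem_kr, ← h, ← mem_kr, hz]
    exact ⟨Prod_inr, prodI_sub' p q g⟩
  have h1 : T k (Set.range x) = (td p : ℕ∞) := by rw [T_range, hx]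
  have h2 : T k (Set.range y) = (td q : ℕ∞) := by rw [T_range, hy]
  have h3 : T k (Set.range x ∪ Set.range y) = (td (prodI p q) : ℕ∞) := by
    rw [← Set.Sum.elim_range, T_range, hz]
  have h4 := T_union_le (k := k) (Set.range x) (Set.range y)
  rw [h1, h2, h3] at h4
  obtain ⟨I, hI⟩ := (AlgebraicIndependent.matroid k K).exists_isBasis (Set.range y)
    (Set.subset_univ _)
  have h5 : I.encard = (td q : ℕ∞) := by
    rw [hI.encard_eq_eRk]
    exact h2
  have hIs : I ⊆ Set.range y := hI.subset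
  have hIfin : I.Finite := (Set.finite_range y).subset hIs
  have hfin : Finite I := hIfin
  choose j hj using fun i : I => hIs i.2
  have h6 : AlgebraicIndependent k fun i : I => y (j i) := by
    have h7 : (fun i : I => y (j i)) = fun i : I => (i : K) := funext hj
    rw [h7]
    exact AlgebraicIndependent.matroid_indep_iff.1 hI.indep
  have h7 := Prod_indep hx hy hz h6
  have h8 := T_union_indep (k := k) (fun i : I => y (j i)) h7
  have h9 : T k (Set.range x ∪ Set.range fun i : I => y (j i)) ≤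
      T k (Set.range x ∪ Set.range y) := by
    refine T_mono (Set.union_subset_union_right _ ?_)
    rintro _ ⟨i, rfl⟩
    exact ⟨_, rfl⟩
  have h10 : (Nat.card I : ℕ∞) = (td q : ℕ∞) := by
    rw [← h5, Nat.card_coe_set_eq, hIfin.cast_ncard_eq]
  rw [h8, h1, h3, h10] at h9
  have h11 : td p + td q ≤ td (prodI p q) := by exact_mod_cast h9
  have h12 : td (prodI p q) ≤ td p + td q := by exact_mod_cast h4
  omega

theorem prodI_le_kr' {σ τ Ω : Type} [Finite σ] [Finite τ] [Field Ω] [Algebra k Ω] (x : σ → Ω)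
    (y : τ → Ω) (p : Ideal (MvPolynomial σ k)) (q : Ideal (MvPolynomial τ k)) [p.IsPrime]
    [q.IsPrime] (hx : x ∈ zeroLocus Ω p) (hy : y ∈ zeroLocus Ω q) :
    prodI p q ≤ kr k (Sum.elim x y) := by
  classical
  intro G hG
  let b := Module.Basis.ofVectorSpace k (MvPolynomial τ k ⧸ q)
  let Ψ : MvPolynomial (σ ⊕ τ) k →ₐ[k] MvPolynomial σ k ⊗[k] (MvPolynomial τ k ⧸ q) :=
    aeval (Sum.elim (fun i => (X i : MvPolynomial σ k) ⊗ₜ[k] (1 : MvPolynomial τ k ⧸ q))
      (fun j => (1 : MvPolynomial σ k) ⊗ₜ[k] Ideal.Quotient.mk q (X j)))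
  let c := TensorProduct.equivFinsuppOfBasisRight (M := MvPolynomial σ k) b (Ψ G)
  have hc : Ψ G = c.sum fun i m => m ⊗ₜ b i := by
    rw [← TensorProduct.equivFinsuppOfBasisRight_symm_apply]
    exact ((TensorProduct.equivFinsuppOfBasisRight (M := MvPolynomial σ k) b).symm_apply_apply
      (Ψ G)).symm
  have h1 : ∀ i, c i ∈ p := by
    intro i
    refine mem_of_zeroLocus p _ fun a ha => ?_
    let E : MvPolynomial σ k ⊗[k] (MvPolynomial τ k ⧸ q) →ₐ[k] (MvPolynomial τ k ⧸ q) :=
      Algebra.TensorProduct.lift ((Algebra.ofId k _).comp (aeval a)) (AlgHom.id k _)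
        (fun _ _ => Commute.all _ _)
    have h2 : E.comp Ψ = (Ideal.Quotient.mkₐ k q).comp (Prod_sr a) := by
      apply MvPolynomial.algHom_ext
      rintro (i | j)
      · simp [E, Ψ, Prod_sr, Algebra.ofId_apply]
        rfl
      · simp [E, Ψ, Prod_sr]
    have h3 : E (Ψ G) = 0 := by
      have h4 := DFunLike.congr_fun h2 G
      have h5 : Prod_sr a G ∈ q := by
        refine mem_of_zeroLocus q _ fun y hy => ?_
        rw [Prod_sr_aeval]
        exact Prod_mem.1 hG a ha y hy
      exact h4.trans (Ideal.Quotient.eq_zero_iff_mem.2 h5)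
    rw [hc, Finsupp.sum, map_sum] at h3
    have h4 : ∑ i ∈ c.support, aeval a (c i) • b i = 0 := by
      rw [← h3]
      refine Finset.sum_congr rfl fun i _ => ?_
      have h6 : E (c i ⊗ₜ b i) = algebraMap k _ (aeval a (c i)) * b i := by
        simp [E, Algebra.ofId_apply]
      rw [h6]
      exact Algebra.smul_def (R := k) (A := MvPolynomial τ k ⧸ q) (aeval a (c i)) (b i)
    have h5 := linearIndependent_iff'.1 b.linearIndependent c.support (fun i => aeval a (c i)) h4
    by_cases hi : i ∈ c.support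
    · exact h5 i hi
    · rw [Finsupp.notMem_support_iff.1 hi, map_zero]
  let Y : (MvPolynomial τ k ⧸ q) →ₐ[k] Ω := Ideal.Quotient.liftₐ q (aeval y) hy
  let E : MvPolynomial σ k ⊗[k] (MvPolynomial τ k ⧸ q) →ₐ[k] Ω :=
    Algebra.TensorProduct.lift (aeval x) Y (fun _ _ => Commute.all _ _)
  have h2 : E.comp Ψ = aeval (Sum.elim x y) := by
    apply MvPolynomial.algHom_ext
    rintro (i | j)
    · simp [E, Ψ]
    · simp [E, Ψ, Y]
  rw [mem_kr, ← h2, AlgHom.comp_apply, hc, Finsupp.sum, map_sum]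
  refine Finset.sum_eq_zero fun i _ => ?_
  have h3 : E (c i ⊗ₜ b i) = aeval x (c i) * Y (b i) := by simp [E]
  rw [h3, hx _ (h1 i), zero_mul]

/-- The product of the zero sets of the ideals of two points of the same field contains the
pair. -/
theorem prodI_le_kr {σ τ Ω : Type} [Finite σ] [Finite τ] [Field Ω] [Algebra k Ω] (x : σ → Ω)
    (y : τ → Ω) : prodI (kr k x) (kr k y) ≤ kr k (Sum.elim x y) := by
  have h1 := kr_prime (k := k) x
  have h2 := kr_prime (k := k) y
  exact prodI_le_kr' x y _ _ (fun g hg => (mem_kr x g).1 hg) (fun g hg => (mem_kr y g).1 hg)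

end

end Pool.Agent.Lib.MP_1e3e9c_agS
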