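import Mathlib

/-!
# Definitions: transcendence degrees, kernels of points, cones over families of lines
-/

set_option autoImplicit false

namespace Pool.Agent.Lib.MP_1e3e9c_agS

open MvPolynomial

noncomputable section

/-- The transcendence degree of the coordinate ring of the zero set of an ideal. -/
def td {k : Type} [Field k] {σ : Type} (p : Ideal (MvPolynomial σ k)) : ℕ :=
  Cardinal.toNat (Algebra.trdeg k (MvPolynomial σ k ⧸ p))

/-- The rank of a set of elements of a field with respect to algebraic independence over `k`. -/
def T (k : Type) [Field k] {Ω : Type} [Field Ω] [Algebra k Ω] (s : Set Ω) : ℕ∞ :=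
  (AlgebraicIndependent.matroid k Ω).eRk s

/-- The ideal of a point. -/
def kr (k : Type) [Field k] {σ Ω : Type} [Field Ω] [Algebra k Ω] (x : σ → Ω) :
    Ideal (MvPolynomial σ k) :=
  RingHom.ker (aeval x : MvPolynomial σ k →ₐ[k] Ω)

/-- The ideal `f` defines an irreducible closed set of pairs of vectors, stable under linear
combinations, which contains an independent pair: the cone over an irreducible closed family of
lines (of dimension `td f - 4`). -/
structure IsFam {k : Type} [Field k] {ι : Type} (f : Ideal (MvPolynomial (ι ⊕ ι) k)) : Prop where
  prime : f.IsPrime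
  stable : ∀ (a b c d : k) (u w : ι → k), Sum.elim u w ∈ zeroLocus k f →
    Sum.elim (a • u + b • w) (c • u + d • w) ∈ zeroLocus k f
  nondeg : ∃ u w : ι → k, Sum.elim u w ∈ zeroLocus k f ∧ LinearIndependent k ![u, w]

/-- The value of a linear form with coefficients `h` in a subring. -/
def dot {ι Ω : Type} [Fintype ι] [Field Ω] (h v : ι → Ω) : Ω := ∑ j, h j * v j

end

end Pool.Agent.Lib.MP_1e3e9c_agS
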