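import Pool.Agent.Lib.MP_1e3e9c_agS.Defs

/-!
# The calculus of transcendence degrees, I
-/

set_option autoImplicit false

namespace Pool.Agent.Lib.MP_1e3e9c_agS

open MvPolynomial

noncomputable section

variable {k : Type} [Field k] {Ω : Type} [Field Ω] [Algebra k Ω]

theorem T_mono {s t : Set Ω} (h : s ⊆ t) : T k s ≤ T k t :=
  (AlgebraicIndependent.matroid k Ω).eRk_mono h

/-- Submodularity. -/
theorem T_submod (s t r : Set Ω) : T k (s ∪ t ∪ r) + T k s ≤ T k (s ∪ t) + T k (s ∪ r) := by
  have h := (AlgebraicIndependent.matroid k Ω).eRk_inter_add_eRk_union_le (s ∪ t) (s ∪ r)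
  have h1 : T k s ≤ T k ((s ∪ t) ∩ (s ∪ r)) :=
    T_mono (Set.subset_inter Set.subset_union_left Set.subset_union_left)
  have h2 : s ∪ t ∪ r = (s ∪ t) ∪ (s ∪ r) := by
    ext x
    simp only [Set.mem_union]
    tauto
  rw [h2, add_comm]
  exact (add_le_add_left h1 _).trans h

theorem T_union_le (s t : Set Ω) : T k (s ∪ t) ≤ T k s + T k t :=
  (AlgebraicIndependent.matroid k Ω).eRk_union_le_eRk_add_eRk s t

theorem T_le_encard (s : Set Ω) : T k s ≤ s.encard :=
  (AlgebraicIndependent.matroid k Ω).eRk_le_encard s

/-- Algebraic elements do not change the rank. -/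
theorem T_union_of_algebraic {s t : Set Ω}
    (h : ∀ x ∈ t, IsAlgebraic (Algebra.adjoin k s) x) : T k (s ∪ t) = T k s := by
  refine le_antisymm ?_ (T_mono Set.subset_union_left)
  have h1 : s ∪ t ⊆ (AlgebraicIndependent.matroid k Ω).closure s := by
    rw [AlgebraicIndependent.matroid_closure_eq]
    rintro x (hx | hx)
    · rw [SetLike.mem_coe, Subalgebra.mem_algebraicClosure]
      exact isAlgebraic_algebraMap (⟨x, Algebra.subset_adjoin hx⟩ : Algebra.adjoin k s)
    · rw [SetLike.mem_coe, Subalgebra.mem_algebraicClosure]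
      exact h x hx
  refine (T_mono (k := k) h1).trans ?_
  unfold T
  rw [Matroid.eRk_closure_eq]

/-- Elements of the field generated by `s` do not change the rank. -/
theorem T_union_of_mem {s t : Set Ω} (h : t ⊆ IntermediateField.adjoin k s) :
    T k (s ∪ t) = T k s := by
  refine T_union_of_algebraic (fun x hx => ?_)
  have hx' := h hx
  rw [SetLike.mem_coe, IntermediateField.mem_adjoin_iff_div] at hx'
  obtain ⟨a, ha, b, hb, rfl⟩ := hx'
  rw [div_eq_mul_inv]
  exact (isAlgebraic_algebraMap (⟨a, ha⟩ : Algebra.adjoin k s)).mul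
    (isAlgebraic_algebraMap (⟨b, hb⟩ : Algebra.adjoin k s)).inv

theorem T_le_of_mem {s t : Set Ω} (h : t ⊆ IntermediateField.adjoin k s) : T k t ≤ T k s :=
  (T_mono Set.subset_union_right).trans (T_union_of_mem h).le

/-- New indeterminates increase the rank by their number. -/
theorem T_union_indep {s : Set Ω} {τ : Type} [Finite τ] (t : τ → Ω)
    (h : AlgebraicIndependent (Algebra.adjoin k s) t) :
    T k (s ∪ Set.range t) = T k s + Nat.card τ := by
  classical
  obtain ⟨I, hI⟩ := (AlgebraicIndependent.matroid k Ω).exists_isBasis s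
  have hIs : I ⊆ s := hI.subset
  have hIi : AlgebraicIndependent k (fun i : I => (i : Ω)) := hI.indep
  have hinj : Function.Injective (Subalgebra.inclusion (Algebra.adjoin_mono (R := k) hIs)) :=
    Subalgebra.inclusion_injective _
  have ht : AlgebraicIndependent (Algebra.adjoin k (Set.range fun i : I => (i : Ω))) t := by
    rw [Subtype.range_coe]
    exact AlgebraicIndependent.of_ringHom_of_comp_eq
      (Subalgebra.inclusion (Algebra.adjoin_mono (R := k) hIs)) (RingHom.id Ω) h hinj (by ext; rfl)
  have hsum := hIi.sumElim ht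
  have htinj : Function.Injective t := h.injective
  have hdis : Disjoint I (Set.range t) := by
    rw [Set.disjoint_left]
    rintro x hx ⟨a, rfl⟩
    have := hsum.injective (a₁ := Sum.inl a) (a₂ := Sum.inr ⟨t a, hx⟩) rfl
    exact absurd this (by simp)
  have hind : (AlgebraicIndependent.matroid k Ω).Indep (I ∪ Set.range t) := by
    rw [AlgebraicIndependent.matroid_indep_iff]
    have h1 := AlgebraicIndependent.to_subtype_range hsum
    rw [Set.Sum.elim_range, Subtype.range_coe, Set.union_comm] at h1
    exact h1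
  have hle : T k s + Nat.card τ = (I ∪ Set.range t).encard := by
    rw [Set.encard_union_eq hdis]
    unfold T
    rw [hI.eRk_eq_encard]
    congr 1
    rw [← Set.image_univ, htinj.encard_image, Set.encard_univ, ENat.card_eq_coe_natCard]
  apply le_antisymm
  · refine (T_union_le _ _).trans ?_
    refine add_le_add_right ((T_le_encard _).trans ?_) _
    rw [← Set.image_univ, htinj.encard_image, Set.encard_univ, ENat.card_eq_coe_natCard]
  · rw [hle, ← hind.eRk_eq_encard]
    exact T_mono (Set.union_subset_union_left _ hIs)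

/-- The rank of the image of a set under an injective homomorphism. -/
theorem eRk_image {A B : Type} [CommRing A] [IsDomain A] [CommRing B] [IsDomain B] [Algebra k A] [Algebra k B]
    (φ : A →ₐ[k] B) (hφ : Function.Injective φ) (s : Set A) :
    (AlgebraicIndependent.matroid k B).eRk (φ '' s) = (AlgebraicIndependent.matroid k A).eRk s := by
  apply le_antisymm
  · rw [Matroid.eRk_le_iff]
    intro I hI hind
    obtain ⟨J, hJ, rfl⟩ := Set.subset_image_iff.1 hI
    rw [hφ.encard_image]
    refine Matroid.Indep.encard_le_eRk_of_subset ?_ hJ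
    rw [AlgebraicIndependent.matroid_indep_iff] at hind ⊢
    have h1 : AlgebraicIndependent k (fun i : J => φ i) := by
      have h2 := AlgebraicIndependent.comp hind (fun i : J => (⟨φ i, Set.mem_image_of_mem φ i.2⟩ : φ '' J))
        (fun a b h => Subtype.ext (hφ (congrArg Subtype.val h)))
      exact h2
    exact (AlgHom.algebraicIndependent_iff φ hφ (x := fun i : J => (i : A))).1 h1
  · rw [Matroid.eRk_le_iff]
    intro I hI hind
    rw [← hφ.encard_image]
    refine Matroid.Indep.encard_le_eRk_of_subset ?_ (Set.image_mono hI)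
    rw [AlgebraicIndependent.matroid_indep_iff] at hind ⊢
    have h1 : AlgebraicIndependent k (fun i : I => φ i) :=
      (AlgHom.algebraicIndependent_iff φ hφ (x := fun i : I => (i : A))).2 hind
    have h2 := AlgebraicIndependent.to_subtype_range h1
    rw [← Set.image_eq_range] at h2
    exact h2

/-- The rank is unchanged in a larger field. -/
theorem T_image {Ω' : Type} [Field Ω'] [Algebra k Ω'] (φ : Ω →ₐ[k] Ω') (s : Set Ω) :
    T k (φ '' s) = T k s := eRk_image φ φ.toRingHom.injective s

theorem kr_prime {σ : Type} (x : σ → Ω) : (kr k x).IsPrime := RingHom.ker_isPrime _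

theorem mem_kr {σ : Type} (x : σ → Ω) (g : MvPolynomial σ k) : g ∈ kr k x ↔ aeval x g = 0 := Iff.rfl

/-- The rank of the coordinates of a point is the transcendence degree of its ideal. -/
theorem T_range {σ : Type} [Finite σ] (x : σ → Ω) : T k (Set.range x) = (td (kr k x) : ℕ∞) := by
  classical
  have := kr_prime (k := k) x
  set A := MvPolynomial σ k ⧸ kr k x with hA
  let φ : A →ₐ[k] Ω := Ideal.kerLiftAlg (aeval x : MvPolynomial σ k →ₐ[k] Ω)
  have hφ : Function.Injective φ := Ideal.kerLiftAlg_injective _
  set y : σ → A := fun i => Ideal.Quotient.mkₐ k (kr k x) (X i) with hy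
  have hxy : Set.range x = φ '' Set.range y := by
    rw [← Set.range_comp]
    congr 1
    funext i
    have h0 : φ (y i) = aeval x (X i : MvPolynomial σ k) :=
      Ideal.kerLiftAlg_mk (aeval x : MvPolynomial σ k →ₐ[k] Ω) (X i)
    rw [aeval_X] at h0
    exact h0.symm
  have h1 : T k (Set.range x) = (AlgebraicIndependent.matroid k A).eRk (Set.range y) := by
    rw [hxy]
    exact eRk_image φ hφ _
  have hadj : Algebra.adjoin k (Set.range y) = ⊤ := by
    have h2 : Set.range y = Ideal.Quotient.mkₐ k (kr k x) '' Set.range (X : σ → MvPolynomial σ k) := by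
      rw [← Set.range_comp]
      rfl
    rw [h2, ← AlgHom.map_adjoin, MvPolynomial.adjoin_range_X, Algebra.map_top, AlgHom.range_eq_top]
    exact Ideal.Quotient.mkₐ_surjective k _
  have h3 : (AlgebraicIndependent.matroid k A).eRk (Set.range y) =
      (AlgebraicIndependent.matroid k A).eRank := by
    rw [← Matroid.eRk_closure_eq, AlgebraicIndependent.matroid_closure_eq, ← Matroid.eRk_ground]
    congr 1
    rw [AlgebraicIndependent.matroid_e, Set.eq_univ_iff_forall]
    intro a
    rw [SetLike.mem_coe, Subalgebra.mem_algebraicClosure]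
    have ha : a ∈ Algebra.adjoin k (Set.range y) := by
      rw [hadj]
      trivial
    exact isAlgebraic_algebraMap (⟨a, ha⟩ : Algebra.adjoin k (Set.range y))
  have h4 : (AlgebraicIndependent.matroid k A).eRank = Cardinal.toENat (Algebra.trdeg k A) := by
    rw [← Matroid.toENat_cRank_eq, AlgebraicIndependent.matroid_cRank_eq]
  have hfin : T k (Set.range x) ≠ ⊤ := by
    refine ne_top_of_le_ne_top ?_ (T_le_encard _)
    exact (Set.finite_range x).encard_lt_top.ne
  rw [h1, h3, h4] at hfin ⊢
  unfold td
  have h5 : Algebra.trdeg k A < Cardinal.aleph0 := by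
    by_contra hc
    exact hfin (Cardinal.toENat_eq_top.2 (not_lt.1 hc))
  rw [← Cardinal.cast_toNat_of_lt_aleph0 h5, Cardinal.toNat_natCast, map_natCast]

/-- A prime ideal has a generic point in its residue field. -/
theorem exists_generic {σ : Type} (p : Ideal (MvPolynomial σ k)) [p.IsPrime] :
    ∃ (K : Type) (_ : Field K) (_ : Algebra k K) (x : σ → K), kr k x = p := by
  refine ⟨FractionRing (MvPolynomial σ k ⧸ p), inferInstance, inferInstance,
    fun i => algebraMap (MvPolynomial σ k ⧸ p) (FractionRing (MvPolynomial σ k ⧸ p))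
      (Ideal.Quotient.mk p (X i)), ?_⟩
  have h1 : (aeval (fun i => algebraMap (MvPolynomial σ k ⧸ p) (FractionRing (MvPolynomial σ k ⧸ p))
      (Ideal.Quotient.mk p (X i))) : MvPolynomial σ k →ₐ[k] FractionRing (MvPolynomial σ k ⧸ p)) =
      (IsScalarTower.toAlgHom k (MvPolynomial σ k ⧸ p) (FractionRing (MvPolynomial σ k ⧸ p))).comp
        (Ideal.Quotient.mkₐ k p) := by
    apply MvPolynomial.algHom_ext
    intro i
    rw [aeval_X]
    rfl
  ext g
  rw [mem_kr, h1, AlgHom.comp_apply]
  rw [IsScalarTower.coe_toAlgHom', Ideal.Quotient.mkₐ_eq_mk]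
  rw [map_eq_zero_iff _ (IsFractionRing.injective (MvPolynomial σ k ⧸ p) (FractionRing (MvPolynomial σ k ⧸ p)))]
  exact Ideal.Quotient.eq_zero_iff_mem

end

end Pool.Agent.Lib.MP_1e3e9c_agS
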