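import Pool.Agent.Lib.MP_1e3e9c_agS.ExtA

/-!
# The constant function, I
-/

set_option autoImplicit false

namespace Pool.Agent.Lib.MP_1e3e9c_agS

open MvPolynomial

noncomputable section

variable {k : Type} [Field k] [IsAlgClosed k] {ι : Type} [Fintype ι]
  {f : Ideal (MvPolynomial (ι ⊕ ι) k)}

omit [Fintype ι] in
/-- Over a valuation ring a line has a basis with independent reduction.

Proof. Let `(i, j)` be the pair with the minor `u i * w j - u j * w i` of the largest valuation; it is not
zero, and the inverse of the matrix `(u i, u j; w i, w j)` does it: the new coordinates are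
quotients of minors by this minor. -/
theorem exists_normal_aux [Finite ι] {K : Type} [Field K] (O : ValuationSubring K) (u w : ι → K)
    (h : LinearIndependent K ![u, w]) :
    ∃ a b c d : K, a * d - b * c ≠ 0 ∧ (∀ i, (a • u + b • w) i ∈ O) ∧
      (∀ i, (c • u + d • w) i ∈ O) ∧ ∃ i j, (a • u + b • w) i = 1 ∧ (a • u + b • w) j = 0 ∧
        (c • u + d • w) i = 0 ∧ (c • u + d • w) j = 1 := by
  classical
  obtain ⟨i₀, j₀, h0⟩ := (indep_iff u w).1 h
  have : Fintype ι := Fintype.ofFinite ι
  obtain ⟨p, -, hp⟩ := (Finset.univ : Finset (ι × ι)).exists_max_image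
    (fun p => O.valuation (u p.1 * w p.2 - u p.2 * w p.1)) ⟨(i₀, j₀), Finset.mem_univ _⟩
  obtain ⟨i, j⟩ := p
  simp only at hp
  set m : K := u i * w j - u j * w i with hm
  have hm0 : m ≠ 0 := by
    intro h1
    have h2 := hp (i₀, j₀) (Finset.mem_univ _)
    rw [h1, map_zero, le_zero_iff, map_eq_zero] at h2
    exact h0 h2
  have hmem : ∀ a b : ι, (u a * w b - u b * w a) / m ∈ O := by
    intro a b
    rw [← O.valuation_le_one_iff, map_div₀]
    have h2 := hp (a, b) (Finset.mem_univ _)
    have h3 : O.valuation m ≠ 0 := by
      rw [Ne, map_eq_zero]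
      exact hm0
    exact div_le_one_of_le₀ h2 zero_le
  have e1 : ∀ l, ((w j / m) • u + (-(u j) / m) • w) l = (u l * w j - u j * w l) / m := by
    intro l
    simp only [Pi.add_apply, Pi.smul_apply, smul_eq_mul]
    ring
  have e2 : ∀ l, ((-(w i) / m) • u + (u i / m) • w) l = (u i * w l - u l * w i) / m := by
    intro l
    simp only [Pi.add_apply, Pi.smul_apply, smul_eq_mul]
    ring
  refine ⟨w j / m, -(u j) / m, -(w i) / m, u i / m, ?_, fun l => ?_, fun l => ?_, i, j, ?_, ?_, ?_, ?_⟩
  · have e3 : w j / m * (u i / m) - -(u j) / m * (-(w i) / m) = 1 / m := by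
      field_simp
      rw [hm]
      ring
    rw [e3]
    exact one_div_ne_zero hm0
  · rw [e1]
    exact hmem l j
  · rw [e2]
    exact hmem i l
  · rw [e1, ← hm, div_self hm0]
  · rw [e1, sub_self, zero_div]
  · rw [e2, sub_self, zero_div]
  · rw [e2, ← hm, div_self hm0]

/-- Over a valuation ring a line has a basis with independent reduction.

Proof. Let `(i, j)` be the pair with the minor `u i * w j - u j * w i` of the largest valuation; it is not
zero, and the inverse of the matrix `(u i, u j; w i, w j)` does it: the new coordinates are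
quotients of minors by this minor. -/
theorem exists_normal {K : Type} [Field K] (O : ValuationSubring K) (u w : ι → K)
    (h : LinearIndependent K ![u, w]) :
    ∃ a b c d : K, a * d - b * c ≠ 0 ∧ (∀ i, (a • u + b • w) i ∈ O) ∧
      (∀ i, (c • u + d • w) i ∈ O) ∧ ∃ i j, (a • u + b • w) i = 1 ∧ (a • u + b • w) j = 0 ∧
        (c • u + d • w) i = 0 ∧ (c • u + d • w) j = 1 :=
  exists_normal_aux O u w h

theorem dot_comb {K : Type} [Field K] (h u w : ι → K) (a b : K) :
    dot h (a • u + b • w) = a * dot h u + b * dot h w := by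
  simp only [dot, Pi.add_apply, Pi.smul_apply, smul_eq_mul, Finset.mul_sum,
    ← Finset.sum_add_distrib]
  refine Finset.sum_congr rfl fun i _ => ?_
  ring

/-- An element is algebraic over a subfield if it is in all the valuation rings which contain it. -/
theorem algebraic_of_mem {K : Type} [Field K] [Algebra k K] (κ : IntermediateField k K) (θ : K)
    (h : ∀ O : ValuationSubring K, (∀ x ∈ κ, x ∈ O) → θ ∈ O) : IsAlgebraic κ θ := by
  have h1 := iInf_valuationSubring_superset (s := (κ : Set K))
  have h2 : θ ∈ (integralClosure (Subring.closure (κ : Set K)) K).toSubring := by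
    rw [← h1, Subring.mem_iInf]
    rintro ⟨V, hV⟩
    exact h V fun x hx => hV hx
  have h3 : IsIntegral (Subring.closure (κ : Set K)) θ := h2
  obtain ⟨p, hp, hpe⟩ := h3
  have hcl : ∀ x ∈ Subring.closure (κ : Set K), x ∈ κ := by
    intro x hx
    have h4 : Subring.closure (κ : Set K) ≤ κ.toSubfield.toSubring := Subring.closure_le.2 fun y hy => hy
    exact h4 hx
  let j : Subring.closure (κ : Set K) →+* κ :=
    { toFun := fun x => ⟨x.1, hcl x.1 x.2⟩
      map_one' := rfl
      map_mul' := fun _ _ => rfl
      map_zero' := rfl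
      map_add' := fun _ _ => rfl }
  have h5 : IsIntegral κ θ := by
    refine ⟨p.map j, hp.map j, ?_⟩
    rw [Polynomial.eval₂_map]
    exact hpe
  exact h5.isAlgebraic

/-- The function `θ` is constant.

`f` is the cone over a family of lines, the linear space `g = 0` contains no line of the family,
`(u, w)` is a line of the family over a field `K`, the forms `h s` have coefficients in a subfield `κ`, and
`h s = θ g s` on the line for all `s`.  Then `θ` is algebraic over `κ`.

Proof. It is enough that `θ` belongs to every valuation ring `O` of `K` which contains `κ`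
(otherwise `θ` is not integral over `κ`, `θ⁻¹` is not a unit of `κ[θ⁻¹]`, and a valuation ring has `θ⁻¹` in its
maximal ideal: `Ideal.image_subset_nonunits_valuationSubring` or `bot_lt...`). By `exists_normal` we may
take `u`, `w` in `O` with independent reductions `ū`, `w̄` in the residue field `L` of `O` (`stable_ext`); then
`(ū, w̄)` is in the zero set of `f` over `L`, by `noLine_ext` some `g s · u` or `g s · w` is a unit of `O`, and
`θ = (h s · u) / (g s · u)` is in `O`. -/
theorem theta_algebraic (hf : IsFam f) {c : ℕ} (g : Fin c → ι → k)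
    (hL : ∀ u w : ι → k, Sum.elim u w ∈ zeroLocus k f → LinearIndependent k ![u, w] →
      ∃ s, dot (g s) u ≠ 0 ∨ dot (g s) w ≠ 0)
    {K : Type} [Field K] [Algebra k K] (κ : IntermediateField k K) (h : Fin c → ι → K)
    (hκ : ∀ s j, h s j ∈ κ) (u w : ι → K) (hV : Sum.elim u w ∈ zeroLocus K f)
    (hi : LinearIndependent K ![u, w]) (θ : K)
    (hu : ∀ s, dot (h s) u = θ * dot (fun j => algebraMap k K (g s j)) u)
    (hw : ∀ s, dot (h s) w = θ * dot (fun j => algebraMap k K (g s j)) w) :
    IsAlgebraic κ θ := by
  refine algebraic_of_mem κ θ fun O hO => ?_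
  obtain ⟨a, b, c', d, -, hU, hW, i, j, hUi, hUj, hWi, hWj⟩ := exists_normal O u w hi
  have hst := hf.stable_ext a b c' d u w hV
  set U : ι → K := a • u + b • w with hUdef
  set W : ι → K := c' • u + d • w with hWdef
  have hkO : ∀ x : k, algebraMap k K x ∈ O := fun x => hO _ (κ.algebraMap_mem x)
  let jk : k →+* O :=
    { toFun := fun x => ⟨algebraMap k K x, hkO x⟩
      map_one' := Subtype.ext (map_one _)
      map_mul' := fun _ _ => Subtype.ext (map_mul _ _ _)
      map_zero' := Subtype.ext (map_zero _)
      map_add' := fun _ _ => Subtype.ext (map_add _ _ _) }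
  letI : Algebra k O := jk.toAlgebra
  let L := IsLocalRing.ResidueField O
  let π : O →+* L := IsLocalRing.residue O
  letI : Algebra k L := (π.comp jk).toAlgebra
  have hkL : ∀ x : k, algebraMap k L x = π (jk x) := fun x => rfl
  let U' : ι → O := fun l => ⟨U l, hU l⟩
  let W' : ι → O := fun l => ⟨W l, hW l⟩
  -- the reduction is in the zero set
  have hred : Sum.elim (fun l => π (U' l)) (fun l => π (W' l)) ∈ zeroLocus L f := by
    rw [mem_zeroLocus_iff] at hst ⊢
    intro p hp
    have h1 := hst p hp
    have h2 : O.subtype (aeval (Sum.elim U' W') p) = aeval (Sum.elim U W) p := by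
      rw [map_aeval]
      have e : (fun l => O.subtype (Sum.elim U' W' l)) = Sum.elim U W := by
        funext l
        rcases l with l | l
        · rfl
        · rfl
      rw [e]
      rfl
    have h3 : aeval (Sum.elim U' W') p = 0 := by
      rw [h1] at h2
      exact Subtype.ext h2
    have h4 : π (aeval (Sum.elim U' W') p) =
        aeval (Sum.elim (fun l => π (U' l)) (fun l => π (W' l))) p := by
      rw [map_aeval]
      have e : (fun l => π (Sum.elim U' W' l)) =
          Sum.elim (fun l => π (U' l)) (fun l => π (W' l)) := by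
        funext l
        rcases l with l | l
        · rfl
        · rfl
      rw [e]
      rfl
    rw [← h4, h3, map_zero]
  have hind : LinearIndependent L ![fun l => π (U' l), fun l => π (W' l)] := by
    rw [indep_iff]
    refine ⟨i, j, ?_⟩
    have e1 : U' i = 1 := Subtype.ext hUi
    have e2 : U' j = 0 := Subtype.ext hUj
    have e3 : W' i = 0 := Subtype.ext hWi
    have e4 : W' j = 1 := Subtype.ext hWj
    simp only [e1, e2, e3, e4, map_one, map_zero, mul_one, mul_zero, sub_zero]
    exact one_ne_zero
  -- the conclusion from a unit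
  have key : ∀ (s : Fin c) (v : ι → K) (v' : ι → O), (∀ l, (v' l : K) = v l) →
      dot (h s) v = θ * dot (fun j => algebraMap k K (g s j)) v →
      dot (fun j => algebraMap k L (g s j)) (fun l => π (v' l)) ≠ 0 → θ ∈ O := by
    intro s v v' hv hθ hne
    obtain ⟨y, hy⟩ : ∃ y : O, y = ∑ l, jk (g s l) * v' l := ⟨_, rfl⟩
    have hπ : π y = dot (fun j => algebraMap k L (g s j)) (fun l => π (v' l)) := by
      rw [hy, map_sum]
      refine Finset.sum_congr rfl fun l _ => ?_
      rw [map_mul]
      rfl
    have hunit : IsUnit y := by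
      rw [← IsLocalRing.residue_ne_zero_iff_isUnit]
      show π y ≠ 0
      rw [hπ]
      exact hne
    have hyK : (y : K) = dot (fun j => algebraMap k K (g s j)) v := by
      rw [hy]
      show O.subtype (∑ l, jk (g s l) * v' l) = _
      rw [map_sum]
      refine Finset.sum_congr rfl fun l _ => ?_
      rw [map_mul]
      show algebraMap k K (g s l) * (v' l : K) = _
      rw [hv]
    have hhO : dot (h s) v ∈ O := by
      refine sum_mem fun l _ => ?_
      rw [← hv]
      exact O.mul_mem _ _ (hO _ (hκ s l)) (v' l).2
    obtain ⟨z, hz⟩ := hunit.exists_right_inv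
    have hz' : (y : K) * (z : K) = 1 := congrArg Subtype.val hz
    have e : θ = dot (h s) v * (z : K) := by
      rw [hθ, ← hyK, mul_assoc, hz', mul_one]
    rw [e]
    exact O.mul_mem _ _ hhO z.2
  have hcomb : ∀ (s : Fin c) (x y : K), dot (h s) (x • u + y • w) =
      θ * dot (fun j => algebraMap k K (g s j)) (x • u + y • w) := by
    intro s x y
    rw [dot_comb, dot_comb, hu, hw]
    ring
  obtain ⟨s, hs | hs⟩ := noLine_ext g hL _ _ hred hind
  · exact key s U U' (fun l => rfl) (hcomb s a b) hs
  · exact key s W W' (fun l => rfl) (hcomb s c' d) hs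

end

end Pool.Agent.Lib.MP_1e3e9c_agS
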