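import Pool.Agent.Lib.MP_1e3e9c_agS.ExtA

/-!
# The constant function, II
-/

set_option autoImplicit false

namespace Pool.Agent.Lib.MP_1e3e9c_agS

open MvPolynomial

noncomputable section

/-- The homogenised minimal polynomial. -/
private def ExtC_P {κ : Type} [Field κ] {σ : Type} (m : Polynomial κ) (A B : MvPolynomial σ κ) :
    MvPolynomial σ κ :=
  ∑ i ∈ Finset.range (m.natDegree + 1), C (m.coeff i) * A ^ i * B ^ (m.natDegree - i)

private theorem ExtC_aeval {κ K : Type} [Field κ] [Field K] [Algebra κ K] {σ : Type}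
    (m : Polynomial κ) (A B : MvPolynomial σ κ) (x : σ → K) :
    aeval x (ExtC_P m A B) = ∑ i ∈ Finset.range (m.natDegree + 1),
      algebraMap κ K (m.coeff i) * aeval x A ^ i * aeval x B ^ (m.natDegree - i) := by
  unfold ExtC_P
  rw [map_sum]
  refine Finset.sum_congr rfl fun i _ => ?_
  rw [map_mul, map_mul, map_pow, map_pow, aeval_C]

private theorem ExtC_aeval_root {κ K : Type} [Field κ] [Field K] [Algebra κ K] {σ : Type}
    (m : Polynomial κ) (A B : MvPolynomial σ κ) (x : σ → K) (θ : K)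
    (hm : Polynomial.aeval θ m = 0) (hA : aeval x A = θ * aeval x B) :
    aeval x (ExtC_P m A B) = 0 := by
  have h1 : aeval x (ExtC_P m A B) = aeval x B ^ m.natDegree * Polynomial.aeval θ m := by
    rw [ExtC_aeval, Polynomial.aeval_eq_sum_range, Finset.mul_sum]
    refine Finset.sum_congr rfl fun i hi => ?_
    have hi' : i ≤ m.natDegree := Nat.lt_succ_iff.mp (Finset.mem_range.mp hi)
    rw [hA, mul_pow, Algebra.smul_def]
    calc algebraMap κ K (m.coeff i) * (θ ^ i * aeval x B ^ i) * aeval x B ^ (m.natDegree - i)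
        = aeval x B ^ i * aeval x B ^ (m.natDegree - i) * (algebraMap κ K (m.coeff i) * θ ^ i) := by
          ring
      _ = _ := by rw [← pow_add, Nat.add_sub_cancel' hi']
  rw [h1, hm, mul_zero]

private theorem ExtC_aeval_zero {κ K : Type} [Field κ] [Field K] [Algebra κ K] {σ : Type}
    (m : Polynomial κ) (A B : MvPolynomial σ κ) (x : σ → K) (hA : aeval x A = 0) :
    aeval x (ExtC_P m A B) = algebraMap κ K (m.coeff 0) * aeval x B ^ m.natDegree := by
  rw [ExtC_aeval, Finset.sum_eq_single 0]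
  · rw [pow_zero, mul_one, Nat.sub_zero]
  · intro i _ hi
    rw [hA, zero_pow hi, mul_zero, zero_mul]
  · intro h
    exact absurd (Finset.mem_range.mpr (Nat.succ_pos _)) h

/-- The linear form with coefficients `h`, in the variables `e j`. -/
private def ExtC_L {κ σ ι : Type} [Field κ] [Fintype ι] (h : ι → κ) (e : ι → σ) :
    MvPolynomial σ κ := ∑ j, C (h j) * X (e j)

private theorem ExtC_aeval_L {κ K σ ι : Type} [Field κ] [Field K] [Algebra κ K] [Fintype ι]
    (h : ι → κ) (e : ι → σ) (x : σ → K) :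
    aeval x (ExtC_L h e) = dot (fun j => algebraMap κ K (h j)) (fun j => x (e j)) := by
  unfold ExtC_L dot
  rw [map_sum]
  refine Finset.sum_congr rfl fun j _ => ?_
  rw [map_mul, aeval_C, aeval_X]

/-- The contradiction, for one of the two vectors. -/
private theorem ExtC_contra {k : Type} [Field k] {ι : Type} [Fintype ι]
    {K : Type} [Field K] [Algebra k K] (κ : IntermediateField k K) (g : ι → k) (h : ι → K)
    (hκ : ∀ j, h j ∈ κ) (e : ι → ι ⊕ ι) (x x₀ : ι ⊕ ι → K)
    (θ : K) (hθ : IsAlgebraic κ θ) (hne : θ ≠ 0)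
    (hu : dot h (fun j => x (e j)) = θ * dot (fun j => algebraMap k K (g j)) (fun j => x (e j)))
    (h0u : dot h (fun j => x₀ (e j)) = 0)
    (hg : dot (fun j => algebraMap k K (g j)) (fun j => x₀ (e j)) ≠ 0)
    (hspec : ∀ P : MvPolynomial (ι ⊕ ι) κ, aeval x P = 0 → aeval x₀ P = 0) : False := by
  have hint : IsIntegral κ θ := hθ.isIntegral
  have hm0 : (minpoly κ θ).coeff 0 ≠ 0 := minpoly.coeff_zero_ne_zero hint hne
  let A : MvPolynomial (ι ⊕ ι) κ := ExtC_L (fun j => (⟨h j, hκ j⟩ : κ)) e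
  let B : MvPolynomial (ι ⊕ ι) κ := ExtC_L (fun j => algebraMap k κ (g j)) e
  have hA : ∀ y : ι ⊕ ι → K, aeval y A = dot h (fun j => y (e j)) := fun y =>
    ExtC_aeval_L (fun j => (⟨h j, hκ j⟩ : κ)) e y
  have hB : ∀ y : ι ⊕ ι → K,
      aeval y B = dot (fun j => algebraMap k K (g j)) (fun j => y (e j)) := fun y =>
    ExtC_aeval_L (fun j => algebraMap k κ (g j)) e y
  have h1 : aeval x (ExtC_P (minpoly κ θ) A B) = 0 :=
    ExtC_aeval_root _ A B x θ (minpoly.aeval κ θ) (by rw [hA, hB]; exact hu)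
  have h2 := hspec _ h1
  rw [ExtC_aeval_zero _ A B x₀ (by rw [hA]; exact h0u), hB] at h2
  rcases mul_eq_zero.mp h2 with h3 | h3
  · exact hm0 ((map_eq_zero_iff _ (algebraMap κ K).injective).mp h3)
  · exact hg (eq_zero_of_pow_eq_zero h3)

variable {k : Type} [Field k] [IsAlgClosed k] {ι : Type} [Fintype ι]
  {f : Ideal (MvPolynomial (ι ⊕ ι) k)}

/-- If moreover the line specialises over `κ` to a line on which all `h s` vanish, then `θ = 0`.

Proof. If `θ ≠ 0` let `m` be its minimal polynomial over `κ`, of degree `n`, `m 0 ≠ 0`. By `noLine_ext` there is an `s` with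
`y₀ = g s · u₀ ≠ 0` (or with `w₀`, the same argument). The polynomial `P = (g s · U) ^ n * m ((h s · U) / (g s · U))` over `κ`
vanishes at `(u, w)`, so at `(u₀, w₀)`, where it is `y₀ ^ n * m 0 ≠ 0`. -/
theorem theta_zero (hf : IsFam f) {c : ℕ} (g : Fin c → ι → k)
    (hL : ∀ u w : ι → k, Sum.elim u w ∈ zeroLocus k f → LinearIndependent k ![u, w] →
      ∃ s, dot (g s) u ≠ 0 ∨ dot (g s) w ≠ 0)
    {K : Type} [Field K] [Algebra k K] (κ : IntermediateField k K) (h : Fin c → ι → K)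
    (hκ : ∀ s j, h s j ∈ κ) (u w : ι → K)
    (θ : K) (hθ : IsAlgebraic κ θ)
    (hu : ∀ s, dot (h s) u = θ * dot (fun j => algebraMap k K (g s j)) u)
    (hw : ∀ s, dot (h s) w = θ * dot (fun j => algebraMap k K (g s j)) w)
    (u₀ w₀ : ι → K) (hV0 : Sum.elim u₀ w₀ ∈ zeroLocus K f) (hi0 : LinearIndependent K ![u₀, w₀])
    (h0u : ∀ s, dot (h s) u₀ = 0) (h0w : ∀ s, dot (h s) w₀ = 0)
    (hspec : ∀ P : MvPolynomial (ι ⊕ ι) κ, aeval (Sum.elim u w) P = 0 →
      aeval (Sum.elim u₀ w₀) P = 0) : θ = 0 := by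
  have _ := hf
  by_contra hne
  obtain ⟨s, hs⟩ := noLine_ext g hL u₀ w₀ hV0 hi0
  rcases hs with hs | hs
  · exact ExtC_contra κ (g s) (h s) (hκ s) Sum.inl (Sum.elim u w) (Sum.elim u₀ w₀) θ hθ hne
      (hu s) (h0u s) hs hspec
  · exact ExtC_contra κ (g s) (h s) (hκ s) Sum.inr (Sum.elim u w) (Sum.elim u₀ w₀) θ hθ hne
      (hw s) (h0w s) hs hspec

end

end Pool.Agent.Lib.MP_1e3e9c_agS
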