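import Pool.Agent.Lib.MP_1e3e9c_agS.MeetA

/-!
# The locus of proportional restrictions near the diagonal
-/

set_option autoImplicit false

namespace Pool.Agent.Lib.MP_1e3e9c_agS

open MvPolynomial

noncomputable section

variable {k : Type} [Field k] [IsAlgClosed k] {ι : Type} [Fintype ι]
  {f : Ideal (MvPolynomial (ι ⊕ ι) k)}

/-- The second argument of the forms: the first or the second vector of the pair. -/
def MeetB_side (b : Bool) (j : ι) : ι ⊕ ι := if b then Sum.inr j else Sum.inl j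

/-- The value of the form `g s` at a vector of the second pair, as a polynomial. -/
def MeetB_y {c : ℕ} (g : Fin c → ι → k) (e : Fin c × Bool) :
    MvPolynomial (((ι ⊕ ι) ⊕ (Fin c × ι)) ⊕ (ι ⊕ ι)) k :=
  ∑ j, C (g e.1 j) * X (Sum.inr (MeetB_side e.2 j))

/-- The value of the form `h s` at a vector of the second pair, as a polynomial. -/
def MeetB_x (k : Type) [Field k] {ι : Type} [Fintype ι] {c : ℕ} (e : Fin c × Bool) :
    MvPolynomial (((ι ⊕ ι) ⊕ (Fin c × ι)) ⊕ (ι ⊕ ι)) k :=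
  ∑ j, X (Sum.inl (Sum.inr (e.1, j))) * X (Sum.inr (MeetB_side e.2 j))

theorem MeetB_aeval_y {K : Type} [Field K] [Algebra k K] {c : ℕ} (g : Fin c → ι → k)
    (e : Fin c × Bool) (a : (ι ⊕ ι) ⊕ (Fin c × ι) → K) (z : ι ⊕ ι → K) :
    aeval (Sum.elim a z) (MeetB_y g e) =
      dot (fun j => algebraMap k K (g e.1 j)) (fun j => z (MeetB_side e.2 j)) := by
  simp [MeetB_y, dot, map_sum]

theorem MeetB_aeval_x {K : Type} [Field K] [Algebra k K] {c : ℕ}
    (e : Fin c × Bool) (z₀ : ι ⊕ ι → K) (h : Fin c × ι → K) (z : ι ⊕ ι → K) :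
    aeval (Sum.elim (Sum.elim z₀ h) z) (MeetB_x k e) =
      dot (fun j => h (e.1, j)) (fun j => z (MeetB_side e.2 j)) := by
  simp [MeetB_x, dot, map_sum]

/-- The generic line is a line. -/
theorem MeetB_indep (hf : IsFam f) {K : Type} [Field K] [Algebra k K] (z₁ : ι ⊕ ι → K)
    (hz : kr k z₁ = f) :
    LinearIndependent K ![fun j => z₁ (Sum.inl j), fun j => z₁ (Sum.inr j)] := by
  obtain ⟨u, w, huw, hi⟩ := hf.nondeg
  obtain ⟨i, j, hij⟩ := (indep_iff u w).1 hi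
  refine (indep_iff _ _).2 ⟨i, j, ?_⟩
  intro h0
  have hmem : (X (Sum.inl i) * X (Sum.inr j) - X (Sum.inl j) * X (Sum.inr i) :
      MvPolynomial (ι ⊕ ι) k) ∈ kr k z₁ := by
    rw [mem_kr]
    simp only [map_sub, map_mul, aeval_X]
    exact h0
  rw [hz] at hmem
  have := huw _ hmem
  apply hij
  simpa using this

/-- D2. The locus `h = θ g` near the diagonal.

Proof. Take `z₁, h₁` over `K₁` from `exists_bundle`, `p = kr (z₁, h₁)`. `r = prodI p f` is prime with
`td r ≥ td p + td f`, and `r ≤ 𝔡 = kr (z₁, h₁, z₁)`: if `G ∈ r` then `G (Z, H, Z)` vanishes on the zero set of `p` over `k` (a zero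
`(z, η)` of `p` has `z` in the zero set of `f`), so it is in `p` (`mem_of_zeroLocus`). By `noLine_ext` one of the `2 c`
functions `y_e` (`g s · u`, `g s · w`) is not zero at `z₁`: call it `y_1`, and `x_e` the same
functions with `h`. `x_e(z₁) = 0`. Apply `krull_finset` to the `2 c - 1` polynomials `x_e y_1 - x_1 y_e`, `e ≠ 1`, between `r` and `𝔡`; let
`(z₀, h, z)` be a generic point of the resulting prime ideal `q` (`exists_generic`). `y_1(z) ≠ 0` since `y_1 ∉ 𝔡`; `θ = x_1(z) / y_1(z)`.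
`kr z₀ = f` and `kr (z₀, h) = p`: `r ≤ q ≤ 𝔡` and `r`, `𝔡` have the same intersection `p` with the polynomials in `Z₀, H`.
If `P (z₀, h, z) = 0` then `P ∈ q ≤ 𝔡`, `P (z₁, h₁, z₁) = 0`, so `P (Z, H, Z) ∈ p`, `P (z₀, h, z₀) = 0`. -/
theorem exists_theta (hf : IsFam f) {c : ℕ} (hc : 0 < c) (g : Fin c → ι → k)
    (hL : ∀ u w : ι → k, Sum.elim u w ∈ zeroLocus k f → LinearIndependent k ![u, w] →
      ∃ s, dot (g s) u ≠ 0 ∨ dot (g s) w ≠ 0) :
    ∃ (K : Type) (_ : Field K) (_ : Algebra k K) (z₀ : ι ⊕ ι → K) (h : Fin c × ι → K)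
      (z : ι ⊕ ι → K) (θ : K),
      kr k z₀ = f ∧ (∀ s, dot (fun j => h (s, j)) (fun j => z₀ (Sum.inl j)) = 0) ∧
      (∀ s, dot (fun j => h (s, j)) (fun j => z₀ (Sum.inr j)) = 0) ∧ z ∈ zeroLocus K f ∧
      (∀ s, dot (fun j => h (s, j)) (fun j => z (Sum.inl j)) =
        θ * dot (fun j => algebraMap k K (g s j)) (fun j => z (Sum.inl j))) ∧
      (∀ s, dot (fun j => h (s, j)) (fun j => z (Sum.inr j)) =
        θ * dot (fun j => algebraMap k K (g s j)) (fun j => z (Sum.inr j))) ∧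
      (∀ P : MvPolynomial (((ι ⊕ ι) ⊕ (Fin c × ι)) ⊕ (ι ⊕ ι)) k,
        aeval (Sum.elim (Sum.elim z₀ h) z) P = 0 → aeval (Sum.elim (Sum.elim z₀ h) z₀) P = 0) ∧
      2 * td f + c * (Fintype.card ι - 2) + 1 ≤ td (kr k (Sum.elim (Sum.elim z₀ h) z)) + 2 * c := by
  classical
  have := hf.prime
  obtain ⟨K₁, _, _, z₁, h₁, hz₁, hu₁, hw₁, htd₁⟩ := exists_bundle hf c
  have hp : (kr k (Sum.elim z₁ h₁)).IsPrime := kr_prime _
  have hr : (prodI (kr k (Sum.elim z₁ h₁)) f).IsPrime := prodI_prime _ _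
  have hd : (kr k (Sum.elim (Sum.elim z₁ h₁) z₁)).IsPrime := kr_prime _
  have hz₁V : z₁ ∈ zeroLocus K₁ f := by
    intro P hP
    rw [← hz₁, mem_kr] at hP
    exact hP
  have hrd : prodI (kr k (Sum.elim z₁ h₁)) f ≤ kr k (Sum.elim (Sum.elim z₁ h₁) z₁) :=
    prodI_le_kr' _ _ _ _ (fun P hP => (mem_kr _ _).1 hP) hz₁V
  -- the nonvanishing function
  have hi₁ := MeetB_indep hf z₁ hz₁
  have hV₁ : Sum.elim (fun j => z₁ (Sum.inl j)) (fun j => z₁ (Sum.inr j)) ∈ zeroLocus K₁ f := by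
    have : Sum.elim (fun j => z₁ (Sum.inl j)) (fun j => z₁ (Sum.inr j)) = z₁ := by
      funext i; cases i <;> rfl
    rw [this]; exact hz₁V
  have he : ∃ e : Fin c × Bool,
      dot (fun j => algebraMap k K₁ (g e.1 j)) (fun j => z₁ (MeetB_side e.2 j)) ≠ 0 := by
    obtain ⟨s, hs | hs⟩ := noLine_ext g hL _ _ hV₁ hi₁
    · exact ⟨(s, false), by simpa [MeetB_side] using hs⟩
    · exact ⟨(s, true), by simpa [MeetB_side] using hs⟩
  obtain ⟨e₁, he₁⟩ := he
  have hx₁ : ∀ e : Fin c × Bool,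
      dot (fun j => h₁ (e.1, j)) (fun j => z₁ (MeetB_side e.2 j)) = 0 := by
    rintro ⟨s, b⟩
    cases b
    · simpa [MeetB_side] using hu₁ s
    · simpa [MeetB_side] using hw₁ s
  have hG : ∀ e ∈ (Finset.univ.erase e₁ : Finset (Fin c × Bool)),
      (MeetB_x k e * MeetB_y g e₁ - MeetB_x k e₁ * MeetB_y g e) ∈
        kr k (Sum.elim (Sum.elim z₁ h₁) z₁) := by
    intro e _
    rw [mem_kr]
    simp only [map_sub, map_mul, MeetB_aeval_x, hx₁]
    ring
  obtain ⟨q, hq, hrq, hqd, hGq, htdq⟩ := krull_finset (Finset.univ.erase e₁)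
    (fun e : Fin c × Bool => MeetB_x k e * MeetB_y g e₁ - MeetB_x k e₁ * MeetB_y g e)
    (prodI (kr k (Sum.elim z₁ h₁)) f) (kr k (Sum.elim (Sum.elim z₁ h₁) z₁)) hrd hG
  have := hq
  obtain ⟨K, _, _, x, hx⟩ := exists_generic q
  set z₀ : ι ⊕ ι → K := fun i => x (Sum.inl (Sum.inl i)) with hz₀
  set h : Fin c × ι → K := fun i => x (Sum.inl (Sum.inr i)) with hh
  set z : ι ⊕ ι → K := fun i => x (Sum.inr i) with hz
  have hxe : x = Sum.elim (Sum.elim z₀ h) z := by
    funext i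
    rcases i with (i | i) | i <;> rfl
  rw [hxe] at hx
  have hmem : ∀ P, aeval (Sum.elim (Sum.elim z₀ h) z) P = 0 ↔ P ∈ q := by
    intro P
    rw [← hx, mem_kr]
  have hpz : ∀ G ∈ kr k (Sum.elim z₁ h₁), aeval (Sum.elim z₀ h) G = 0 := by
    intro G hGm
    have h1 := (hmem _).2 (hrq (prodI_sub (kr k (Sum.elim z₁ h₁)) f G hGm))
    rw [aeval_rename] at h1
    simpa using h1
  have hy : aeval (Sum.elim (Sum.elim z₀ h) z) (MeetB_y g e₁) ≠ 0 := by
    intro h0
    have h1 := hqd ((hmem _).1 h0)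
    rw [mem_kr, MeetB_aeval_y] at h1
    exact he₁ h1
  have hprop : ∀ e : Fin c × Bool,
      dot (fun j => h (e.1, j)) (fun j => z (MeetB_side e.2 j)) =
        (aeval (Sum.elim (Sum.elim z₀ h) z) (MeetB_x k e₁) /
          aeval (Sum.elim (Sum.elim z₀ h) z) (MeetB_y g e₁)) *
        dot (fun j => algebraMap k K (g e.1 j)) (fun j => z (MeetB_side e.2 j)) := by
    intro e
    have h1 : aeval (Sum.elim (Sum.elim z₀ h) z)
        (MeetB_x k e * MeetB_y g e₁ - MeetB_x k e₁ * MeetB_y g e) = 0 := by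
      by_cases hee : e = e₁
      · rw [hee]; simp
      · exact (hmem _).2 (hGq e (Finset.mem_erase.2 ⟨hee, Finset.mem_univ _⟩))
    rw [← MeetB_aeval_x (k := k) e z₀ h z, ← MeetB_aeval_y g e (Sum.elim z₀ h) z]
    rw [map_sub, map_mul, map_mul, sub_eq_zero] at h1
    field_simp
    exact h1
  refine ⟨K, inferInstance, inferInstance, z₀, h, z,
    aeval (Sum.elim (Sum.elim z₀ h) z) (MeetB_x k e₁) /
      aeval (Sum.elim (Sum.elim z₀ h) z) (MeetB_y g e₁), ?_, ?_, ?_, ?_, ?_, ?_, ?_, ?_⟩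
  · ext P
    rw [mem_kr]
    constructor
    · intro h0
      have h1 : aeval (Sum.elim (Sum.elim z₀ h) z)
          (rename (Sum.inl ∘ Sum.inl : ι ⊕ ι → ((ι ⊕ ι) ⊕ (Fin c × ι)) ⊕ (ι ⊕ ι)) P) = 0 := by
        rw [aeval_rename]
        simpa [Function.comp_def] using h0
      have h2 := hqd ((hmem _).1 h1)
      rw [mem_kr, aeval_rename] at h2
      rw [← hz₁, mem_kr]
      simpa [Function.comp_def] using h2
    · intro hP
      have h1 : rename (Sum.inl : ι ⊕ ι → (ι ⊕ ι) ⊕ (Fin c × ι)) P ∈ kr k (Sum.elim z₁ h₁) := by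
        rw [mem_kr, aeval_rename]
        rw [← hz₁, mem_kr] at hP
        simpa using hP
      have h2 := hpz _ h1
      rw [aeval_rename] at h2
      simpa using h2
  · intro s
    have h1 : (∑ j, X (Sum.inr (s, j)) * X (Sum.inl (Sum.inl j)) :
        MvPolynomial ((ι ⊕ ι) ⊕ (Fin c × ι)) k) ∈ kr k (Sum.elim z₁ h₁) := by
      rw [mem_kr]
      simpa [dot, map_sum] using hu₁ s
    have h2 := hpz _ h1
    simpa [dot, map_sum] using h2
  · intro s
    have h1 : (∑ j, X (Sum.inr (s, j)) * X (Sum.inl (Sum.inr j)) :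
        MvPolynomial ((ι ⊕ ι) ⊕ (Fin c × ι)) k) ∈ kr k (Sum.elim z₁ h₁) := by
      rw [mem_kr]
      simpa [dot, map_sum] using hw₁ s
    have h2 := hpz _ h1
    simpa [dot, map_sum] using h2
  · intro P hP
    have h1 := (hmem _).2 (hrq (prodI_sub' (kr k (Sum.elim z₁ h₁)) f P hP))
    rw [aeval_rename] at h1
    simpa using h1
  · intro s
    have h1 := hprop (s, false)
    simpa [MeetB_side] using h1
  · intro s
    have h1 := hprop (s, true)
    simpa [MeetB_side] using h1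
  · intro P hP
    have h1 := hqd ((hmem _).1 hP)
    rw [mem_kr] at h1
    have h2 : rename (Sum.elim id Sum.inl :
        ((ι ⊕ ι) ⊕ (Fin c × ι)) ⊕ (ι ⊕ ι) → (ι ⊕ ι) ⊕ (Fin c × ι)) P ∈
          kr k (Sum.elim z₁ h₁) := by
      rw [mem_kr, aeval_rename]
      have : Sum.elim z₁ h₁ ∘ (Sum.elim id Sum.inl :
        ((ι ⊕ ι) ⊕ (Fin c × ι)) ⊕ (ι ⊕ ι) → (ι ⊕ ι) ⊕ (Fin c × ι)) =
          Sum.elim (Sum.elim z₁ h₁) z₁ := by
        funext i
        rcases i with i | i <;> rfl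
      rw [this]
      exact h1
    have h3 := hpz _ h2
    rw [aeval_rename] at h3
    have : Sum.elim z₀ h ∘ (Sum.elim id Sum.inl :
        ((ι ⊕ ι) ⊕ (Fin c × ι)) ⊕ (ι ⊕ ι) → (ι ⊕ ι) ⊕ (Fin c × ι)) =
          Sum.elim (Sum.elim z₀ h) z₀ := by
      funext i
      rcases i with i | i <;> rfl
    rw [this] at h3
    exact h3
  · rw [hx]
    rw [td_prodI] at htdq
    have hcard : (Finset.univ.erase e₁ : Finset (Fin c × Bool)).card = 2 * c - 1 := by
      rw [Finset.card_erase_of_mem (Finset.mem_univ _), Finset.card_univ, Fintype.card_prod,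
        Fintype.card_fin, Fintype.card_bool]
      omega
    rw [hcard] at htdq
    omega

end

end Pool.Agent.Lib.MP_1e3e9c_agS
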