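import Pool.Agent.Lib.MP_1e3e9c_agS.DimB

/-!
# Specialisation over a subfield
-/

set_option autoImplicit false

namespace Pool.Agent.Lib.MP_1e3e9c_agS

open MvPolynomial

noncomputable section

variable {k : Type} [Field k] [IsAlgClosed k] {ι : Type} [Fintype ι]

/-- Common denominators: `D(x) P(w)` is the value of a polynomial over `k`. -/
private theorem MeetC_clear {α β K k' : Type} [Field k'] [Field K] [Algebra k' K] (x : α → K)
    (P : MvPolynomial β (IntermediateField.adjoin k' (Set.range x))) :
    ∃ (D : MvPolynomial α k') (Q : MvPolynomial (α ⊕ β) k'), aeval x D ≠ 0 ∧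
      ∀ w : β → K, aeval (Sum.elim x w) Q = aeval x D * aeval w P := by
  have hl : ∀ (w : β → K) (D : MvPolynomial α k'),
      aeval (Sum.elim x w) (rename Sum.inl D : MvPolynomial (α ⊕ β) k') = aeval x D := by
    intro w D
    rw [aeval_rename]
    rfl
  induction P using MvPolynomial.induction_on with
  | C a =>
    obtain ⟨r, s, hrs⟩ := (IntermediateField.mem_adjoin_range_iff k' x (a : K)).1 a.2
    by_cases hs : aeval x s = 0
    · refine ⟨1, 0, by simp, fun w => ?_⟩
      have ha : (a : K) = 0 := by rw [hrs, hs, div_zero]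
      rw [map_zero, map_one, one_mul, aeval_C]
      exact ha.symm
    · refine ⟨s, rename Sum.inl r, hs, fun w => ?_⟩
      rw [hl, aeval_C]
      change aeval x r = aeval x s * (a : K)
      rw [hrs]
      field_simp
  | add p q hp hq =>
    obtain ⟨D1, Q1, h1, h1'⟩ := hp
    obtain ⟨D2, Q2, h2, h2'⟩ := hq
    refine ⟨D1 * D2, Q1 * rename Sum.inl D2 + Q2 * rename Sum.inl D1, ?_, fun w => ?_⟩
    · rw [map_mul]
      exact mul_ne_zero h1 h2
    · rw [map_add, map_mul, map_mul, map_mul, map_add, hl, hl, h1', h2']
      ring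
  | mul_X p i hp =>
    obtain ⟨D, Q, h, h'⟩ := hp
    refine ⟨D, Q * X (Sum.inr i), h, fun w => ?_⟩
    rw [map_mul, map_mul, h', aeval_X, aeval_X, Sum.elim_inr, mul_assoc]

/-- D3. From polynomials over `k` to polynomials over the field generated by `z₀` and `h`.

Proof. The coefficients of `P` are quotients of polynomials in the generators; multiply by a common denominator. -/
theorem spec_kappa {α β K : Type} [Finite α] [Finite β] [Field K] [Algebra k K] (x : α → K)
    (z z' : β → K)
    (H : ∀ P : MvPolynomial (α ⊕ β) k, aeval (Sum.elim x z) P = 0 →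
      aeval (Sum.elim x z') P = 0)
    (P : MvPolynomial β (IntermediateField.adjoin k (Set.range x))) (hP : aeval z P = 0) :
    aeval z' P = 0 := by
  obtain ⟨D, Q, hD, hQ⟩ := MeetC_clear x P
  have h1 := H Q (by rw [hQ, hP, mul_zero])
  rw [hQ] at h1
  exact (mul_eq_zero.1 h1).resolve_left hD

end

end Pool.Agent.Lib.MP_1e3e9c_agS
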