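import Pool.Agent.Lib.MP_1e3e9c_agS.DimB

/-!
# Linear forms which vanish on independent vectors
-/

set_option autoImplicit false

namespace Pool.Agent.Lib.MP_1e3e9c_agS

open MvPolynomial

noncomputable section

variable {k : Type} [Field k] [IsAlgClosed k] {ι : Type} [Fintype ι]

/-- D4. Linear forms which vanish on independent vectors.

Proof. The matrix of the `v r` has an invertible minor with columns `J`, `#J = ρ`; `h j`, `j ∈ J`, are rational functions of
the `v r` and of the `h j`, `j ∉ J` (Cramer). -/
theorem T_forms {K : Type} [Field K] [Algebra k K] {c ρ : ℕ} (v : Fin ρ → ι → K)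
    (hv : LinearIndependent K v) (h : Fin c × ι → K) (S : Set K)
    (hS : ∀ r j, v r j ∈ S) (hh : ∀ s r, dot (fun j => h (s, j)) (v r) = 0) :
    T k (S ∪ Set.range h) ≤ T k S + c * (Fintype.card ι - ρ : ℕ) := by
  classical
  let F : IntermediateField k K := IntermediateField.adjoin k S
  let v' : Fin ρ → ι → F := fun r j => ⟨v r j, IntermediateField.subset_adjoin k S (hS r j)⟩
  have hv' : LinearIndependent F v' := by
    rw [Fintype.linearIndependent_iff]
    intro d hd r
    have h1 : ∑ r, (d r : K) • v r = 0 := by
      funext j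
      have h2 := congrArg (algebraMap F K) (congrFun hd j)
      rw [Finset.sum_apply, map_sum] at h2
      rw [Finset.sum_apply]
      exact h2
    have h2 := Fintype.linearIndependent_iff.1 hv (fun r => (d r : K)) h1 r
    exact Subtype.ext h2
  let U : Submodule F (ι → F) := Submodule.span F (Set.range v')
  have hU : Module.finrank F U = ρ := by
    rw [finrank_span_eq_card hv', Fintype.card_fin]
  have hQ : Module.finrank F ((ι → F) ⧸ U) = Fintype.card ι - ρ := by
    have h1 := Submodule.finrank_quotient_add_finrank U
    rw [hU, Module.finrank_fintype_fun_eq_card] at h1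
    omega
  let s : Set ((ι → F) ⧸ U) := Set.range fun j : ι => U.mkQ (Pi.single j 1)
  have hs : Submodule.span F s = ⊤ := by
    have h1 : s = U.mkQ '' (Set.range fun j : ι => (Pi.single j 1 : ι → F)) := by
      rw [← Set.range_comp]
      rfl
    have h2 : Submodule.span F (Set.range fun j : ι => (Pi.single j 1 : ι → F)) = ⊤ := by
      have h3 := (Pi.basisFun F ι).span_eq
      have h4 : (⇑(Pi.basisFun F ι)) = fun j : ι => (Pi.single j 1 : ι → F) := by
        funext j
        exact Pi.basisFun_apply F ι j
      rw [h4] at h3
      exact h3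
    rw [h1, ← Submodule.map_span, h2, Submodule.map_top, Submodule.range_mkQ]
  obtain ⟨f, hf, hfs, -⟩ := Submodule.exists_fun_fin_finrank_span_eq F s
  have hm : Module.finrank F (Submodule.span F s) = Fintype.card ι - ρ := by
    rw [hs, finrank_top, hQ]
  choose J hJ using hf
  let H : Set K := Set.range fun q : Fin c × Fin (Module.finrank F (Submodule.span F s)) =>
    h (q.1, J q.2)
  have hH : H.encard ≤ (c * (Fintype.card ι - ρ : ℕ) : ℕ∞) := by
    have h1 : H = (fun q : Fin c × Fin (Module.finrank F (Submodule.span F s)) =>
      h (q.1, J q.2)) '' Set.univ := Set.image_univ.symm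
    rw [h1]
    refine (Set.encard_image_le _ _).trans ?_
    rw [Set.encard_univ, ENat.card_eq_coe_fintype_card, Fintype.card_prod, Fintype.card_fin,
      Fintype.card_fin, hm]
    push_cast
    exact le_rfl
  have hmem : Set.range h ⊆ IntermediateField.adjoin k (S ∪ H) := by
    rintro _ ⟨⟨a, j⟩, rfl⟩
    have h1 : U.mkQ (Pi.single j 1) ∈ Submodule.span F (Set.range f) := by
      rw [hfs, hs]
      exact Submodule.mem_top
    obtain ⟨w, hw⟩ := (Submodule.mem_span_range_iff_exists_fun F).1 h1
    have h2 : U.mkQ (Pi.single j 1 - ∑ i, w i • Pi.single (J i) 1) = 0 := by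
      rw [map_sub, map_sum, ← hw, sub_eq_zero]
      refine Finset.sum_congr rfl fun i _ => ?_
      rw [map_smul, ← hJ i]
    rw [Submodule.mkQ_apply, Submodule.Quotient.mk_eq_zero] at h2
    obtain ⟨d, hd⟩ := (Submodule.mem_span_range_iff_exists_fun F).1 h2
    have h3 : h (a, j) = ∑ i, (w i : K) * h (a, J i) := by
      have h4 : ∀ j', (Pi.single j 1 - ∑ i, w i • Pi.single (J i) 1 : ι → F) j' =
          (Pi.single j 1 : ι → F) j' - ∑ i, w i * (Pi.single (J i) 1 : ι → F) j' := by
        intro j'
        rw [Pi.sub_apply, Finset.sum_apply]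
        rfl
      have h5 : ∑ j', h (a, j') * (((Pi.single j 1 - ∑ i, w i • Pi.single (J i) 1 : ι → F) j' : F) : K)
          = 0 := by
        rw [← hd]
        have h6 : ∀ j', (((∑ r, d r • v' r) j' : F) : K) = ∑ r, (d r : K) * v r j' := by
          intro j'
          rw [Finset.sum_apply]
          exact map_sum (algebraMap F K) _ _
        rw [Finset.sum_congr rfl fun j' _ => by rw [h6 j', Finset.mul_sum], Finset.sum_comm]
        refine Finset.sum_eq_zero fun r _ => ?_
        have h7 := hh a r
        unfold dot at h7
        rw [Finset.sum_congr rfl fun j' _ => show h (a, j') * ((d r : K) * v r j') =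
          (d r : K) * (h (a, j') * v r j') by ring, ← Finset.mul_sum, h7, mul_zero]
      rw [Finset.sum_congr rfl fun j' _ => by rw [h4 j']] at h5
      have h8 : ∀ j', (((Pi.single j 1 : ι → F) j' - ∑ i, w i * (Pi.single (J i) 1 : ι → F) j' : F) : K)
          = (if j' = j then 1 else 0) - ∑ i, (w i : K) * (if j' = J i then 1 else 0) := by
        intro j'
        have h9 : ∀ l, (((Pi.single l 1 : ι → F) j' : F) : K) = if j' = l then 1 else 0 := by
          intro l
          rw [Pi.single_apply]
          split_ifs <;> rfl
        have h10 : ((∑ i, w i * (Pi.single (J i) 1 : ι → F) j' : F) : K) =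
            ∑ i, (w i : K) * (if j' = J i then 1 else 0) := by
          refine (map_sum (algebraMap F K) _ _).trans (Finset.sum_congr rfl fun i _ => ?_)
          rw [← h9 (J i)]
          rfl
        rw [← h9 j, ← h10]
        rfl
      rw [Finset.sum_congr rfl fun j' _ => by rw [h8 j', mul_sub], Finset.sum_sub_distrib,
        sub_eq_zero] at h5
      have h11 : ∑ j', h (a, j') * (if j' = j then (1 : K) else 0) = h (a, j) := by
        simp
      have h12 : ∑ j', h (a, j') * ∑ i, (w i : K) * (if j' = J i then (1 : K) else 0) =
          ∑ i, (w i : K) * h (a, J i) := by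
        rw [Finset.sum_congr rfl fun j' _ => Finset.mul_sum _ _ _, Finset.sum_comm]
        refine Finset.sum_congr rfl fun i _ => ?_
        rw [Finset.sum_eq_single (J i)]
        · rw [if_pos rfl]
          ring
        · intro j' _ hj'
          rw [if_neg hj', mul_zero, mul_zero]
        · intro h13
          exact absurd (Finset.mem_univ _) h13
      rw [h11, h12] at h5
      exact h5
    rw [h3]
    refine sum_mem fun i _ => mul_mem ?_ ?_
    · exact IntermediateField.adjoin.mono k _ _ Set.subset_union_left (w i).2
    · exact IntermediateField.subset_adjoin k _ (Set.mem_union_right _ ⟨(a, i), rfl⟩)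
  calc T k (S ∪ Set.range h) ≤ T k ((S ∪ H) ∪ Set.range h) :=
        T_mono (Set.union_subset_union_left _ Set.subset_union_left)
    _ = T k (S ∪ H) := T_union_of_mem hmem
    _ ≤ T k S + T k H := T_union_le S H
    _ ≤ T k S + H.encard := by gcongr; exact T_le_encard H
    _ ≤ T k S + c * (Fintype.card ι - ρ : ℕ) := by gcongr

end

end Pool.Agent.Lib.MP_1e3e9c_agS
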