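import Pool.Agent.Lib.MP_1e3e9c_agS.ExtB
import Pool.Agent.Lib.MP_1e3e9c_agS.ExtC
import Pool.Agent.Lib.MP_1e3e9c_agS.MeetB
import Pool.Agent.Lib.MP_1e3e9c_agS.MeetC
import Pool.Agent.Lib.MP_1e3e9c_agS.MeetD

/-!
# Two lines of the family which meet
-/

set_option autoImplicit false

namespace Pool.Agent.Lib.MP_1e3e9c_agS

open MvPolynomial

noncomputable section

theorem T_nat {k : Type} [Field k] {Ω : Type} [Field Ω] [Algebra k Ω] {s : Set Ω}
    (hs : s.Finite) : ∃ n : ℕ, T k s = n := by
  have h1 := T_le_encard (k := k) s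
  have h2 : T k s ≠ ⊤ := fun h => by
    rw [h, top_le_iff] at h1
    exact hs.encard_lt_top.ne h1
  exact ⟨(T k s).toNat, (ENat.coe_toNat h2).symm⟩

variable {k : Type} [Field k] [IsAlgClosed k] {ι : Type} [Fintype ι]
  {f : Ideal (MvPolynomial (ι ⊕ ι) k)}

/-- The generic point of the family is an independent pair. -/
theorem indep_of_kr (hf : IsFam f) {K : Type} [Field K] [Algebra k K] {z : ι ⊕ ι → K}
    (hz : kr k z = f) : ∃ i j, z (Sum.inl i) * z (Sum.inr j) - z (Sum.inl j) * z (Sum.inr i) ≠ 0 := by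
  obtain ⟨u, w, h1, h2⟩ := hf.nondeg
  obtain ⟨i, j, hij⟩ := (indep_iff u w).mp h2
  refine ⟨i, j, fun h => hij ?_⟩
  have h3 : (X (Sum.inl i) * X (Sum.inr j) - X (Sum.inl j) * X (Sum.inr i) :
      MvPolynomial (ι ⊕ ι) k) ∈ kr k z := by
    rw [mem_kr]
    simp only [map_sub, map_mul, aeval_X]
    exact h
  rw [hz] at h3
  have h4 := h1 _ h3
  simpa only [map_sub, map_mul, aeval_X, Sum.elim_inl, Sum.elim_inr] using h4

theorem T_le_of_zero [IsAlgClosed k] (hf : IsFam f) {K : Type} [Field K] [Algebra k K]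
    {z : ι ⊕ ι → K} (hz : z ∈ zeroLocus K f) : T k (Set.range z) ≤ (td f : ℕ∞) := by
  have := kr_prime (k := k) z
  rw [T_range]
  have h1 : f ≤ kr k z := fun g hg => (mem_kr z g).mpr (hz g hg)
  exact_mod_cast td_mono h1

theorem elim_eq {K : Type} (z : ι ⊕ ι → K) :
    Sum.elim (fun j => z (Sum.inl j)) (fun j => z (Sum.inr j)) = z := by
  funext i
  rcases i with i | i <;> rfl

theorem exists_meet (hf : IsFam f) {c : ℕ} (hc : 0 < c) (hd : 2 * c + 4 ≤ td f)
    (g : Fin c → ι → k)
    (hL : ∀ u w : ι → k, Sum.elim u w ∈ zeroLocus k f → LinearIndependent k ![u, w] →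
      ∃ s, dot (g s) u ≠ 0 ∨ dot (g s) w ≠ 0) :
    ∃ (K : Type) (_ : Field K) (_ : Algebra k K) (u₀ w₀ u w : ι → K),
      kr k (Sum.elim u₀ w₀) = f ∧ Sum.elim u w ∈ zeroLocus K f ∧
      LinearIndependent K ![u₀, w₀] ∧ LinearIndependent K ![u, w] ∧
      (∃ α β γ δ : K, α • u₀ + β • w₀ = γ • u + δ • w ∧ α • u₀ + β • w₀ ≠ 0) ∧
      ((2 * td f + 1 : ℕ) : ℕ∞) ≤
        T k (Set.range u₀ ∪ Set.range w₀ ∪ Set.range u ∪ Set.range w) + c := by
  classical
  obtain ⟨K, _, _, z₀, h, z, θ, hz0, h0u, h0w, hz, hu, hw, hspec, hdim⟩ := exists_theta hf hc g hL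
  set u₀ : ι → K := fun j => z₀ (Sum.inl j) with hu₀
  set w₀ : ι → K := fun j => z₀ (Sum.inr j) with hw₀
  set u : ι → K := fun j => z (Sum.inl j) with hu'
  set w : ι → K := fun j => z (Sum.inr j) with hw'
  have e0 : Sum.elim u₀ w₀ = z₀ := elim_eq z₀
  have e1 : Sum.elim u w = z := elim_eq z
  obtain ⟨i, j, hij⟩ := indep_of_kr hf hz0
  have hi0 : LinearIndependent K ![u₀, w₀] := (indep_iff u₀ w₀).mpr ⟨i, j, hij⟩
  have hi : LinearIndependent K ![u, w] := by
    refine (indep_iff u w).mpr ⟨i, j, fun hc0 => hij ?_⟩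
    have h1 := hspec (X (Sum.inr (Sum.inl i)) * X (Sum.inr (Sum.inr j)) -
      X (Sum.inr (Sum.inl j)) * X (Sum.inr (Sum.inr i))) (by
        simp only [map_sub, map_mul, aeval_X, Sum.elim_inr]
        exact hc0)
    simpa only [map_sub, map_mul, aeval_X, Sum.elim_inr] using h1
  have hV0 : Sum.elim u₀ w₀ ∈ zeroLocus K f := by
    rw [e0]
    intro G hG
    rw [← hz0, mem_kr] at hG
    exact hG
  have hV : Sum.elim u w ∈ zeroLocus K f := by rw [e1]; exact hz
  -- theta is zero
  set κ := IntermediateField.adjoin k (Set.range (Sum.elim z₀ h)) with hκ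
  have hmem : ∀ a, Sum.elim z₀ h a ∈ κ := fun a =>
    IntermediateField.subset_adjoin k _ (Set.mem_range_self a)
  have hhκ : ∀ s j, (fun s j => h (s, j)) s j ∈ κ := fun s j => hmem (Sum.inr (s, j))
  have hθa := theta_algebraic hf g hL κ (fun s j => h (s, j)) hhκ u w hV hi θ hu hw
  have hθ : θ = 0 := by
    refine theta_zero hf g hL κ (fun s j => h (s, j)) hhκ u w θ hθa hu hw u₀ w₀ hV0 hi0 h0u h0w ?_
    intro P hP
    rw [e0]
    rw [e1] at hP
    exact spec_kappa (Sum.elim z₀ h) z z₀ hspec P hP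
  rw [hθ] at hu hw
  simp only [zero_mul] at hu hw
  -- the ranks
  set S : Set K := Set.range u₀ ∪ Set.range w₀ ∪ Set.range u ∪ Set.range w with hS
  have hSz : S = Set.range z₀ ∪ Set.range z := by
    ext a
    simp only [hS, Set.mem_union, Set.mem_range, Sum.exists, hu₀, hw₀, hu', hw']
    tauto
  have hSf : S.Finite := by
    rw [hSz]
    exact (Set.finite_range z₀).union (Set.finite_range z)
  have hall : Set.range (Sum.elim (Sum.elim z₀ h) z) = S ∪ Set.range h := by
    rw [hSz, Set.Sum.elim_range, Set.Sum.elim_range]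
    ext a
    simp only [Set.mem_union]
    tauto
  have hT := T_range (k := k) (Sum.elim (Sum.elim z₀ h) z)
  rw [hall] at hT
  obtain ⟨n, hn⟩ := T_nat (k := k) hSf
  obtain ⟨n0, hn0⟩ := T_nat (k := k) (Set.finite_range z₀)
  obtain ⟨n1, hn1⟩ := T_nat (k := k) (Set.finite_range z)
  have hn0' : n0 ≤ td f := by
    have := T_le_of_zero hf (z := z₀) (by rw [← e0]; exact hV0)
    rw [hn0] at this
    exact_mod_cast this
  have hn1' : n1 ≤ td f := by
    have := T_le_of_zero hf hz
    rw [hn1] at this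
    exact_mod_cast this
  have hnn : n ≤ n0 + n1 := by
    have := T_union_le (k := k) (Set.range z₀) (Set.range z)
    rw [← hSz, hn, hn0, hn1] at this
    exact_mod_cast this
  have hmS : ∀ a, u₀ a ∈ S ∧ w₀ a ∈ S ∧ u a ∈ S ∧ w a ∈ S := by
    intro a
    refine ⟨?_, ?_, ?_, ?_⟩
    · exact Or.inl (Or.inl (Or.inl ⟨a, rfl⟩))
    · exact Or.inl (Or.inl (Or.inr ⟨a, rfl⟩))
    · exact Or.inl (Or.inr ⟨a, rfl⟩)
    · exact Or.inr ⟨a, rfl⟩
  have bound : ∀ (ρ : ℕ) (v : Fin ρ → ι → K), LinearIndependent K v →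
      (∀ r, v r = u₀ ∨ v r = w₀ ∨ v r = u ∨ v r = w) →
      td (kr k (Sum.elim (Sum.elim z₀ h) z)) ≤ n + c * (Fintype.card ι - ρ) := by
    intro ρ v hv hvr
    have h1 := T_forms (k := k) v hv h S ?_ ?_
    · rw [hT, hn] at h1
      exact_mod_cast h1
    · intro r a
      rcases hvr r with h2 | h2 | h2 | h2 <;> rw [h2]
      · exact (hmS a).1
      · exact (hmS a).2.1
      · exact (hmS a).2.2.1
      · exact (hmS a).2.2.2
    · intro s r
      rcases hvr r with h2 | h2 | h2 | h2 <;> rw [h2]
      · exact h0u s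
      · exact h0w s
      · exact hu s
      · exact hw s
  have hcard : ∀ (ρ : ℕ) (v : Fin ρ → ι → K), LinearIndependent K v → ρ ≤ Fintype.card ι := by
    intro ρ v hv
    have h1 := hv.fintype_card_le_finrank
    rwa [Fintype.card_fin, Module.finrank_fintype_fun_eq_card] at h1
  have hN2 : 2 ≤ Fintype.card ι := hcard 2 _ hi0
  -- four vectors are dependent
  have hdep : ¬ LinearIndependent K ![u₀, w₀, u, w] := by
    intro hli
    have h1 := bound 4 _ hli (by
      intro r
      fin_cases r
      · exact Or.inl rfl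
      · exact Or.inr (Or.inl rfl)
      · exact Or.inr (Or.inr (Or.inl rfl))
      · exact Or.inr (Or.inr (Or.inr rfl)))
    have h2 := hcard 4 _ hli
    obtain ⟨N, hN⟩ := Nat.exists_eq_add_of_le h2
    rw [hN] at h1 hdim
    have e2 : 4 + N - 4 = N := by omega
    have e3 : 4 + N - 2 = N + 2 := by omega
    rw [e2] at h1
    rw [e3, Nat.mul_add] at hdim
    omega
  have hrel : ∃ α β γ δ : K, α • u₀ + β • w₀ = γ • u + δ • w ∧ α • u₀ + β • w₀ ≠ 0 := by
    rw [Fintype.linearIndependent_iff] at hdep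
    push Not at hdep
    obtain ⟨x, hx, r, hr⟩ := hdep
    rw [Fin.sum_univ_four] at hx
    simp only [Matrix.cons_val_zero, Matrix.cons_val_one, Matrix.cons_val] at hx
    have hx' : x 0 • u₀ + x 1 • w₀ = (-x 2) • u + (-x 3) • w := by
      rw [neg_smul, neg_smul]
      have h3 : x 0 • u₀ + x 1 • w₀ + (x 2 • u + x 3 • w) = 0 := by
        rw [← hx]
        abel
      rw [← neg_add]
      exact eq_neg_of_add_eq_zero_left h3
    refine ⟨x 0, x 1, -x 2, -x 3, hx', fun h0 => hr ?_⟩
    have h4 := LinearIndependent.pair_iff.mp hi0 (x 0) (x 1) h0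
    have h5 := LinearIndependent.pair_iff.mp hi (-x 2) (-x 3) (by rw [← hx', h0])
    fin_cases r
    · exact h4.1
    · exact h4.2
    · exact neg_eq_zero.mp h5.1
    · exact neg_eq_zero.mp h5.2
  refine ⟨K, _, _, u₀, w₀, u, w, by rw [e0, hz0], hV, hi0, hi, hrel, ?_⟩
  rw [← hS, hn]
  have goal : 2 * td f + 1 ≤ n + c := by
    have three : ∀ v₃ : ι → K, (v₃ = u₀ ∨ v₃ = w₀ ∨ v₃ = u ∨ v₃ = w) →
        v₃ ∉ Submodule.span K (Set.range ![u₀, w₀]) → 2 * td f + 1 ≤ n + c := by
      intro v₃ hv₃ hsp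
      have hli : LinearIndependent K (Fin.snoc (α := fun _ => ι → K) ![u₀, w₀] v₃) :=
        linearIndependent_finSnoc.mpr ⟨hi0, hsp⟩
      have h1 := bound 3 _ hli (by
        intro r
        refine Fin.lastCases ?_ (fun r => ?_) r
        · rw [Fin.snoc_last]
          exact hv₃
        · rw [Fin.snoc_castSucc]
          fin_cases r
          · exact Or.inl rfl
          · exact Or.inr (Or.inl rfl))
      have h2 := hcard 3 _ hli
      obtain ⟨N, hN⟩ := Nat.exists_eq_add_of_le h2
      rw [hN] at h1 hdim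
      have e2 : 3 + N - 3 = N := by omega
      have e3 : 3 + N - 2 = N + 1 := by omega
      rw [e2] at h1
      rw [e3, Nat.mul_add] at hdim
      omega
    by_cases hus : u ∈ Submodule.span K (Set.range ![u₀, w₀])
    · by_cases hws : w ∈ Submodule.span K (Set.range ![u₀, w₀])
      · -- the same line: impossible
        exfalso
        rw [Matrix.range_cons, Matrix.range_cons, Matrix.range_empty, Set.union_empty,
          Set.singleton_union] at hus hws
        obtain ⟨a, b, hab⟩ := Submodule.mem_span_pair.mp hus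
        obtain ⟨a', b', hab'⟩ := Submodule.mem_span_pair.mp hws
        have h1 : T k S ≤ T k (Set.range z₀) + 4 := by
          have h2 : S ⊆ IntermediateField.adjoin k (Set.range z₀ ∪ {a, b, a', b'}) := by
            have hz₀ : ∀ e, z₀ e ∈ IntermediateField.adjoin k (Set.range z₀ ∪ {a, b, a', b'}) :=
              fun e => IntermediateField.subset_adjoin k _ (Or.inl ⟨e, rfl⟩)
            have ha : a ∈ IntermediateField.adjoin k (Set.range z₀ ∪ {a, b, a', b'}) :=
              IntermediateField.subset_adjoin k _ (Or.inr (by simp))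
            have hb : b ∈ IntermediateField.adjoin k (Set.range z₀ ∪ {a, b, a', b'}) :=
              IntermediateField.subset_adjoin k _ (Or.inr (by simp))
            have ha' : a' ∈ IntermediateField.adjoin k (Set.range z₀ ∪ {a, b, a', b'}) :=
              IntermediateField.subset_adjoin k _ (Or.inr (by simp))
            have hb' : b' ∈ IntermediateField.adjoin k (Set.range z₀ ∪ {a, b, a', b'}) :=
              IntermediateField.subset_adjoin k _ (Or.inr (by simp))
            rintro x (((⟨e, rfl⟩ | ⟨e, rfl⟩) | ⟨e, rfl⟩) | ⟨e, rfl⟩)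
            · exact hz₀ _
            · exact hz₀ _
            · have : u e = a * u₀ e + b * w₀ e := by rw [← hab]; rfl
              rw [this]
              exact add_mem (mul_mem ha (hz₀ _)) (mul_mem hb (hz₀ _))
            · have : w e = a' * u₀ e + b' * w₀ e := by rw [← hab']; rfl
              rw [this]
              exact add_mem (mul_mem ha' (hz₀ _)) (mul_mem hb' (hz₀ _))
          have h3 := T_le_of_mem (k := k) h2
          have h4 := T_union_le (k := k) (Set.range z₀) ({a, b, a', b'} : Set K)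
          have h5 := T_le_encard (k := k) ({a, b, a', b'} : Set K)
          have h6 : ({a, b, a', b'} : Set K).encard ≤ 4 := by
            have e1 := Set.encard_insert_le ({b, a', b'} : Set K) a
            have e2 := Set.encard_insert_le ({a', b'} : Set K) b
            have e3 := Set.encard_insert_le ({b'} : Set K) a'
            rw [Set.encard_singleton] at e3
            calc ({a, b, a', b'} : Set K).encard ≤ ({b, a', b'} : Set K).encard + 1 := e1
              _ ≤ (({a', b'} : Set K).encard + 1) + 1 := by gcongr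
              _ ≤ (((1 + 1) + 1) + 1 : ℕ∞) := by gcongr
              _ = 4 := by norm_num
          calc T k S ≤ T k (Set.range z₀ ∪ {a, b, a', b'}) := h3
            _ ≤ T k (Set.range z₀) + T k {a, b, a', b'} := h4
            _ ≤ T k (Set.range z₀) + 4 := by gcongr; exact h5.trans h6
        rw [hn, hn0] at h1
        have h1' : n ≤ n0 + 4 := by exact_mod_cast h1
        have h7 := bound 2 _ hi0 (by
          intro r
          fin_cases r
          · exact Or.inl rfl
          · exact Or.inr (Or.inl rfl))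
        omega
      · exact three w (Or.inr (Or.inr (Or.inr rfl))) hws
    · exact three u (Or.inr (Or.inr (Or.inl rfl))) hus
  exact_mod_cast goal

end

end Pool.Agent.Lib.MP_1e3e9c_agS
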