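import Pool.Agent.Lib.MP_1e3e9c_agS.ExtA

/-!
# The generic line with generic linear forms
-/

set_option autoImplicit false

namespace Pool.Agent.Lib.MP_1e3e9c_agS

open MvPolynomial

noncomputable section

variable {k : Type} [Field k] [IsAlgClosed k] {ι : Type} [Fintype ι]
  {f : Ideal (MvPolynomial (ι ⊕ ι) k)}

/-- The generic point of the family is an independent pair: some minor is not zero. -/
theorem MeetA_minor (hf : IsFam f) {K₀ : Type} [Field K₀] [Algebra k K₀] (x : ι ⊕ ι → K₀)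
    (hx : kr k x = f) :
    ∃ a b : ι, x (Sum.inl a) * x (Sum.inr b) - x (Sum.inl b) * x (Sum.inr a) ≠ 0 := by
  obtain ⟨u, w, h, hi⟩ := hf.nondeg
  obtain ⟨a, b, hab⟩ := (indep_iff u w).1 hi
  refine ⟨a, b, fun h0 => ?_⟩
  set g : MvPolynomial (ι ⊕ ι) k :=
    X (Sum.inl a) * X (Sum.inr b) - X (Sum.inl b) * X (Sum.inr a) with hg
  have h1 : g ∈ f := by
    rw [← hx, mem_kr]
    simp only [hg, map_sub, map_mul, aeval_X]
    exact h0
  have h2 := h g h1
  simp only [hg, map_sub, map_mul, aeval_X, Sum.elim_inl, Sum.elim_inr] at h2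
  exact hab h2

/-- The identity behind the forms. -/
theorem MeetA_dot [DecidableEq ι] {Ω : Type} [Field Ω] (u w : ι → Ω) (a b : ι) (hne : a ≠ b)
    (t : {j : ι // j ≠ a ∧ j ≠ b} → Ω) (h : ι → Ω)
    (hj : ∀ j : {j : ι // j ≠ a ∧ j ≠ b}, h j = (u a * w b - u b * w a) * t j)
    (ha : h a = -∑ j, t j * (u j * w b - u b * w j))
    (hb : h b = -∑ j, t j * (u a * w j - u j * w a)) :
    dot h u = 0 ∧ dot h w = 0 := by
  have key : ∀ v : ι → Ω, dot h v = h a * v a + h b * v b +
      ∑ j : {j : ι // j ≠ a ∧ j ≠ b}, h j * v j := by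
    intro v
    unfold dot
    have h1 : ∑ j : {j : ι // j ≠ a ∧ j ≠ b}, h j * v j =
        ∑ j ∈ Finset.univ.filter (fun j : ι => j ≠ a ∧ j ≠ b), h j * v j := by
      rw [Finset.sum_subtype (Finset.univ.filter (fun j : ι => j ≠ a ∧ j ≠ b))
        (p := fun j => j ≠ a ∧ j ≠ b) (by simp) (fun j => h j * v j)]
    rw [h1, ← Finset.sum_filter_add_sum_filter_not Finset.univ (fun j : ι => j ≠ a ∧ j ≠ b)]
    have h2 : Finset.univ.filter (fun j : ι => ¬ (j ≠ a ∧ j ≠ b)) = {a, b} := by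
      ext j
      simp only [Finset.mem_filter, Finset.mem_univ, true_and, Finset.mem_insert,
        Finset.mem_singleton]
      tauto
    rw [h2, Finset.sum_pair hne]
    ring
  constructor
  · rw [key, ha, hb, neg_mul, neg_mul, Finset.sum_mul, Finset.sum_mul]
    have h1 : ∑ j : {j : ι // j ≠ a ∧ j ≠ b}, h j * u j =
        ∑ j : {j : ι // j ≠ a ∧ j ≠ b}, (t j * (u j * w b - u b * w j) * u a +
          t j * (u a * w j - u j * w a) * u b) := by
      refine Finset.sum_congr rfl fun j _ => ?_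
      rw [hj j]
      ring
    rw [h1, Finset.sum_add_distrib]
    ring
  · rw [key, ha, hb, neg_mul, neg_mul, Finset.sum_mul, Finset.sum_mul]
    have h1 : ∑ j : {j : ι // j ≠ a ∧ j ≠ b}, h j * w j =
        ∑ j : {j : ι // j ≠ a ∧ j ≠ b}, (t j * (u j * w b - u b * w j) * w a +
          t j * (u a * w j - u j * w a) * w b) := by
      refine Finset.sum_congr rfl fun j _ => ?_
      rw [hj j]
      ring
    rw [h1, Finset.sum_add_distrib]
    ring

theorem MeetA_card [DecidableEq ι] (a b : ι) (hne : a ≠ b) (c : ℕ) :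
    Nat.card (Fin c × {j : ι // j ≠ a ∧ j ≠ b}) = c * (Fintype.card ι - 2) := by
  rw [Nat.card_prod, Nat.card_eq_fintype_card, Fintype.card_fin, Nat.card_eq_fintype_card,
    Fintype.card_subtype]
  have h2 : Finset.univ.filter (fun j : ι => j ≠ a ∧ j ≠ b) = Finset.univ \ {a, b} := by
    ext j
    simp only [Finset.mem_filter, Finset.mem_univ, true_and, Finset.mem_sdiff, Finset.mem_insert,
      Finset.mem_singleton]
    tauto
  rw [h2, Finset.card_sdiff_of_subset (Finset.subset_univ _), Finset.card_pair hne,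
    Finset.card_univ]

/-- New indeterminates are independent over the old coordinates. -/
theorem MeetA_indep {K₀ K τ σ : Type} [Field K₀] [Algebra k K₀] [Field K] [Algebra k K]
    [Algebra K₀ K] [IsScalarTower k K₀ K] (t : τ → K) (ht : AlgebraicIndependent K₀ t)
    (x : σ → K₀) :
    AlgebraicIndependent (Algebra.adjoin k (Set.range fun i => algebraMap K₀ K (x i))) t := by
  set φ : K₀ →ₐ[k] K := IsScalarTower.toAlgHom k K₀ K with hφ
  have hinj : Function.Injective φ := φ.toRingHom.injective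
  have hle : Algebra.adjoin k (Set.range fun i => algebraMap K₀ K (x i)) ≤ φ.range := by
    refine Algebra.adjoin_le ?_
    rintro _ ⟨i, rfl⟩
    exact ⟨x i, rfl⟩
  set e := AlgEquiv.ofInjective φ hinj with he
  set ψ : Algebra.adjoin k (Set.range fun i => algebraMap K₀ K (x i)) →ₐ[k] K₀ :=
    (e.symm : φ.range →ₐ[k] K₀).comp (Subalgebra.inclusion hle) with hψ
  have hval : ∀ y, algebraMap K₀ K (ψ y) = (y : K) := by
    intro y
    have h1 : e (e.symm (Subalgebra.inclusion hle y)) = Subalgebra.inclusion hle y :=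
      e.apply_symm_apply _
    have h2 : ((e (e.symm (Subalgebra.inclusion hle y)) : φ.range) : K) = (y : K) := by
      rw [h1]
      rfl
    exact h2
  have hψinj : Function.Injective ψ := by
    intro y y' hyy
    apply Subtype.ext
    rw [← hval y, ← hval y', hyy]
  refine AlgebraicIndependent.of_ringHom_of_comp_eq (S := K₀) (B := K) ψ.toRingHom (RingHom.id K) ?_ hψinj ?_
  · exact ht
  · ext y
    exact hval y

/-- The variables are independent in the field of fractions. -/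
theorem MeetA_indepX (K₀ τ K : Type) [Field K₀] [Field K] [Algebra K₀ K]
    [Algebra (MvPolynomial τ K₀) K] [IsScalarTower K₀ (MvPolynomial τ K₀) K]
    [IsFractionRing (MvPolynomial τ K₀) K] :
    AlgebraicIndependent K₀ (fun i : τ => algebraMap (MvPolynomial τ K₀) K (X i)) := by
  rw [algebraicIndependent_iff]
  intro p hp
  have h1 : aeval (fun i : τ => algebraMap (MvPolynomial τ K₀) K (X i)) p =
      algebraMap (MvPolynomial τ K₀) K (aeval (X : τ → MvPolynomial τ K₀) p) :=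
    aeval_algebraMap_apply K (X : τ → MvPolynomial τ K₀) p
  rw [h1, aeval_X_left_apply] at hp
  exact IsFractionRing.injective (MvPolynomial τ K₀) K (by rw [hp, map_zero])

/-- A field extension with new indeterminates. -/
theorem MeetA_ext (k K₀ τ : Type) [Field k] [Field K₀] [Algebra k K₀] :
    ∃ (K : Type) (_ : Field K) (_ : Algebra k K) (_ : Algebra K₀ K) (_ : IsScalarTower k K₀ K)
      (t : τ → K), AlgebraicIndependent K₀ t := by
  obtain ⟨K, iF, iA, _, t, ht⟩ : ∃ (K : Type) (_ : Field K) (_ : Algebra K₀ K) (_ : True)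
      (t : τ → K), AlgebraicIndependent K₀ t :=
    ⟨FractionRing (MvPolynomial τ K₀), inferInstance, inferInstance, trivial, _,
      MeetA_indepX K₀ τ _⟩
  let _ : Algebra k K := ((algebraMap K₀ K).comp (algebraMap k K₀)).toAlgebra
  exact ⟨K, iF, inferInstance, iA, IsScalarTower.of_algebraMap_eq (fun _ => rfl), t, ht⟩

/-- The construction in a given field. -/
theorem MeetA_main [DecidableEq ι] (c : ℕ) {K₀ : Type} [Field K₀] [Algebra k K₀]
    (x : ι ⊕ ι → K₀) (hx : kr k x = f) (a b : ι) (hne : a ≠ b)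
    (hm : x (Sum.inl a) * x (Sum.inr b) - x (Sum.inl b) * x (Sum.inr a) ≠ 0)
    {K : Type} [Field K] [Algebra k K] [Algebra K₀ K] [IsScalarTower k K₀ K]
    (t : Fin c × {j : ι // j ≠ a ∧ j ≠ b} → K) (ht : AlgebraicIndependent K₀ t) :
    ∃ (z₀ : ι ⊕ ι → K) (h : Fin c × ι → K),
      kr k z₀ = f ∧ (∀ s, dot (fun j => h (s, j)) (fun j => z₀ (Sum.inl j)) = 0) ∧
      (∀ s, dot (fun j => h (s, j)) (fun j => z₀ (Sum.inr j)) = 0) ∧
      td f + c * (Fintype.card ι - 2) ≤ td (kr k (Sum.elim z₀ h)) := by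
  obtain ⟨z₀, hz₀⟩ : ∃ z₀ : ι ⊕ ι → K, z₀ = fun i => algebraMap K₀ K (x i) := ⟨_, rfl⟩
  obtain ⟨u, hu⟩ : ∃ u : ι → K, u = fun j => z₀ (Sum.inl j) := ⟨_, rfl⟩
  obtain ⟨w, hw⟩ : ∃ w : ι → K, w = fun j => z₀ (Sum.inr j) := ⟨_, rfl⟩
  obtain ⟨m, hmdef⟩ : ∃ m : K, m = u a * w b - u b * w a := ⟨_, rfl⟩
  have hm0 : m ≠ 0 := by
    intro h0
    apply hm
    apply (algebraMap K₀ K).injective
    rw [map_zero, map_sub, map_mul, map_mul]
    rw [hmdef, hu, hw, hz₀] at h0
    exact h0
  obtain ⟨h, hh⟩ : ∃ h : Fin c × ι → K, h = fun p =>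
    if hj : p.2 ≠ a ∧ p.2 ≠ b then m * t (p.1, ⟨p.2, hj⟩)
    else if p.2 = a then -∑ j : {j : ι // j ≠ a ∧ j ≠ b}, t (p.1, j) * (u j * w b - u b * w j)
    else -∑ j : {j : ι // j ≠ a ∧ j ≠ b}, t (p.1, j) * (u a * w j - u j * w a) := ⟨_, rfl⟩
  have hhj : ∀ (s : Fin c) (j : {j : ι // j ≠ a ∧ j ≠ b}), h (s, j) = m * t (s, j) := by
    intro s j
    rw [hh]
    simp only
    rw [dif_pos j.2]
  have hha : ∀ s : Fin c, h (s, a) =
      -∑ j : {j : ι // j ≠ a ∧ j ≠ b}, t (s, j) * (u j * w b - u b * w j) := by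
    intro s
    rw [hh]
    simp only
    rw [dif_neg (fun hc => hc.1 rfl), if_pos trivial]
  have hhb : ∀ s : Fin c, h (s, b) =
      -∑ j : {j : ι // j ≠ a ∧ j ≠ b}, t (s, j) * (u a * w j - u j * w a) := by
    intro s
    rw [hh]
    simp only
    rw [dif_neg (fun hc => hc.2 rfl), if_neg hne.symm]
  have hdot : ∀ s, dot (fun j => h (s, j)) u = 0 ∧ dot (fun j => h (s, j)) w = 0 := fun s =>
    MeetA_dot u w a b hne (fun j => t (s, j)) (fun j => h (s, j))
      (fun j => by rw [hhj s j, hmdef]) (hha s) (hhb s)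
  have hkr : kr k z₀ = f := by
    rw [← hx]
    ext g
    rw [mem_kr, mem_kr]
    have h1 : aeval z₀ g = algebraMap K₀ K (aeval x g) := by
      rw [hz₀]
      exact aeval_algebraMap_apply K x g
    rw [h1]
    exact ⟨fun h => (algebraMap K₀ K).injective (by rw [h, map_zero]), fun h => by rw [h, map_zero]⟩
  refine ⟨z₀, h, hkr, fun s => ?_, fun s => ?_, ?_⟩
  · have := (hdot s).1
    rw [hu] at this
    exact this
  · have := (hdot s).2
    rw [hw] at this
    exact this
  have e1 : T k (Set.range z₀ ∪ Set.range t) =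
      T k (Set.range z₀) + Nat.card (Fin c × {j : ι // j ≠ a ∧ j ≠ b}) := by
    refine T_union_indep t ?_
    rw [hz₀]
    exact MeetA_indep t ht x
  have e2 : T k (Set.range z₀) = (td f : ℕ∞) := by
    rw [T_range, hkr]
  have e3 : T k (Set.range z₀ ∪ Set.range t) ≤ T k (Set.range (Sum.elim z₀ h)) := by
    refine T_le_of_mem ?_
    have hz : ∀ i, z₀ i ∈ IntermediateField.adjoin k (Set.range (Sum.elim z₀ h)) := fun i =>
      IntermediateField.subset_adjoin _ _ ⟨Sum.inl i, rfl⟩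
    have hh' : ∀ i, h i ∈ IntermediateField.adjoin k (Set.range (Sum.elim z₀ h)) := fun i =>
      IntermediateField.subset_adjoin _ _ ⟨Sum.inr i, rfl⟩
    have hmm : m ∈ IntermediateField.adjoin k (Set.range (Sum.elim z₀ h)) := by
      rw [hmdef, hu, hw]
      exact sub_mem (mul_mem (hz _) (hz _)) (mul_mem (hz _) (hz _))
    rintro y (⟨i, rfl⟩ | ⟨⟨s, j⟩, rfl⟩)
    · exact hz i
    · have h1 : t (s, j) = h (s, j) / m := by
        rw [hhj, mul_div_cancel_left₀ _ hm0]
      show t (s, j) ∈ IntermediateField.adjoin k (Set.range (Sum.elim z₀ h))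
      rw [h1]
      exact div_mem (hh' _) hmm
  rw [T_range] at e3
  rw [e1, e2, MeetA_card a b hne c] at e3
  exact_mod_cast e3

/-- D1. The generic line of the family together with `c` generic linear forms which vanish on it.

Proof. `K₀ = Frac (k[U, W] / f)`, `(u₀, w₀)` the residues of the variables, `m = u₀ a * w₀ b - u₀ b * w₀ a ≠ 0`; `K = K₀(t s j : s < c, j ≠ a, b)`
(new indeterminates), `h s j = m * t s j` for `j ≠ a, b` and
`h s a = - ∑_{j ≠ a, b} t s j * (u₀ j * w₀ b - u₀ b * w₀ j)`, `h s b = - ∑_{j ≠ a, b} t s j * (u₀ a * w₀ j - u₀ j * w₀ a)`.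
The rank of `(u₀, w₀, h)` is at least that of `(u₀, w₀, t)`, which is `td f + c (N - 2)`. -/
theorem exists_bundle (hf : IsFam f) (c : ℕ) :
    ∃ (K : Type) (_ : Field K) (_ : Algebra k K) (z₀ : ι ⊕ ι → K) (h : Fin c × ι → K),
      kr k z₀ = f ∧ (∀ s, dot (fun j => h (s, j)) (fun j => z₀ (Sum.inl j)) = 0) ∧
      (∀ s, dot (fun j => h (s, j)) (fun j => z₀ (Sum.inr j)) = 0) ∧
      td f + c * (Fintype.card ι - 2) ≤ td (kr k (Sum.elim z₀ h)) := by
  classical
  have := hf.prime
  obtain ⟨K₀, _, _, x, hx⟩ := exists_generic f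
  obtain ⟨a, b, hm⟩ := MeetA_minor hf x hx
  have hne : a ≠ b := by
    rintro rfl
    exact hm (sub_self _)
  obtain ⟨K, _, _, _, _, t, ht⟩ := MeetA_ext k K₀ (Fin c × {j : ι // j ≠ a ∧ j ≠ b})
  obtain ⟨z₀, h, h1, h2, h3, h4⟩ := MeetA_main c x hx a b hne hm t ht
  exact ⟨K, _, _, z₀, h, h1, h2, h3, h4⟩

end

end Pool.Agent.Lib.MP_1e3e9c_agS
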